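import Pool.Agent.P.MP_9167e9_an.Spec.UD

/-!
Assembly of SPEC from its block part.
-/

noncomputable section
open scoped Classical ENNReal
open Filter Topology

namespace Pool.Agent.P.MP_9167e9_an.Spec

/-- The left regular action of `L` on all functions, transported along `e`. -/
def reg {L G Z : Type} [Group L] [Group G] (ρ : L →* G) (e : G ≃ Z) :
    L →* Module.End ℂ (Z → ℂ) where
  toFun f := LinearMap.funLeft ℂ ℂ fun z => e ((ρ f)⁻¹ * e.symm z)
  map_one' := by
    ext ξ z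
    simp [LinearMap.funLeft_apply]
  map_mul' f g := by
    refine LinearMap.ext fun ξ => funext fun z => ?_
    simp [LinearMap.funLeft_apply, mul_assoc]

theorem reg_apply {L G Z : Type} [Group L] [Group G] (ρ : L →* G) (e : G ≃ Z) (f : L)
    (ξ : Z → ℂ) (z : Z) : reg ρ e f ξ z = ξ (e ((ρ f)⁻¹ * e.symm z)) := rfl

theorem conv_eq {L G Z : Type} [Group L] [Group G] (ρ : L →* G) (e : G ≃ Z) {p : ℝ≥0∞}
    [Fact (1 ≤ p)] (x : MonoidAlgebra ℂ L) (T : Op G p) (hT : IsConv (x.coeff.mapDomain ρ) T)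
    (ξ : Lq G p) (g : G) :
    T ξ g = MonoidAlgebra.lift ℂ _ L (reg ρ e) x (fun z => ξ (e.symm z)) (e g) := by
  rw [hT, Finsupp.sum_mapDomain_index (by simp) (by intros; ring), MonoidAlgebra.lift_apply,
    Finsupp.sum, Finsupp.sum, LinearMap.sum_apply, Finset.sum_apply]
  refine Finset.sum_congr rfl fun f _ => ?_
  simp [reg_apply]

theorem lift_aF {h : ℕ} [NeZero h] {S Γ N G : Type} [Fintype S] [Group N] [Group G]
    (mv : S → Equiv.Perm Γ) (lamp : Γ → S → Multiplicative (ZMod h) →* N)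
    (ρ : FreeGroup (S ⊕ S) →* G) (e : G ≃ Γ × N)
    (h1 : ∀ s g, e (ρ (FreeGroup.of (Sum.inl s)) * g) = (mv s (e g).1, (e g).2))
    (h2 : ∀ s g, e (ρ (FreeGroup.of (Sum.inr s)) * g) =
      ((e g).1, lamp (e g).1 s (Multiplicative.ofAdd 1) * (e g).2)) :
    MonoidAlgebra.lift ℂ _ _ (reg ρ e) (aF S h) = aP mv lamp fun _ _ => True := by
  have h3 : ∀ s g, e ((ρ (FreeGroup.of (Sum.inl s)))⁻¹ * g) = ((mv s)⁻¹ (e g).1, (e g).2) := by
    intro s g
    have := h1 s ((ρ (FreeGroup.of (Sum.inl s)))⁻¹ * g)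
    rw [mul_inv_cancel_left] at this
    generalize e ((ρ (FreeGroup.of (Sum.inl s)))⁻¹ * g) = w at this ⊢
    rw [this]
    simp
  have h4 : ∀ s g, e ((ρ (FreeGroup.of (Sum.inr s)))⁻¹ * g) =
      ((e g).1, lamp (e g).1 s (Multiplicative.ofAdd (-1)) * (e g).2) := by
    intro s g
    have := h2 s ((ρ (FreeGroup.of (Sum.inr s)))⁻¹ * g)
    rw [mul_inv_cancel_left] at this
    generalize e ((ρ (FreeGroup.of (Sum.inr s)))⁻¹ * g) = w at this ⊢
    rw [this]
    simp [← mul_assoc]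
  have h5 : ∀ s (t : ℕ) g, e (((ρ (FreeGroup.of (Sum.inr s))) ^ t)⁻¹ * g) =
      ((e g).1, lamp (e g).1 s (Multiplicative.ofAdd (-(t : ZMod h))) * (e g).2) := by
    intro s t
    induction t with
    | zero => intro g; simp
    | succ t ih =>
      intro g
      rw [pow_succ, mul_inv_rev, mul_assoc, h4, ih]
      simp only [← mul_assoc, ← map_mul, ← ofAdd_add]
      congr 4
      push_cast
      ring
  refine LinearMap.ext fun ξ => funext fun z => ?_
  simp only [aF, map_sum, MonoidAlgebra.lift_single, LinearMap.sum_apply, Finset.sum_apply,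
    LinearMap.smul_apply, Pi.smul_apply, smul_eq_mul, reg_apply, aP, LinearMap.coe_mk,
    AddHom.coe_mk, if_true]
  simp only [map_mul, map_pow, mul_inv_rev, mul_assoc, h3, h5, Equiv.apply_symm_apply]
  refine Finset.sum_congr rfl fun s _ => ?_
  rw [← Finset.mul_sum, one_div, ← div_eq_inv_mul]
  congr 1
  refine Finset.sum_bij (fun t _ => -(t : ZMod h)) (fun _ _ => Finset.mem_univ _)
    (fun t ht t' ht' e' => ?_) (fun u _ => ⟨(-u).val, Finset.mem_range.2 (ZMod.val_lt _), by simp⟩)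
    fun _ _ => rfl
  have := congrArg ZMod.val (neg_injective e')
  rwa [ZMod.val_cast_of_lt (Finset.mem_range.1 ht), ZMod.val_cast_of_lt (Finset.mem_range.1 ht')]
    at this

theorem aP_split {h : ℕ} [NeZero h] {S Γ N : Type} [Fintype S] [Group N] (mv : S → Equiv.Perm Γ)
    (lamp : Γ → S → Multiplicative (ZMod h) →* N) (P : Γ → S → Prop) :
    (aP mv lamp fun _ _ => True) = aP mv lamp P + aP mv lamp fun γ s => ¬P γ s := by
  refine LinearMap.ext fun ξ => funext fun z => ?_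
  simp only [aP, LinearMap.add_apply, Pi.add_apply, LinearMap.coe_mk, AddHom.coe_mk,
    ← Finset.sum_add_distrib]
  refine Finset.sum_congr rfl fun s _ => ?_
  by_cases h1 : P z.1 s <;> simp [h1]

theorem exists_j0 {p ε : ℝ} (hp : 0 < p) (hε : 0 < ε) (T : ℕ) : ∃ j0 : ℕ, 1 ≤ j0 ∧ ∀ j : ℕ,
    j0 ≤ j → (1 + 3 * (j : ℝ) ^ (-1 / p)) ^ (T + 1) - 1 ≤ ε := by
  have h1 : Tendsto (fun j : ℕ => (j : ℝ) ^ (-(1 / p))) atTop (𝓝 0) :=
    (tendsto_rpow_neg_atTop (by positivity)).comp tendsto_natCast_atTop_atTop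
  have h2 := (((h1.const_mul 3).const_add 1).pow (T + 1)).sub_const 1
  simp only [mul_zero, add_zero, one_pow, sub_self] at h2
  obtain ⟨j0, h3⟩ := eventually_atTop.1 (h2.eventually (ge_mem_nhds hε))
  refine ⟨j0 + 1, by omega, fun j hj => ?_⟩
  rw [neg_div]
  exact h3 j (by omega)

theorem spec_of_blk (hB : StBlk) : StSpec := by
  intro p _ c ε hp2 hpt hc hc1 hε
  have hp : 2 ≤ p.toReal := by
    have := ENNReal.toReal_mono hpt hp2
    simpa using this
  have hp1 : 1 ≤ p.toReal := by linarith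
  obtain ⟨T, B, hTB⟩ := hB p.toReal c (ε / 2) hp hc hc1 (by positivity)
  obtain ⟨j0, hj0, hj⟩ := exists_j0 (p := p.toReal) (ε := ε / 2) (by linarith) (by positivity) T
  refine ⟨T, B, j0, fun j h S Γ N G _ _ _ slot mv lamp ρ e I b par blk hjj hh hk2 hkh h1 h2 hPar
    hdis halt hblk T' E hT' hE => ?_⟩
  have : NeZero h := ⟨hh.ne_zero⟩
  have hj1 : 1 ≤ j := hj0.trans hjj
  obtain ⟨hA, hC⟩ := hTB j h S Γ N slot mv lamp I b
    (fun z => (blk (e.symm z)).map e.toEmbedding) hj1 hdis (fun z z' => by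
      rw [Finset.mem_map_equiv, hblk]
      simp only [Equiv.apply_symm_apply])
  have hD := pb_rest mv lamp hp hj1 slot (fun γ s => ¬IsB b γ s) par hk2 hkh hPar
    fun γ s hs => (halt γ s).resolve_left hs
  set A := (1 / j : ℂ) • aP mv lamp (IsB b) with hAd
  set D := (1 / j : ℂ) • aP mv lamp fun γ s => ¬IsB b γ s with hDd
  set η : ℝ := 3 * (j : ℝ) ^ (-1 / p.toReal) with hη
  have hη0 : 0 ≤ η := by positivity
  have h3 : ∀ n, 0 ≤ (1 + η) ^ n - 1 := fun n => by
    have := one_le_pow₀ (n := n) (show (1 : ℝ) ≤ 1 + η by linarith)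
    linarith
  have h4 := (PB.add hp1 (h3 _) (h3 _) (PB.pow_sub hp1 hη0 hA hD T)
    (PB.pow_sub hp1 hη0 hA hD (T + 1))).smul (add_nonneg (h3 _) (h3 _)) (1 / 2 : ℂ)
  have h5 := PB.add hp1 (mul_nonneg (norm_nonneg _) (add_nonneg (h3 _) (h3 _))) (by positivity)
    h4 hC
  have h6 := h5.mono (L' := ε) (by linarith)
    (add_nonneg (mul_nonneg (norm_nonneg _) (add_nonneg (h3 _) (h3 _))) (by positivity)) (by
      have h7 := hj j hjj
      have h8 : (1 + η) ^ T ≤ (1 + η) ^ (T + 1) := pow_le_pow_right₀ (by linarith) (by omega)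
      have h9 : ‖(1 / 2 : ℂ)‖ = 1 / 2 := by simp
      rw [h9]
      linarith)
  refine h6.opNorm hpt e hε.le _ fun ξ g => ?_
  have h7 : MonoidAlgebra.lift ℂ _ _ (reg ρ e) (xF S h j T) =
      (1 / 2 : ℂ) • ((A + D) ^ T + (A + D) ^ (T + 1)) := by
    simp only [xF, map_smul, map_add, map_pow, lift_aF mv lamp ρ e h1 h2,
      aP_split mv lamp (IsB b), smul_add, hAd, hDd]
  rw [sub_apply, lp.coeFn_sub, Pi.sub_apply, conv_eq ρ e _ T' hT', hE, h7]
  simp only [LinearMap.smul_apply, LinearMap.add_apply, LinearMap.sub_apply, Pi.smul_apply,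
    Pi.add_apply, Pi.sub_apply, smul_eq_mul, Finset.sum_map, Finset.card_map,
    Equiv.symm_apply_apply, Equiv.coe_toEmbedding]
  ring

end Pool.Agent.P.MP_9167e9_an.Spec
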