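import Pool.Agent.P.MP_9167e9_an.Spec.BL2

/-!
Fourier analysis on `(ℤ/h)^E`.
-/

noncomputable section
open scoped Classical

namespace Pool.Agent.P.MP_9167e9_an.Spec

variable {h : ℕ} [NeZero h] {E : Type} [Fintype E] [DecidableEq E]

/-- The character of `(ℤ/h)^E` attached to `u`. -/
def ch (u a : E → ZMod h) : ℂ := ZMod.stdAddChar (u ⬝ᵥ a)

omit [DecidableEq E] in
theorem ch_add (u a b : E → ZMod h) : ch u (a + b) = ch u a * ch u b := by
  rw [ch, dotProduct_add, AddChar.map_add_eq_mul]; rfl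

omit [DecidableEq E] in
theorem ch_comm (u a : E → ZMod h) : ch u a = ch a u := by rw [ch, dotProduct_comm]; rfl

omit [DecidableEq E] in
theorem ch_zero (u : E → ZMod h) : ch u 0 = 1 := by simp [ch]

omit [DecidableEq E] in
theorem ch_conj (u a : E → ZMod h) : (starRingEnd ℂ) (ch u a) = ch u (-a) := by
  rw [ch, ch, dotProduct_neg, AddChar.map_neg_eq_conj]

theorem ch_shift (u s : E → ZMod h) (f : (E → ZMod h) → ℂ) :
    ∑ a, ch u a * f (s + a) = ch u (-s) * ∑ a, ch u a * f a := by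
  rw [Finset.mul_sum, ← Equiv.sum_comp (Equiv.addLeft s) fun a => ch u (-s) * (ch u a * f a)]
  refine Finset.sum_congr rfl fun a _ => ?_
  rw [Equiv.coe_addLeft, ← mul_assoc, ← ch_add, neg_add_cancel_left]

theorem ch_vanish (u w : E → ZMod h) (f : (E → ZMod h) → ℂ) (hf : ∀ a, f (w + a) = f a)
    (huw : u ⬝ᵥ w ≠ 0) : ∑ a, ch u a * f a = 0 := by
  have h1 := ch_shift u w f
  simp only [hf] at h1
  by_contra h0
  have h2 : ch u (-w) = 1 := mul_right_cancel₀ h0 (by rw [one_mul]; exact h1.symm)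
  rw [ch, dotProduct_neg, ← (ZMod.stdAddChar (N := h)).map_zero_eq_one] at h2
  exact huw (neg_eq_zero.1 (ZMod.injective_stdAddChar h2))

theorem ch_sum (a : E → ZMod h) :
    ∑ u, ch a u = if a = 0 then (Fintype.card (E → ZMod h) : ℂ) else 0 := by
  split_ifs with h0
  · simp [h0, ch]
  · obtain ⟨e, he⟩ := Function.ne_iff.1 h0
    simpa using ch_vanish a (Pi.single e 1) (fun _ => 1) (fun _ => rfl) (by simpa using he)

theorem ch_single (u : E → ZMod h) (e : E) :
    ∑ t : ZMod h, ch u (-Pi.single e t) = if u e = 0 then (h : ℂ) else 0 := by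
  have h1 := AddChar.sum_mulShift (-u e) (ZMod.isPrimitive_stdAddChar h)
  simp only [ch, dotProduct_neg, dotProduct_single]
  simpa [mul_comm] using h1

theorem parseval (f : (E → ZMod h) → ℂ) :
    ∑ u, ‖∑ a, ch u a * f a‖ ^ 2 = Fintype.card (E → ZMod h) * ∑ a, ‖f a‖ ^ 2 := by
  have e : ∀ z : ℂ, ((‖z‖ ^ 2 : ℝ) : ℂ) = z * (starRingEnd ℂ) z := fun z => by
    rw [Complex.mul_conj, Complex.sq_norm]
  apply Complex.ofReal_injective
  rw [Complex.ofReal_mul, Complex.ofReal_sum, Complex.ofReal_sum]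
  simp only [e, map_sum, map_mul, ch_conj, Finset.sum_mul_sum]
  rw [Finset.sum_comm, Finset.mul_sum]
  refine Finset.sum_congr rfl fun a _ => ?_
  rw [Finset.sum_comm]
  have e2 : ∀ b, ∑ u, ch u a * f a * (ch u (-b) * (starRingEnd ℂ) (f b)) =
      if a = b then (Fintype.card (E → ZMod h) : ℂ) * (f a * (starRingEnd ℂ) (f b)) else 0 := by
    intro b
    have e3 : ∀ u, ch u a * f a * (ch u (-b) * (starRingEnd ℂ) (f b)) =
        ch (a + -b) u * (f a * (starRingEnd ℂ) (f b)) := fun u => by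
      rw [ch_comm (a + -b), ch_add]; ring
    simp only [e3, ← Finset.sum_mul, ch_sum, add_neg_eq_zero]
    split_ifs <;> simp
  simp [e2]

variable {X : Type} [Fintype X]

/-- The Fourier coefficient in the second variable. -/
def FT (u : E → ZMod h) : (X × (E → ZMod h) → ℂ) →ₗ[ℂ] (X → ℂ) where
  toFun η d := ∑ a, ch u a * η (d, a)
  map_add' η ζ := by funext d; simp [mul_add, Finset.sum_add_distrib]
  map_smul' c η := by funext d; simp [Finset.mul_sum, mul_left_comm]

omit [Fintype X] in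
theorem FT_apply (u : E → ZMod h) (η : X × (E → ZMod h) → ℂ) (d : X) :
    FT u η d = ∑ a, ch u a * η (d, a) := rfl

theorem FT_parseval (η : X × (E → ZMod h) → ℂ) :
    ∑ u, ∑ d, ‖FT u η d‖ ^ 2 = Fintype.card (E → ZMod h) * ∑ z, ‖η z‖ ^ 2 := by
  rw [Finset.sum_comm, Fintype.sum_prod_type, Finset.mul_sum]
  exact Finset.sum_congr rfl fun d _ => parseval fun a => η (d, a)

theorem four_bound (Kt : Module.End ℂ (X × (E → ZMod h) → ℂ))
    (K : (E → ZMod h) → Module.End ℂ (X → ℂ)) (hK : ∀ u η, FT u (Kt η) = K u (FT u η)) {δ : ℝ}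
    (η : X × (E → ZMod h) → ℂ) (hb : ∀ u, FT u η = 0 ∨ B2 (K u) δ) :
    ∑ z, ‖Kt η z‖ ^ 2 ≤ δ ^ 2 * ∑ z, ‖η z‖ ^ 2 := by
  have hc : (0 : ℝ) < Fintype.card (E → ZMod h) := by exact_mod_cast Fintype.card_pos
  refine le_of_mul_le_mul_left ?_ hc
  rw [mul_left_comm, ← FT_parseval, ← FT_parseval, Finset.mul_sum]
  refine Finset.sum_le_sum fun u _ => ?_
  rw [hK]
  rcases hb u with h0 | h0
  · simp [h0]
  · exact h0.sq _

omit [Fintype X] in
theorem FT_pow {Kt : Module.End ℂ (X × (E → ZMod h) → ℂ)} {K : Module.End ℂ (X → ℂ)}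
    {u : E → ZMod h} (hK : ∀ η, FT u (Kt η) = K (FT u η)) (n : ℕ) (η : X × (E → ZMod h) → ℂ) :
    FT u ((Kt ^ n) η) = (K ^ n) (FT u η) := by
  induction n with
  | zero => rfl
  | succ n ih => rw [pow_succ', pow_succ', Module.End.mul_apply, Module.End.mul_apply, hK, ih]

end Pool.Agent.P.MP_9167e9_an.Spec
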