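import Mathlib

/-!
Interpolation between `ℓ²` and `ℓ^∞` on a finite set, and gluing of block estimates.
-/

noncomputable section
open scoped Classical

namespace Pool.Agent.P.MP_9167e9_an.Spec

open MeasureTheory Set

/-- The integrand of the interpolation formula. -/
def iF (p x l : ℝ) : ℝ := l ^ (p - 3) * (max (x - l) 0) ^ 2

theorem iF_int {p x : ℝ} (hp : 2 < p) (hx : 0 ≤ x) : IntegrableOn (iF p x) (Ioi 0) := by
  have h1 : IntegrableOn (iF p x) (Ioc 0 x) := by
    have h := (intervalIntegral.intervalIntegrable_rpow' (a := 0) (b := x)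
      (show -1 < p - 3 by linarith)).mul_continuousOn
      (g := fun l => (max (x - l) 0) ^ 2) (by fun_prop)
    exact (intervalIntegrable_iff_integrableOn_Ioc_of_le hx).1 h
  have h2 : IntegrableOn (iF p x) (Ioi x) := by
    refine (integrableOn_congr_fun (g := fun _ => 0) ?_ measurableSet_Ioi).2 integrableOn_zero
    intro l hl
    have : max (x - l) 0 = 0 := max_eq_right (by have := mem_Ioi.1 hl; linarith)
    simp [iF, this]
  rw [← Ioc_union_Ioi_eq_Ioi hx]
  exact h1.union h2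

theorem iF_scale {p x : ℝ} (hp : 2 < p) (hx : 0 ≤ x) :
    ∫ l in Ioi (0 : ℝ), iF p x l = x ^ p * ∫ l in Ioi (0 : ℝ), iF p 1 l := by
  rcases hx.eq_or_lt with rfl | hx
  · rw [Real.zero_rpow (by linarith), zero_mul]
    refine setIntegral_eq_zero_of_forall_eq_zero fun l hl => ?_
    have : max (0 - l) 0 = 0 := max_eq_right (by have := mem_Ioi.1 hl; linarith)
    simp only [iF, this]; simp
  have h := integral_comp_mul_left_Ioi (iF p x) 0 hx
  rw [mul_zero, smul_eq_mul] at h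
  have h2 : ∫ l in Ioi (0 : ℝ), iF p x (x * l) = x ^ (p - 1) * ∫ l in Ioi (0 : ℝ), iF p 1 l := by
    rw [← integral_const_mul]
    refine setIntegral_congr_fun measurableSet_Ioi fun l hl => ?_
    have hl : 0 < l := hl
    have e1 : max (x - x * l) 0 = x * max (1 - l) 0 := by
      rw [mul_max_of_nonneg _ _ hx.le, mul_zero, mul_sub, mul_one]
    have e2 : x ^ (p - 1) = x ^ (p - 3) * x ^ 2 := by
      rw [← Real.rpow_natCast, ← Real.rpow_add hx]; congr 1; push_cast; ring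
    simp only [iF, e1, e2, Real.mul_rpow hx.le hl.le]
    ring
  have e3 : x ^ p = x * x ^ (p - 1) := by
    rw [Real.rpow_sub_one hx.ne']; field_simp
  rw [h2] at h
  rw [e3, mul_assoc, h, ← mul_assoc, mul_inv_cancel₀ hx.ne', one_mul]

theorem iF_nonneg (p x : ℝ) {l : ℝ} (hl : 0 < l) : 0 ≤ iF p x l :=
  mul_nonneg (Real.rpow_nonneg hl.le _) (sq_nonneg _)

theorem iF_pos {p : ℝ} (hp : 2 < p) : 0 < ∫ l in Ioi (0 : ℝ), iF p 1 l := by
  rw [setIntegral_pos_iff_support_of_nonneg_ae _ (iF_int hp zero_le_one)]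
  · refine lt_of_lt_of_le (b := volume (Ioo (0 : ℝ) 1)) (by simp) (measure_mono ?_)
    intro l hl
    refine ⟨?_, hl.1⟩
    have h1 : 0 < max (1 - l) 0 := lt_max_of_lt_left (by linarith [hl.2])
    exact (mul_pos (Real.rpow_pos_of_pos hl.1 _) (pow_pos h1 2)).ne'
  · exact (ae_restrict_iff' measurableSet_Ioi).2 (ae_of_all _ fun l hl => iF_nonneg p 1 hl)

/-- The part of `z` above the level `l`. -/
def top (l : ℝ) (z : ℂ) : ℂ := if ‖z‖ ≤ l then 0 else ((1 - l / ‖z‖ : ℝ) : ℂ) * z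

theorem norm_top {l : ℝ} (hl : 0 < l) (z : ℂ) : ‖top l z‖ = max (‖z‖ - l) 0 := by
  unfold top
  split_ifs with h
  · rw [norm_zero, max_eq_right (by linarith)]
  · have h := not_le.1 h
    have hz : 0 < ‖z‖ := hl.trans h
    have h1 : 0 ≤ 1 - l / ‖z‖ := by rw [sub_nonneg, div_le_one hz]; exact h.le
    rw [norm_mul, Complex.norm_real, Real.norm_of_nonneg h1, max_eq_left (by linarith)]
    field_simp

theorem norm_sub_top {l : ℝ} (hl : 0 < l) (z : ℂ) : ‖z - top l z‖ ≤ l := by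
  unfold top
  split_ifs with h
  · simpa using h
  · have h := not_le.1 h
    have hz : 0 < ‖z‖ := hl.trans h
    have e : z - ((1 - l / ‖z‖ : ℝ) : ℂ) * z = ((l / ‖z‖ : ℝ) : ℂ) * z := by push_cast; ring
    rw [e, norm_mul, Complex.norm_real, Real.norm_of_nonneg (by positivity)]
    rw [div_mul_cancel₀ _ hz.ne']

/-- Interpolation: a contraction of `ℓ^∞` that is small on `ℓ²` is small on `ℓ^p`. -/
theorem interp {Z : Type} [Fintype Z] (K : Module.End ℂ (Z → ℂ)) (ξ : Z → ℂ) {p δ : ℝ}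
    (hp : 2 ≤ p) (h2 : ∀ g : ℂ → ℂ, ∑ w, ‖K (fun z => g (ξ z)) w‖ ^ 2 ≤ δ * ∑ w, ‖g (ξ w)‖ ^ 2)
    (hi : ∀ (ζ : Z → ℂ) (l : ℝ), (∀ w, ‖ζ w‖ ≤ l) → ∀ w, ‖K ζ w‖ ≤ l) :
    ∑ w, ‖K ξ w‖ ^ p ≤ δ * ∑ w, ‖ξ w‖ ^ p := by
  rcases hp.eq_or_lt with rfl | hp
  · simpa using h2 id
  have key : ∀ l, 0 < l → ∑ w, iF p ‖K ξ w‖ l ≤ δ * ∑ w, iF p ‖ξ w‖ l := by
    intro l hl
    have h3 : ∑ w, (max (‖K ξ w‖ - l) 0) ^ 2 ≤ δ * ∑ w, (max (‖ξ w‖ - l) 0) ^ 2 := by
      refine le_trans (Finset.sum_le_sum fun w _ => ?_)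
        ((h2 (top l)).trans_eq (by simp only [norm_top hl]))
      refine pow_le_pow_left₀ (le_max_right _ _) (max_le ?_ (norm_nonneg _)) 2
      have e : K ξ w = K (fun z => top l (ξ z)) w + K (fun z => ξ z - top l (ξ z)) w := by
        have e0 : ξ = (fun z => top l (ξ z)) + fun z => ξ z - top l (ξ z) := by funext z; simp
        rw [← Pi.add_apply (K _), ← map_add, ← e0]
      have h4 := hi (fun z => ξ z - top l (ξ z)) l (fun z => norm_sub_top hl _) w
      have h5 := norm_add_le (K (fun z => top l (ξ z)) w) (K (fun z => ξ z - top l (ξ z)) w)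
      rw [← e] at h5
      linarith
    simp only [iF, ← Finset.mul_sum]
    rw [mul_left_comm]
    exact mul_le_mul_of_nonneg_left h3 (Real.rpow_nonneg hl.le _)
  have i1 := fun (η : Z → ℂ) => integrable_finsetSum (μ := volume.restrict (Ioi (0 : ℝ)))
    Finset.univ fun w _ => iF_int hp (norm_nonneg (η w))
  have h6 := setIntegral_mono_on (i1 (K ξ)) ((i1 ξ).const_mul δ) measurableSet_Ioi
    fun l hl => key l hl
  rw [integral_const_mul, integral_finsetSum _ fun w _ => iF_int hp (norm_nonneg _),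
    integral_finsetSum _ fun w _ => iF_int hp (norm_nonneg _)] at h6
  simp only [iF_scale hp (norm_nonneg _), ← Finset.sum_mul, ← mul_assoc] at h6
  exact le_of_mul_le_mul_right h6 (iF_pos hp)

/-- Gluing of estimates over the classes of a partial partition into finite blocks. -/
theorem glue {Z : Type} (blk : Z → Finset Z) (f g : Z → ℝ) (hg : ∀ z, 0 ≤ g z)
    (h1 : ∀ z z', z' ∈ blk z → blk z' = blk z) (h2 : ∀ z, g z ≠ 0 → z ∈ blk z)
    (h3 : ∀ z, ∑ w ∈ blk z, g w ≤ ∑ w ∈ blk z, f w) (F : Finset Z) :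
    ∃ F' : Finset Z, ∑ z ∈ F, g z ≤ ∑ z ∈ F', f z := by
  have hd : ((F.image blk : Finset (Finset Z)) : Set (Finset Z)).PairwiseDisjoint id := by
    intro s hs t ht hst
    obtain ⟨x, -, rfl⟩ := Finset.mem_image.1 hs
    obtain ⟨y, -, rfl⟩ := Finset.mem_image.1 ht
    refine Finset.disjoint_left.2 fun z hz hz' => hst ?_
    rw [← h1 _ _ hz, ← h1 _ _ hz']
  refine ⟨(F.image blk).biUnion id, ?_⟩
  calc ∑ z ∈ F, g z = ∑ z ∈ F with g z ≠ 0, g z := (Finset.sum_filter_ne_zero F).symm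
    _ ≤ ∑ z ∈ (F.image blk).biUnion id, g z := by
        refine Finset.sum_le_sum_of_subset_of_nonneg (fun z hz => ?_) fun z _ _ => hg z
        obtain ⟨hz, hz'⟩ := Finset.mem_filter.1 hz
        exact Finset.mem_biUnion.2 ⟨blk z, Finset.mem_image_of_mem _ hz, h2 z hz'⟩
    _ ≤ _ := by
        rw [Finset.sum_biUnion hd, Finset.sum_biUnion hd]
        refine Finset.sum_le_sum fun s hs => ?_
        obtain ⟨x, -, rfl⟩ := Finset.mem_image.1 hs
        exact h3 x

end Pool.Agent.P.MP_9167e9_an.Spec
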