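import Pool.Agent.P.MP_9167e9_an.Spec.BTriv
import Pool.Agent.P.MP_9167e9_an.Spec.BFour
import Pool.Agent.P.MP_9167e9_an.Spec.BInterp

/-!
The block operator on the model space `(V × ℤ/2) × (ℤ/h)^E` and its `ℓ^p` bounds.
-/

noncomputable section
open scoped Classical

namespace Pool.Agent.P.MP_9167e9_an.Spec

variable {j h : ℕ} [NeZero h] {V : Type} [Fintype V] (τ : Fin j → Equiv.Perm V)

/-- The lamp configurations of a block. -/
abbrev HE (V : Type) (j h : ℕ) : Type := (V × Fin j) × ZMod 2 → ZMod h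

/-- The block operator on the model space. -/
def Mt (De : Set (V × ZMod 2)) : Module.End ℂ ((V × ZMod 2) × HE V j h → ℂ) where
  toFun η z := (∑ i, if z.1 ∈ De ∧ ((τ i)⁻¹ z.1.1, z.1.2 + 1) ∈ De then
    (∑ t : ZMod h, η (((τ i)⁻¹ z.1.1, z.1.2 + 1), Pi.single ((z.1.1, i), z.1.2) t + z.2)) / h
    else 0) / j
  map_add' η ζ := by
    funext d
    simp only [Pi.add_apply, ← add_div, ← Finset.sum_add_distrib]
    congr 1
    refine Finset.sum_congr rfl fun i _ => ?_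
    split_ifs
    · rw [Finset.sum_add_distrib, add_div]
    · simp
  map_smul' a η := by
    funext d
    simp only [Pi.smul_apply, smul_eq_mul, RingHom.id_apply, ← mul_div_assoc, Finset.mul_sum]
    congr 1
    refine Finset.sum_congr rfl fun i _ => ?_
    split_ifs
    · rw [← Finset.mul_sum, mul_div_assoc]
    · simp

omit [Fintype V] in
theorem Mt_apply (De : Set (V × ZMod 2)) (η : (V × ZMod 2) × HE V j h → ℂ)
    (z : (V × ZMod 2) × HE V j h) : Mt τ De η z =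
    (∑ i, if z.1 ∈ De ∧ ((τ i)⁻¹ z.1.1, z.1.2 + 1) ∈ De then
    (∑ t : ZMod h, η (((τ i)⁻¹ z.1.1, z.1.2 + 1), Pi.single ((z.1.1, i), z.1.2) t + z.2)) / h
    else 0) / j := rfl

/-- Averaging over the block on the model space. -/
def Et {X A : Type} [Fintype X] [Fintype A] (De : Set X) : Module.End ℂ (X × A → ℂ) :=
  ED {z | z.1 ∈ De}

theorem card_Et {X A : Type} [Fintype X] [Fintype A] (De : Set X) :
    (Finset.univ.filter (· ∈ {z : X × A | z.1 ∈ De})).card =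
      (Finset.univ.filter (· ∈ De)).card * Fintype.card A := by
  rw [← Finset.card_univ, ← Finset.card_product]
  congr 1
  ext z; simp

theorem Et_apply {X A : Type} [Fintype X] [Fintype A] (De : Set X) (η : X × A → ℂ) (d : X)
    (a : A) : Et De η (d, a) = if d ∈ De then (∑ z', if z'.1 ∈ De then η z' else 0) /
      ((Finset.univ.filter (· ∈ De)).card * Fintype.card A : ℕ) else 0 := by
  rw [Et, ED_apply, card_Et]
  rfl

theorem FT_Mt (De : Set (V × ZMod 2)) (u : HE V j h) (η : (V × ZMod 2) × HE V j h → ℂ) :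
    FT u (Mt τ De η) = Mm τ (mU τ De u) (FT u η) := by
  have hh : (h : ℂ) ≠ 0 := by exact_mod_cast NeZero.ne h
  funext d
  simp only [FT_apply, Mt_apply, Mm_apply, ← mul_div_assoc, ← Finset.sum_div, Finset.mul_sum]
  congr 1
  rw [Finset.sum_comm]
  refine Finset.sum_congr rfl fun i _ => ?_
  by_cases h1 : d ∈ De ∧ ((τ i)⁻¹ d.1, d.2 + 1) ∈ De
  · simp only [h1, and_self, if_true, mU, true_and, ← mul_div_assoc, ← Finset.sum_div,
      Finset.mul_sum]
    rw [Finset.sum_comm]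
    have e : ∀ t : ZMod h, ∑ a : HE V j h,
        ch u a * η (((τ i)⁻¹ d.1, d.2 + 1), Pi.single ((d.1, i), d.2) t + a) =
        ch u (-Pi.single ((d.1, i), d.2) t) * ∑ a, ch u a * η (((τ i)⁻¹ d.1, d.2 + 1), a) :=
      fun t => ch_shift u _ fun a => η (((τ i)⁻¹ d.1, d.2 + 1), a)
    simp only [e, ← Finset.sum_mul]
    rw [ch_single u ((d.1, i), d.2)]
    split_ifs
    · field_simp
    · simp
  · have h2 : ¬ mU τ De u d i := fun hm => h1 ⟨hm.1, hm.2.1⟩
    simp only [h1, h2, if_false, mul_zero, Finset.sum_const_zero]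

theorem FT_Et {X E : Type} [Fintype X] [Fintype E] [DecidableEq E] (De : Set X) (u : E → ZMod h)
    (η : X × (E → ZMod h) → ℂ) :
    FT u (Et De η) = (if u = 0 then ED De else 0) (FT u η) := by
  have hc : (Fintype.card (E → ZMod h) : ℂ) ≠ 0 := by exact_mod_cast Fintype.card_ne_zero
  funext d
  simp only [FT_apply, Et_apply, ← Finset.sum_mul, ch_sum]
  by_cases h0 : u = 0
  · simp only [h0, if_true, ED_apply, FT_apply, ch_comm 0, ch_zero, one_mul]
    split_ifs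
    · rw [Fintype.sum_prod_type]
      have e : ∀ d', (∑ a : E → ZMod h, if d' ∈ De then η (d', a) else 0) =
          if d' ∈ De then ∑ a, η (d', a) else 0 := fun d' => by split_ifs <;> simp
      simp only [e]
      push_cast
      rw [mul_comm _ (Fintype.card (E → ZMod h) : ℂ), ← mul_div_assoc, mul_div_mul_left _ _ hc]
    · simp
  · simp [h0]

/-- `K` is a contraction of `ℓ^∞`. -/
def Bi {Z : Type} (K : Module.End ℂ (Z → ℂ)) : Prop :=
  ∀ (ζ : Z → ℂ) (l : ℝ), (∀ w, ‖ζ w‖ ≤ l) → ∀ w, ‖K ζ w‖ ≤ l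

theorem Bi.pow {Z : Type} {K : Module.End ℂ (Z → ℂ)} (hK : Bi K) (n : ℕ) : Bi (K ^ n) := by
  induction n with
  | zero => exact fun ζ l hl => hl
  | succ n ih => rw [pow_succ]; exact fun ζ l hl => ih _ l (hK ζ l hl)

theorem Bi.half_add {Z : Type} {K L : Module.End ℂ (Z → ℂ)} (hK : Bi K) (hL : Bi L) :
    Bi ((1 / 2 : ℂ) • (K + L)) := fun ζ l hl w => by
  have h1 := norm_add_le (K ζ w) (L ζ w)
  simp only [LinearMap.smul_apply, LinearMap.add_apply, Pi.smul_apply, Pi.add_apply, smul_eq_mul,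
    norm_mul, norm_div, norm_one, Complex.norm_ofNat]
  linarith [hK ζ l hl w, hL ζ l hl w]

theorem Bi.half_sub {Z : Type} {K L : Module.End ℂ (Z → ℂ)} (hK : Bi K) (hL : Bi L) :
    Bi ((1 / 2 : ℂ) • (K - L)) := fun ζ l hl w => by
  have h1 := norm_sub_le (K ζ w) (L ζ w)
  simp only [LinearMap.smul_apply, LinearMap.sub_apply, Pi.smul_apply, Pi.sub_apply, smul_eq_mul,
    norm_mul, norm_div, norm_one, Complex.norm_ofNat]
  linarith [hK ζ l hl w, hL ζ l hl w]

theorem norm_avg {ι : Type} (s : Finset ι) (a : ι → ℂ) {l : ℝ} (hl : 0 ≤ l) {n : ℕ}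
    (hn : s.card = n) (ha : ∀ i ∈ s, ‖a i‖ ≤ l) : ‖(∑ i ∈ s, a i) / n‖ ≤ l := by
  rw [norm_div, Complex.norm_natCast]
  refine div_le_of_le_mul₀ (Nat.cast_nonneg _) hl ((norm_sum_le _ _).trans ?_)
  refine (Finset.sum_le_card_nsmul _ _ _ ha).trans (le_of_eq ?_)
  rw [hn, nsmul_eq_mul, mul_comm]

omit [Fintype V] in
theorem Bi_Mt (De : Set (V × ZMod 2)) : Bi (Mt (h := h) τ De) := fun ζ l hl w => by
  have h0 : 0 ≤ l := (norm_nonneg _).trans (hl w)
  refine norm_avg _ _ h0 (by simp) fun i _ => ?_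
  split_ifs
  · exact norm_avg _ _ h0 (by simp) fun t _ => hl _
  · simpa using h0

theorem Bi_ED {X : Type} [Fintype X] (De : Set X) : Bi (ED De) := fun ζ l hl w => by
  have h0 : 0 ≤ l := (norm_nonneg _).trans (hl w)
  rw [ED_apply]
  split_ifs
  · rw [← Finset.sum_filter]
    exact norm_avg _ _ h0 rfl fun t _ => hl _
  · simpa using h0

theorem Mt_lp (hj : 1 ≤ j) (De : Set (V × ZMod 2)) {p : ℝ} (hp : 2 ≤ p)
    (η : (V × ZMod 2) × HE V j h → ℂ) : ∑ z, ‖Mt τ De η z‖ ^ p ≤ ∑ z, ‖η z‖ ^ p := by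
  have h1 := interp (Mt τ De) η (δ := 1 ^ 2) hp (fun g => four_bound _ _ (FT_Mt τ De) _
    fun u => Or.inr (Mm_one τ hj _)) (Bi_Mt τ De)
  simpa using h1

theorem model_lp (hj : 1 ≤ j) {c s : ℝ} (hc : 0 < c) (hc1 : c ≤ 1) (hg : Gap τ c)
    (De : Set (V × ZMod 2)) (hs : 0 ≤ s) (hs1 : s ≤ 1)
    (hD : ((Finset.univ.filter (· ∉ De)).card : ℝ) ≤ s ^ 2 * Fintype.card V) (k : ℕ)
    (W : Submodule (ZMod h) (V × Fin j → ZMod h)) (hW : CodeOK W) {p : ℝ} (hp : 2 ≤ p)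
    (η : (V × ZMod 2) × HE V j h → ℂ)
    (hη : ∀ (w : HE V j h) d a, (∀ x, (fun y => w (y, x)) ∈ W) → η (d, w + a) = η (d, a)) :
    ∑ z, ‖((1 / 2 : ℂ) • (Mt (h := h) τ De ^ (2 * k + 2) +
        Mt (h := h) τ De ^ (2 * k + 2 + 1))) η z -
        Et De η z‖ ^ p ≤
      2 ^ p * ((1 - c / 510) ^ (k + 1) + ((2 * k + 3) * 2 ^ (2 * k + 5) + 3) * s) ^ 2 *
        ∑ z, ‖η z‖ ^ p := by
  obtain ⟨δ, hδ⟩ : ∃ δ : ℝ,
    δ = (1 - c / 510) ^ (k + 1) + ((2 * k + 3) * 2 ^ (2 * k + 5) + 3) * s := ⟨_, rfl⟩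
  rw [← hδ]
  obtain ⟨K, hK⟩ : ∃ K : Module.End ℂ ((V × ZMod 2) × HE V j h → ℂ), K =
    (1 / 2 : ℂ) • (Mt τ De ^ (2 * k + 2) + Mt τ De ^ (2 * k + 2 + 1)) - Et De := ⟨_, rfl⟩
  have hi : Bi ((1 / 2 : ℂ) • K) := by
    rw [hK]
    exact (((Bi_Mt τ De).pow _).half_add ((Bi_Mt τ De).pow _)).half_sub (Bi_ED _)
  have h2 : ∀ g : ℂ → ℂ, ∑ w, ‖((1 / 2 : ℂ) • K) (fun z => g (η z)) w‖ ^ 2 ≤
      δ ^ 2 * ∑ w, ‖g (η w)‖ ^ 2 := by
    intro g
    refine four_bound _ (fun u => (1 / 2 : ℂ) • ((1 / 2 : ℂ) • (Mm τ (mU τ De u) ^ (2 * k + 2) +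
      Mm τ (mU τ De u) ^ (2 * k + 2 + 1)) - if u = 0 then ED De else 0)) (fun u ζ => ?_) _
      fun u => ?_
    · simp only [hK, LinearMap.smul_apply, LinearMap.sub_apply, LinearMap.add_apply, map_smul,
        map_sub, map_add, FT_pow (FT_Mt τ De u), FT_Et]
    · by_cases hu : ∀ x, ∀ w ∈ W, (fun y => u (y, x)) ⬝ᵥ w = 0
      · have h3 := sector_bound τ hj hc hc1 hg De hs hs1 hD k W hW u hu
        rw [← hδ] at h3
        refine Or.inr ((h3.smul _).mono ?_)
        simp only [norm_div, norm_one, Complex.norm_ofNat]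
        linarith [h3.1]
      · push Not at hu
        obtain ⟨x, w, hw, hne⟩ := hu
        refine Or.inl (funext fun d => ?_)
        refine ch_vanish u (fun e => if e.2 = x then w e.1 else 0) (fun a => g (η (d, a)))
          (fun a => congrArg g (hη _ d a fun x' => ?_)) ?_
        · by_cases hx : x' = x
          · simpa [hx] using hw
          · simp only [hx, if_false]; exact W.zero_mem
        · refine fun h0 => hne ?_
          rw [← h0]
          simp [dotProduct, Fintype.sum_prod_type]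
  have h4 := interp _ η hp h2 hi
  have e : ∀ z, ‖((1 / 2 : ℂ) • (Mt (h := h) τ De ^ (2 * k + 2) +
        Mt (h := h) τ De ^ (2 * k + 2 + 1))) η z -
      Et De η z‖ ^ p = 2 ^ p * ‖((1 / 2 : ℂ) • K) η z‖ ^ p := fun z => by
    rw [← Real.mul_rpow (by norm_num) (norm_nonneg _), LinearMap.smul_apply _ K, Pi.smul_apply,
      norm_smul, ← mul_assoc, hK]
    norm_num
  simp only [e, ← Finset.mul_sum, mul_assoc]
  exact mul_le_mul_of_nonneg_left h4 (by positivity)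

end Pool.Agent.P.MP_9167e9_an.Spec
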