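import Pool.Agent.P.MP_9167e9_an.Spec.StB
import Pool.Agent.P.MP_9167e9_an.Spec.BLift

/-!
The block part of SPEC: transfer from the model space to `Γ × N`.
-/

noncomputable section
open scoped Classical

namespace Pool.Agent.P.MP_9167e9_an.Spec

section

variable {j h : ℕ} {S Γ N : Type} [Group N] {slot : S → Fin j} {mv : S → Equiv.Perm Γ}
  {lamp : Γ → S → Multiplicative (ZMod h) →* N} {c : ℝ} {B : ℕ}

instance (β : Blk slot mv lamp c B) : Fintype β.V := β.fin

/-- The parametrisation of a block by the model space. -/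
def Φ (β : Blk slot mv lamp c B) (n : N) (z : (β.V × ZMod 2) × HE β.V j h) : Γ × N :=
  (β.pos z.1, β.ψ (Multiplicative.ofAdd z.2) * n)

/-- The pull-back of a function to the model space. -/
def lift {M : Type} [Zero M] (β : Blk slot mv lamp c B) (n : N) (ξ : Γ × N → M)
    (z : (β.V × ZMod 2) × HE β.V j h) : M :=
  if z.1 ∈ β.De then ξ (Φ β n z) else 0

variable [NeZero h]

/-- A block as a finite set. -/
def Bk (β : Blk slot mv lamp c B) (n : N) : Finset (Γ × N) :=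
  (Finset.univ.filter fun z : (β.V × ZMod 2) × HE β.V j h => z.1 ∈ β.De).image (Φ β n)

/-- The size of the kernel of the lamp map. -/
def kap (β : Blk slot mv lamp c B) : ℕ :=
  (Finset.univ.filter fun a : HE β.V j h => β.ψ (Multiplicative.ofAdd a) = 1).card

theorem kap_pos (β : Blk slot mv lamp c B) : 0 < kap β :=
  Finset.card_pos.2 ⟨0, by simp⟩

theorem mem_Bk (β : Blk slot mv lamp c B) (n : N) (w : Γ × N) :
    w ∈ Bk β n ↔ ∃ z, z.1 ∈ β.De ∧ Φ β n z = w := by simp only [Bk, Finset.mem_image,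
      Finset.mem_filter, Finset.mem_univ, true_and]

theorem sum_lift {M : Type} [AddCommMonoid M] (β : Blk slot mv lamp c B) (n : N)
    (F : Γ × N → M) : ∑ z, lift β n F z = kap β • ∑ w ∈ Bk β n, F w := by
  simp only [lift]
  rw [← Finset.sum_filter, Finset.sum_comp F (Φ β n), Finset.smul_sum]
  refine Finset.sum_congr rfl fun w hw => ?_
  obtain ⟨⟨d, a⟩, hd, rfl⟩ := (mem_Bk β n w).1 hw
  congr 1
  refine Finset.card_nbij' (fun z => z.2 - a) (fun a' => (d, a' + a)) ?_ ?_ ?_ ?_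
  · intro z hz
    simp only [Finset.coe_filter, Finset.mem_filter, Finset.mem_univ, true_and,
      Set.mem_ofPred_eq, Φ, Prod.mk.injEq, mul_left_inj] at hz ⊢
    rw [ofAdd_sub, map_div, hz.2.2, div_self']
  · intro a' ha
    simp only [Finset.coe_filter, Finset.mem_filter, Finset.mem_univ, true_and,
      Set.mem_ofPred_eq, Φ, Prod.mk.injEq, mul_left_inj] at ha ⊢
    exact ⟨hd, by rw [ofAdd_add, map_mul, ha, one_mul]⟩
  · intro z hz
    simp only [Finset.coe_filter, Finset.mem_filter, Finset.mem_univ, true_and,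
      Set.mem_ofPred_eq, Φ, Prod.mk.injEq, mul_left_inj] at hz
    exact Prod.ext (β.pos_inj hz.2.1).symm (sub_add_cancel _ _)
  · intro a' _; simp

variable {I : Type} (b : I → Blk slot mv lamp c B) (blk : Γ × N → Finset (Γ × N))
  (hd : ∀ β β' d d', d ∈ (b β).De → d' ∈ (b β').De → (b β).pos d = (b β').pos d' → β = β')
  (hb : ∀ z z', z' ∈ blk z ↔ ∃ β, ∃ d ∈ (b β).De, ∃ d' ∈ (b β).De, z.1 = (b β).pos d ∧
    z'.1 = (b β).pos d' ∧ ∃ a, z'.2 = (b β).ψ a * z.2)

include hd hb in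
theorem blk_Φ (β : I) (n : N) (z : ((b β).V × ZMod 2) × HE (b β).V j h) (hz : z.1 ∈ (b β).De) :
    blk (Φ (b β) n z) = Bk (b β) n := by
  ext w
  rw [hb, mem_Bk]
  constructor
  · rintro ⟨β', d, h1, d', h2, h3, h4, a, h5⟩
    obtain rfl := hd β β' _ _ hz h1 h3
    refine ⟨(d', a.toAdd + z.2), h2, Prod.ext h4.symm ?_⟩
    rw [h5]; simp [Φ, mul_assoc]
  · rintro ⟨z', h1, rfl⟩
    refine ⟨β, z.1, hz, z'.1, h1, rfl, rfl, Multiplicative.ofAdd (z'.2 - z.2), ?_⟩
    simp [Φ, div_eq_mul_inv, mul_assoc]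

include hd hb in
theorem transfer {p Λ : ℝ} (hp : 2 ≤ p) (K : (Γ × N → ℂ) → Γ × N → ℂ)
    (out : ∀ ξ z, (¬ ∃ β, ∃ d ∈ (b β).De, z.1 = (b β).pos d) → K ξ z = 0)
    (inn : ∀ β n ξ, ∑ z, ‖lift (b β) n (K ξ) z‖ ^ p ≤ Λ ^ p * ∑ z, ‖lift (b β) n ξ z‖ ^ p) :
    PB p K Λ := by
  have hp0 : p ≠ 0 := by linarith
  have e1 : ∀ β d (n : N), ((b β).pos d, n) = Φ (b β) n (d, 0) := fun β d n => by simp [Φ]
  have e2 : ∀ β n (ξ : Γ × N → ℂ), ∑ z, ‖lift (b β) n ξ z‖ ^ p =
      kap (b β) * ∑ w ∈ Bk (b β) n, ‖ξ w‖ ^ p := by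
    intro β n ξ
    rw [← nsmul_eq_mul, ← sum_lift]
    refine Finset.sum_congr rfl fun z _ => ?_
    unfold lift
    split_ifs
    · rfl
    · simp [hp0]
  intro ξ F
  have key := glue blk (fun z => Λ ^ p * ‖ξ z‖ ^ p) (fun z => ‖K ξ z‖ ^ p)
    (fun z => by positivity) ?_ ?_ ?_ F
  · simpa only [Finset.mul_sum] using key
  · rintro ⟨γ, n⟩ z' hz
    obtain ⟨β, d, h1, -, -, h3, -⟩ := (hb _ _).1 hz
    obtain rfl : γ = (b β).pos d := h3
    rw [e1, blk_Φ b blk hd hb β n _ h1] at hz ⊢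
    obtain ⟨z, h4, rfl⟩ := (mem_Bk _ _ _).1 hz
    exact blk_Φ b blk hd hb β n z h4
  · intro z hz
    by_contra h0
    have h3 := out ξ z fun ⟨β, d, h1, h2⟩ =>
      h0 ((hb _ _).2 ⟨β, d, h1, d, h1, h2, h2, 1, by simp⟩)
    exact hz (by rw [h3, norm_zero, Real.zero_rpow hp0])
  · rintro ⟨γ, n⟩
    rcases (blk (γ, n)).eq_empty_or_nonempty with h0 | ⟨z', hz⟩
    · simp [h0]
    obtain ⟨β, d, h1, -, -, h3, -⟩ := (hb _ _).1 hz
    obtain rfl : γ = (b β).pos d := h3
    rw [e1, blk_Φ b blk hd hb β n _ h1, ← Finset.mul_sum]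
    have h4 := inn β n ξ
    rw [e2, e2, mul_left_comm] at h4
    exact le_of_mul_le_mul_left h4 (by exact_mod_cast kap_pos (b β))

include hd hb in
theorem lift_E (β : I) (n : N) (ξ : Γ × N → ℂ) :
    lift (b β) n (fun z => (∑ z' ∈ blk z, ξ z') / (blk z).card) = Et (b β).De (lift (b β) n ξ) := by
  funext ⟨d, a⟩
  rw [Et_apply]
  unfold lift
  split_ifs with h1
  · have h2 := sum_lift (b β) n ξ
    have h3 := sum_lift (b β) n fun _ => (1 : ℕ)
    have hk : (kap (b β) : ℂ) ≠ 0 := by exact_mod_cast (kap_pos (b β)).ne'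
    simp only [lift] at h2 h3
    rw [← Finset.card_filter, Finset.sum_const, smul_eq_mul, smul_eq_mul, mul_one] at h3
    beta_reduce
    rw [blk_Φ b blk hd hb β n _ h1, ← card_Et, h2, nsmul_eq_mul]
    have h5 : (Finset.univ.filter (· ∈ {z : ((b β).V × ZMod 2) × HE (b β).V j h |
        z.1 ∈ (b β).De})).card = kap (b β) * (Bk (b β) n).card := by
      convert h3; rfl
    rw [h5]
    push_cast
    rw [mul_div_mul_left _ _ hk]
  · rfl

variable [Fintype S]

include hd in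
theorem lift_M (β : I) (n : N) (ξ : Γ × N → ℂ) :
    lift (b β) n (((1 / j : ℂ) • aP mv lamp (IsB b)) ξ) =
      Mt (b β).τ (b β).De (lift (b β) n ξ) := by
  funext ⟨⟨v, x⟩, a⟩
  rw [Mt_apply]
  by_cases h1 : (v, x) ∈ (b β).De
  · simp only [lift, h1, if_true, true_and, LinearMap.smul_apply, Pi.smul_apply, smul_eq_mul]
    rw [one_div, mul_comm, ← div_eq_mul_inv]
    congr 1
    have hinj : Function.Injective ((b β).lab v) := fun i i' hi => by
      rw [← (b β).lab_slot v i, hi, (b β).lab_slot]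
    have hB : ∀ s, IsB b ((b β).pos (v, x)) s ↔
        ∃ i, (((b β).τ i)⁻¹ v, x + 1) ∈ (b β).De ∧ s = (b β).lab v i := by
      intro s
      constructor
      · rintro ⟨β', v', i, x', h2, h3, h4, h5⟩
        obtain rfl := hd β β' _ _ h1 h2 h4
        obtain ⟨rfl, rfl⟩ := Prod.mk.inj ((b β).pos_inj h4)
        exact ⟨i, h3, h5⟩
      · rintro ⟨i, h2, h3⟩
        exact ⟨β, v, i, x, h1, h2, rfl, h3⟩
    refine (Fintype.sum_of_injective _ hinj _ _ (fun s hs => if_neg ?_) fun i => ?_).symm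
    · intro h2
      obtain ⟨i, -, h3⟩ := (hB s).1 h2
      exact hs ⟨i, h3.symm⟩
    · by_cases h2 : (((b β).τ i)⁻¹ v, x + 1) ∈ (b β).De
      · rw [if_pos h2]
        refine Eq.trans ?_ (if_pos ((hB _).2 ⟨i, h2, rfl⟩)).symm
        congr 1
        refine Finset.sum_congr rfl fun t _ => ?_
        rw [if_pos h2]
        congr 1
        refine Prod.ext ?_ ?_
        · exact (Equiv.Perm.eq_inv_iff_eq.2 ((b β).pos_mv v i x))
        · simp only [Φ, ofAdd_add, map_mul, mul_assoc]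
          rw [← (b β).ψ_single v i x t]
      · rw [if_neg h2, if_neg]
        intro h3
        obtain ⟨i', h4, h5⟩ := (hB _).1 h3
        exact h2 (hinj h5 ▸ h4)
  · simp [lift, h1]

include hd in
theorem lift_pow (β : I) (n : N) (k : ℕ) (ξ : Γ × N → ℂ) :
    lift (b β) n ((((1 / j : ℂ) • aP mv lamp (IsB b)) ^ k) ξ) =
      (Mt (b β).τ (b β).De ^ k) (lift (b β) n ξ) := by
  induction k with
  | zero => rfl
  | succ k ih =>
    rw [pow_succ', pow_succ', Module.End.mul_apply, Module.End.mul_apply, lift_M b hd, ih]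

theorem M_out (ξ : Γ × N → ℂ) (z : Γ × N) (hz : ¬ ∃ β, ∃ d ∈ (b β).De, z.1 = (b β).pos d) :
    ((1 / j : ℂ) • aP mv lamp (IsB b)) ξ z = 0 := by
  have h0 : aP mv lamp (IsB b) ξ z = 0 :=
    Finset.sum_eq_zero fun s _ => if_neg fun ⟨β, v, i, x, h1, _, h2, _⟩ => hz ⟨β, _, h1, h2⟩
  simp [h0]

end

theorem pBlk : StBlk := by
  intro p c ε hp hc hc1 hε
  obtain ⟨δ, hδ⟩ : ∃ δ : ℝ, δ = √(ε ^ p / 2 ^ p) := ⟨_, rfl⟩
  have hδ0 : 0 < δ := by rw [hδ]; positivity
  obtain ⟨k, hk⟩ := exists_pow_lt_of_lt_one (half_pos hδ0) (show 1 - c / 510 < 1 by linarith)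
  obtain ⟨C, hC⟩ : ∃ C : ℝ, C = (2 * k + 3) * 2 ^ (2 * k + 5) + 3 := ⟨_, rfl⟩
  have hC0 : 0 < C := by rw [hC]; positivity
  obtain ⟨s, hs⟩ : ∃ s : ℝ, s = min 1 (δ / 2 / C) := ⟨_, rfl⟩
  have hs0 : 0 < s := by rw [hs]; positivity
  have hs1 : s ≤ 1 := hs ▸ min_le_left _ _
  have hs2 : C * s ≤ δ / 2 := by
    rw [mul_comm, ← le_div_iff₀ hC0, hs]; exact min_le_right _ _
  obtain ⟨B, hB⟩ := exists_nat_ge (1 / s ^ 2)
  rw [div_le_iff₀ (by positivity)] at hB
  refine ⟨2 * k + 2, B, fun j h _ S Γ N _ _ slot mv lamp I b blk hj hd hb => ⟨?_, ?_⟩⟩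
  · refine transfer b blk hd hb hp _ (fun ξ z hz => M_out b ξ z hz) fun β n ξ => ?_
    rw [Real.one_rpow, one_mul, lift_M b hd]
    exact Mt_lp _ hj _ hp _
  · refine transfer b blk hd hb hp _ (fun ξ z hz => ?_) fun β n ξ => ?_
    · have h0 : blk z = ∅ := Finset.eq_empty_of_forall_notMem fun z' hz' => by
        obtain ⟨β, d, h1, -, -, h3, -⟩ := (hb _ _).1 hz'
        exact hz ⟨β, d, h1, h3⟩
      rw [h0, pow_succ' _ (2 * k + 2), pow_succ' _ (2 * k + 1), LinearMap.smul_apply,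
        LinearMap.add_apply, Pi.smul_apply, Pi.add_apply, Module.End.mul_apply,
        Module.End.mul_apply, M_out b _ z hz, M_out b _ z hz]
      simp
    · have hD : ((Finset.univ.filter (· ∉ (b β).De)).card : ℝ) ≤
          s ^ 2 * Fintype.card (b β).V := by
        have h1 := (b β).De_big
        rw [Nat.card_eq_fintype_card, Nat.card_eq_fintype_card, Fintype.card_subtype] at h1
        have h2 : (B : ℝ) * (Finset.univ.filter (· ∉ (b β).De)).card ≤ Fintype.card (b β).V := by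
          exact_mod_cast h1
        have h3 : (0 : ℝ) ≤ (Finset.univ.filter (· ∉ (b β).De)).card := Nat.cast_nonneg _
        nlinarith [sq_nonneg s]
      have h1 := model_lp (b β).τ hj hc hc1 (b β).gap (b β).De hs0.le hs1 hD k (b β).W
        (b β).code hp (lift (b β) n ξ) fun w d a hw => by
          simp only [lift, Φ, ofAdd_add, map_mul, ((b β).ψ_ker w).2 hw, one_mul]
      refine le_trans (le_of_eq (Finset.sum_congr rfl fun z _ => ?_)) (h1.trans ?_)
      · rw [← lift_E b blk hd hb, LinearMap.smul_apply _ (Mt _ _ ^ _ + _), LinearMap.add_apply,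
          ← lift_pow b hd, ← lift_pow b hd]
        simp only [lift, LinearMap.smul_apply, LinearMap.add_apply, Pi.smul_apply, Pi.add_apply]
        split_ifs <;> simp
      · refine mul_le_mul_of_nonneg_right ?_ (Finset.sum_nonneg fun z _ => by positivity)
        have q0 : 0 ≤ 1 - c / 510 := by linarith
        have h2 : (1 - c / 510) ^ (k + 1) ≤ (1 - c / 510) ^ k :=
          pow_le_pow_of_le_one q0 (by linarith) (by omega)
        have h3 : ((1 - c / 510) ^ (k + 1) + C * s) ^ 2 ≤ δ ^ 2 :=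
          pow_le_pow_left₀ (by positivity) (by linarith) 2
        rw [hδ, Real.sq_sqrt (by positivity), le_div_iff₀ (by positivity)] at h3
        rw [← hC, mul_comm]
        exact h3

end Pool.Agent.P.MP_9167e9_an.Spec
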