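import Mathlib

/-!
Operator bounds on `ℓ²` of a finite set and the abstract perturbation lemma for the trivial
character.
-/

noncomputable section
open scoped Classical

namespace Pool.Agent.P.MP_9167e9_an.Spec

theorem ring_id1 {R : Type} [Ring R] (a b K L : R) :
    a * K - b * L = a * (K - L) + (a - b) * L := by noncomm_ring

theorem ring_id2 {R : Type} [Ring R] (D N M0 P : R) :
    D * (N + M0) * D - (N + (1 - P) * D * M0 * D * (1 - P)) =
      -((1 - D) * N * D) - N * (1 - D) - P * (1 - D) * M0 * D -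
        (1 - P) * D * M0 * ((1 - D) * P) + P * M0 * D + (1 - P) * D * (M0 * P) := by
  noncomm_ring

variable {X : Type} [Fintype X]

/-- The Euclidean norm of a function. -/
def nm (η : X → ℂ) : ℝ := ‖(WithLp.toLp 2 η : EuclideanSpace ℂ X)‖

theorem nm_nonneg (η : X → ℂ) : 0 ≤ nm η := norm_nonneg _

theorem nm_sq (η : X → ℂ) : nm η ^ 2 = ∑ d, ‖η d‖ ^ 2 := by
  rw [nm, EuclideanSpace.norm_sq_eq]

theorem nm_add (η ζ : X → ℂ) : nm (η + ζ) ≤ nm η + nm ζ := by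
  unfold nm; rw [WithLp.toLp_add]; exact norm_add_le _ _

theorem nm_smul (a : ℂ) (η : X → ℂ) : nm (a • η) = ‖a‖ * nm η := by
  unfold nm; rw [WithLp.toLp_smul, norm_smul]

/-- `K` has norm at most `δ` on `ℓ²`. -/
def B2 (K : Module.End ℂ (X → ℂ)) (δ : ℝ) : Prop := 0 ≤ δ ∧ ∀ η, nm (K η) ≤ δ * nm η

namespace B2

variable {K L : Module.End ℂ (X → ℂ)} {a b : ℝ}

theorem of_sq (ha : 0 ≤ a) (h : ∀ η, ∑ d, ‖K η d‖ ^ 2 ≤ a ^ 2 * ∑ d, ‖η d‖ ^ 2) : B2 K a := by
  refine ⟨ha, fun η => ?_⟩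
  refine (pow_le_pow_iff_left₀ (nm_nonneg _) (mul_nonneg ha (nm_nonneg _)) two_ne_zero).1 ?_
  rw [mul_pow, nm_sq, nm_sq]; exact h η

theorem sq (h : B2 K a) (η : X → ℂ) : ∑ d, ‖K η d‖ ^ 2 ≤ a ^ 2 * ∑ d, ‖η d‖ ^ 2 := by
  rw [← nm_sq, ← nm_sq, ← mul_pow]
  exact pow_le_pow_left₀ (nm_nonneg _) (h.2 η) 2

theorem mono (h : B2 K a) (hab : a ≤ b) : B2 K b :=
  ⟨h.1.trans hab, fun η => (h.2 η).trans (mul_le_mul_of_nonneg_right hab (nm_nonneg _))⟩

theorem add (h : B2 K a) (h' : B2 L b) : B2 (K + L) (a + b) :=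
  ⟨add_nonneg h.1 h'.1, fun η => by
    rw [LinearMap.add_apply, add_mul]
    exact (nm_add _ _).trans (add_le_add (h.2 η) (h'.2 η))⟩

theorem mul (h : B2 K a) (h' : B2 L b) : B2 (K * L) (a * b) :=
  ⟨mul_nonneg h.1 h'.1, fun η => by
    rw [Module.End.mul_apply, mul_assoc]
    exact (h.2 _).trans (mul_le_mul_of_nonneg_left (h'.2 η) h.1)⟩

theorem smul (z : ℂ) (h : B2 K a) : B2 (z • K) (‖z‖ * a) :=
  ⟨mul_nonneg (norm_nonneg _) h.1, fun η => by
    rw [LinearMap.smul_apply, nm_smul, mul_assoc]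
    exact mul_le_mul_of_nonneg_left (h.2 η) (norm_nonneg _)⟩

theorem neg (h : B2 K a) : B2 (-K) a :=
  ⟨h.1, fun η => by
    have e : (-K) η = (-1 : ℂ) • K η := by simp
    rw [e, nm_smul]; simpa using h.2 η⟩

theorem sub (h : B2 K a) (h' : B2 L b) : B2 (K - L) (a + b) := by
  rw [sub_eq_add_neg]; exact h.add h'.neg

theorem one : B2 (1 : Module.End ℂ (X → ℂ)) 1 := ⟨zero_le_one, fun η => by simp⟩

theorem pow (h : B2 K a) (n : ℕ) : B2 (K ^ n) (a ^ n) := by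
  induction n with
  | zero => simpa using one
  | succ n ih => rw [pow_succ, pow_succ]; exact ih.mul h

theorem pow_sub (h : B2 K 2) (h' : B2 L 2) (he : B2 (K - L) a) (n : ℕ) :
    B2 (K ^ n - L ^ n) (n * 2 ^ n * a) := by
  induction n with
  | zero => exact ⟨by simp, fun η => by simp [nm]⟩
  | succ n ih =>
    have e : K ^ (n + 1) - L ^ (n + 1) = K ^ n * (K - L) + (K ^ n - L ^ n) * L := by
      rw [pow_succ, pow_succ]; exact ring_id1 _ _ _ _
    rw [e]
    refine (((h.pow n).mul he).add (ih.mul h')).mono ?_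
    have : 0 ≤ 2 ^ n * a := mul_nonneg (by positivity) he.1
    push_cast
    rw [pow_succ]
    nlinarith

end B2

theorem pow_add_orth {R : Type} [Ring R] {N Q : R} (h1 : N * Q = 0) (h2 : Q * N = 0) (n : ℕ) :
    (N + Q) ^ (n + 1) = N ^ (n + 1) + Q ^ (n + 1) := by
  induction n with
  | zero => simp
  | succ n ih =>
    rw [pow_succ, ih, add_mul, mul_add, mul_add, pow_succ N n, pow_succ Q n, mul_assoc _ N Q,
      mul_assoc _ Q N, h1, h2, pow_succ N, pow_succ Q, pow_succ N, pow_succ Q]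
    simp

theorem pow_add_pow {R : Type} [Ring R] {N P : R} (h1 : N * N = P) (h2 : P * N = N) (n : ℕ) :
    N ^ (n + 1) + N ^ (n + 2) = P + N := by
  induction n with
  | zero => simp [pow_succ, h1, add_comm]
  | succ n ih =>
    rw [pow_succ N (n + 1), pow_succ N (n + 1 + 1), ← add_mul, ih, add_mul, h1, h2, add_comm]

/-- The compression `Δ M Δ` of an operator with peripheral part `M P` and a gap. -/
theorem triv_abs {M D P : Module.End ℂ (X → ℂ)} {q s : ℝ} (hP : P * P = P) (hc : M * P = P * M)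
    (hN : M * M * P = P) (bM : B2 M 1) (bD : B2 D 1) (bP : B2 P 1) (bP' : B2 (1 - P) 1)
    (b0 : B2 (M * (1 - P)) q) (hq : q ≤ 1) (bl : B2 ((1 - D) * P) s) (br : B2 (P * (1 - D)) s)
    (n : ℕ) :
    B2 ((D * M * D) ^ (n + 1) + (D * M * D) ^ (n + 2) - (P + M * P))
      (2 * q ^ (n + 1) + (n + 2) * 2 ^ (n + 5) * s) := by
  obtain ⟨N, hNd⟩ : ∃ N, N = M * P := ⟨_, rfl⟩
  obtain ⟨M0, hM0⟩ : ∃ M0, M0 = M * (1 - P) := ⟨_, rfl⟩
  have hM : M = N + M0 := by rw [hNd, hM0, ← mul_add]; simp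
  have r1 : N * P = N := by rw [hNd, mul_assoc, hP]
  have r2 : P * N = N := by rw [hNd, ← mul_assoc, ← hc, mul_assoc, hP]
  have r3 : M0 * P = 0 := by rw [hM0, mul_assoc, sub_mul, hP]; simp
  have r4 : P * M0 = 0 := by
    rw [hM0, ← mul_assoc, ← hc, mul_assoc, mul_sub, hP]; simp
  have r5 : N * N = P := by
    rw [hNd, ← mul_assoc, mul_assoc M P M, ← hc, ← mul_assoc, hN, hP]
  have bN : B2 N 1 := by simpa [hNd] using bM.mul bP
  rw [← hM0] at b0
  rw [← hNd]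
  obtain ⟨Q, hQ⟩ : ∃ Q, Q = (1 - P) * D * M0 * D * (1 - P) := ⟨_, rfl⟩
  have bQ : B2 Q q := by simpa [hQ] using (((bP'.mul bD).mul b0).mul bD).mul bP'
  have r6 : N * Q = 0 := by
    have : N * (1 - P) = 0 := by rw [mul_sub, r1]; simp
    rw [hQ]; simp only [← mul_assoc, this, zero_mul]
  have r7 : Q * N = 0 := by
    have : (1 - P) * N = 0 := by rw [sub_mul, r2]; simp
    rw [hQ, mul_assoc _ (1 - P) N, this, mul_zero]
  have e : D * M * D - (N + Q) = -((1 - D) * P * N * D) - N * (P * (1 - D)) -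
      P * (1 - D) * M0 * D - (1 - P) * D * M0 * ((1 - D) * P) := by
    have e1 := ring_id2 D N M0 P
    rw [mul_assoc (1 - D) P N, r2, ← mul_assoc N P, r1, hQ]
    rw [r3, r4, zero_mul, mul_zero, add_zero, add_zero, ← hM] at e1
    exact e1
  have b0' := b0.mono hq
  have be : B2 (D * M * D - (N + Q)) (4 * s) := by
    rw [e]
    refine ((((((bl.mul bN).mul bD).neg).sub (bN.mul br)).sub ((br.mul b0').mul bD)).sub
      (((bP'.mul bD).mul b0').mul bl)).mono (le_of_eq (by ring))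
  have b1 : B2 (D * M * D) 2 := ((bD.mul bM).mul bD).mono (by norm_num)
  have b2 : B2 (N + Q) 2 := (bN.add (bQ.mono hq)).mono (by norm_num)
  have e2 : (D * M * D) ^ (n + 1) + (D * M * D) ^ (n + 2) - (P + N) =
      ((D * M * D) ^ (n + 1) - (N + Q) ^ (n + 1)) + ((D * M * D) ^ (n + 2) - (N + Q) ^ (n + 2)) +
        Q ^ (n + 1) + Q ^ (n + 1) * Q := by
    rw [pow_add_orth r6 r7, pow_add_orth r6 r7 (n + 1), ← pow_add_pow r5 r2 n, ← pow_succ Q]
    abel
  rw [e2]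
  refine ((((b1.pow_sub b2 be _).add (b1.pow_sub b2 be _)).add (bQ.pow _)).add
    ((bQ.pow _).mul (bQ.mono hq))).mono ?_
  have h3 : 0 ≤ 2 ^ n * s := mul_nonneg (by positivity) bl.1
  have h4 : (0 : ℝ) ≤ n * (2 ^ n * s) := mul_nonneg (Nat.cast_nonneg _) h3
  push_cast
  simp only [pow_add]
  nlinarith

end Pool.Agent.P.MP_9167e9_an.Spec
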