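import Pool.Agent.P.MP_9167e9_an.Spec.BGap
import Pool.Agent.P.MP_9167e9_an.Spec.BL2

/-!
The averaging operators of the parity double cover: bounds for the trivial and for the
non-trivial characters.
-/

noncomputable section
open scoped Classical

namespace Pool.Agent.P.MP_9167e9_an.Spec

variable {j : ℕ} {V : Type} [Fintype V] (τ : Fin j → Equiv.Perm V)

/-- Averaging on the double cover along the edges with `m d i`. -/
def Mm (m : V × ZMod 2 → Fin j → Prop) : Module.End ℂ (V × ZMod 2 → ℂ) where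
  toFun η d := (∑ i, if m d i then η ((τ i)⁻¹ d.1, d.2 + 1) else 0) / j
  map_add' η ζ := by
    funext d
    simp only [Pi.add_apply, ← add_div, ← Finset.sum_add_distrib]
    congr 1
    refine Finset.sum_congr rfl fun i _ => ?_
    split_ifs <;> simp
  map_smul' a η := by
    funext d
    simp only [Pi.smul_apply, smul_eq_mul, RingHom.id_apply, ← mul_div_assoc, Finset.mul_sum]
    congr 1
    refine Finset.sum_congr rfl fun i _ => ?_
    split_ifs <;> simp

omit [Fintype V] in
theorem Mm_apply (m : V × ZMod 2 → Fin j → Prop) (η : V × ZMod 2 → ℂ) (d : V × ZMod 2) :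
    Mm τ m η d = (∑ i, if m d i then η ((τ i)⁻¹ d.1, d.2 + 1) else 0) / j := rfl

omit [Fintype V] in
theorem Mm_hf (m : V × ZMod 2 → Fin j → Prop) (η : V × ZMod 2 → ℂ) (v : V) (x : ZMod 2) :
    Mm τ m η (v, x) = hf τ (fun v i => m (v, x) i) (fun v => η (v, x + 1)) v := rfl

theorem sum_flip {M : Type} [AddCommMonoid M] (G : ZMod 2 → M) : ∑ x, G (x + 1) = ∑ x, G x :=
  Equiv.sum_comp (Equiv.addRight (1 : ZMod 2)) G

theorem two_cases (x y : ZMod 2) : x = y ∨ x + 1 = y := by revert x y; decide

theorem add_one_one (x : ZMod 2) : x + 1 + 1 = x := by revert x; decide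

theorem sum_two {M : Type} [AddCommMonoid M] (G : ZMod 2 → M) (x : ZMod 2) :
    ∑ y, G y = G x + G (x + 1) := by
  have h : (Finset.univ : Finset (ZMod 2)) = {x, x + 1} := by revert x; decide
  rw [h, Finset.sum_pair (by revert x; decide)]

theorem Mm_one (hj : 1 ≤ j) (m : V × ZMod 2 → Fin j → Prop) : B2 (Mm τ m) 1 := by
  refine B2.of_sq zero_le_one fun η => ?_
  rw [one_pow, one_mul, Fintype.sum_prod_type_right, Fintype.sum_prod_type_right,
    ← sum_flip fun x => ∑ v, ‖η (v, x)‖ ^ 2]
  refine Finset.sum_le_sum fun x _ => ?_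
  simpa only [Mm_hf] using hf_one τ hj (fun v i => m (v, x) i) fun v => η (v, x + 1)

theorem Mm_miss (hj : 1 ≤ j) {c : ℝ} (hc : 0 < c) (hc1 : c ≤ 1) (hg : Gap τ c)
    (m : V × ZMod 2 → Fin j → Prop) (x0 : ZMod 2)
    (hm : Fintype.card (V × Fin j) ≤
      8 * (Finset.univ.filter fun y : V × Fin j => ¬ m (y.1, x0) y.2).card) :
    B2 (Mm τ m * Mm τ m) (1 - c / 510) := by
  refine B2.of_sq (by linarith) fun η => ?_
  rw [Fintype.sum_prod_type_right, Fintype.sum_prod_type_right, Finset.mul_sum]
  refine Finset.sum_le_sum fun x _ => ?_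
  have h0 : 0 ≤ 1 - c / 255 := by linarith
  have key : ∑ v, ‖(Mm τ m * Mm τ m) η (v, x)‖ ^ 2 ≤ (1 - c / 255) * ∑ v, ‖η (v, x)‖ ^ 2 := by
    simp only [Module.End.mul_apply]
    rcases two_cases x x0 with rfl | rfl
    · have h := hf_one τ hj (fun v i => m (v, x + 1) i) fun v => η (v, x + 1 + 1)
      have h' := hf_miss τ hj hc hc1 hg (fun v i => m (v, x) i) hm fun v => Mm τ m η (v, x + 1)
      simp only [← Mm_hf] at h h'
      rw [add_one_one] at h
      exact h'.trans (mul_le_mul_of_nonneg_left h h0)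
    · have h := hf_miss τ hj hc hc1 hg (fun v i => m (v, x + 1) i) hm fun v => η (v, x + 1 + 1)
      have h' := hf_one τ hj (fun v i => m (v, x) i) fun v => Mm τ m η (v, x + 1)
      simp only [← Mm_hf] at h h'
      rw [add_one_one] at h
      exact h'.trans h
  refine key.trans (mul_le_mul_of_nonneg_right (by nlinarith) ?_)
  exact Finset.sum_nonneg fun v _ => sq_nonneg _

/-- Averaging over each parity class. -/
def PP (V : Type) [Fintype V] : Module.End ℂ (V × ZMod 2 → ℂ) where
  toFun η d := (∑ v, η (v, d.2)) / Fintype.card V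
  map_add' η ζ := by funext d; simp [Finset.sum_add_distrib, add_div]
  map_smul' a η := by funext d; simp [← Finset.mul_sum, mul_div_assoc]

theorem PP_apply (η : V × ZMod 2 → ℂ) (d : V × ZMod 2) :
    PP V η d = (∑ v, η (v, d.2)) / Fintype.card V := rfl

/-- Restriction to a set. -/
def DD {X : Type} (De : Set X) : Module.End ℂ (X → ℂ) where
  toFun η d := if d ∈ De then η d else 0
  map_add' η ζ := by funext d; by_cases h : d ∈ De <;> simp [h]
  map_smul' a η := by funext d; by_cases h : d ∈ De <;> simp [h]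

theorem DD_apply {X : Type} (De : Set X) (η : X → ℂ) (d : X) :
    DD De η d = if d ∈ De then η d else 0 := rfl

/-- Averaging over a set. -/
def ED {X : Type} [Fintype X] (De : Set X) : Module.End ℂ (X → ℂ) where
  toFun η d := if d ∈ De then
    (∑ d', if d' ∈ De then η d' else 0) / (Finset.univ.filter (· ∈ De)).card else 0
  map_add' η ζ := by
    funext d
    by_cases h : d ∈ De
    · simp only [h, if_true, Pi.add_apply, ← add_div, ← Finset.sum_add_distrib]
      congr 1
      refine Finset.sum_congr rfl fun i _ => ?_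
      split_ifs <;> simp
    · simp [h]
  map_smul' a η := by
    funext d
    by_cases h : d ∈ De
    · simp only [h, if_true, Pi.smul_apply, smul_eq_mul, RingHom.id_apply, ← mul_div_assoc,
        Finset.mul_sum]
      congr 1
      refine Finset.sum_congr rfl fun i _ => ?_
      split_ifs <;> simp
    · simp [h]

theorem ED_apply {X : Type} [Fintype X] (De : Set X) (η : X → ℂ) (d : X) :
    ED De η d = if d ∈ De then
      (∑ d', if d' ∈ De then η d' else 0) / (Finset.univ.filter (· ∈ De)).card else 0 := rfl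

theorem DD_one {X : Type} [Fintype X] (De : Set X) : B2 (DD De) 1 := by
  refine B2.of_sq zero_le_one fun η => ?_
  rw [one_pow, one_mul]
  refine Finset.sum_le_sum fun d _ => ?_
  rw [DD_apply]
  split_ifs <;> simp

theorem norm_sum_sq {ι : Type} (s : Finset ι) (a : ι → ℂ) :
    ‖∑ i ∈ s, a i‖ ^ 2 ≤ s.card * ∑ i ∈ s, ‖a i‖ ^ 2 :=
  (pow_le_pow_left₀ (norm_nonneg _) (norm_sum_le _ _) 2).trans sq_sum_le_card_mul_sum_sq

theorem PP_sq (hn : 0 < Fintype.card V) (η : V × ZMod 2 → ℂ) (d : V × ZMod 2) :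
    ‖PP V η d‖ ^ 2 ≤ (∑ v, ‖η (v, d.2)‖ ^ 2) / Fintype.card V := by
  have hn' : (0 : ℝ) < Fintype.card V := by exact_mod_cast hn
  have h := norm_sum_sq Finset.univ fun v => η (v, d.2)
  rw [Finset.card_univ] at h
  rw [PP_apply, norm_div, div_pow, Complex.norm_natCast, div_le_div_iff₀ (by positivity) hn']
  nlinarith

theorem PP_one (hn : 0 < Fintype.card V) : B2 (PP V) 1 := by
  have hn' : (Fintype.card V : ℝ) ≠ 0 := by exact_mod_cast hn.ne'
  refine B2.of_sq zero_le_one fun η => ?_
  refine (Finset.sum_le_sum fun d _ => PP_sq hn η d).trans (le_of_eq ?_)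
  rw [one_pow, one_mul, Fintype.sum_prod_type_right, Fintype.sum_prod_type_right]
  refine Finset.sum_congr rfl fun x _ => ?_
  simp only [Finset.sum_const, Finset.card_univ, nsmul_eq_mul]
  field_simp

theorem PP_compl (hn : 0 < Fintype.card V) : B2 (1 - PP V) 1 := by
  refine B2.of_sq zero_le_one fun η => ?_
  rw [one_pow, one_mul, Fintype.sum_prod_type_right, Fintype.sum_prod_type_right]
  refine Finset.sum_le_sum fun x _ => ?_
  have h1 := (sum_sq_mean (fun v => (η (v, x)).re) hn).2
  have h2 := (sum_sq_mean (fun v => (η (v, x)).im) hn).2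
  simp only [Complex.sq_norm, Complex.normSq_apply, ← sq, Finset.sum_add_distrib,
    LinearMap.sub_apply, Module.End.one_apply, Pi.sub_apply, PP_apply, Complex.sub_re,
    Complex.sub_im, Complex.div_natCast_re, Complex.div_natCast_im, Complex.re_sum,
    Complex.im_sum]
  rw [h1, h2]
  exact add_le_add (le_add_of_nonneg_left (by positivity)) (le_add_of_nonneg_left (by positivity))

theorem Mm_gap (hn : 0 < Fintype.card V) {c : ℝ} (hc1 : c ≤ 1) (hg : Gap τ c) :
    B2 (Mm τ (fun _ _ => True) * (1 - PP V)) (1 - c) := by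
  have hn' : (Fintype.card V : ℂ) ≠ 0 := by exact_mod_cast hn.ne'
  refine B2.of_sq (by linarith) fun η => ?_
  have h1 := (PP_compl hn).sq η
  rw [one_pow, one_mul] at h1
  refine le_trans ?_ (mul_le_mul_of_nonneg_left h1 (sq_nonneg _))
  rw [Fintype.sum_prod_type_right, Fintype.sum_prod_type_right,
    ← sum_flip fun x => ∑ v, ‖(1 - PP V) η (v, x)‖ ^ 2, Finset.mul_sum]
  refine Finset.sum_le_sum fun x _ => ?_
  simp only [Module.End.mul_apply, Mm_hf]
  refine hf_gap τ hg (fun v => (1 - PP V) η (v, x + 1)) ?_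
  simp only [LinearMap.sub_apply, Module.End.one_apply, Pi.sub_apply, PP_apply,
    Finset.sum_sub_distrib, Finset.sum_const, Finset.card_univ, nsmul_eq_mul]
  field_simp
  ring

theorem left_small (hn : 0 < Fintype.card V) (De : Set (V × ZMod 2)) {s : ℝ} (hs : 0 ≤ s)
    (hD : ((Finset.univ.filter (· ∉ De)).card : ℝ) ≤ s ^ 2 * Fintype.card V) :
    B2 ((1 - DD De) * PP V) s := by
  have hn' : (0 : ℝ) < Fintype.card V := by exact_mod_cast hn
  refine B2.of_sq hs fun η => ?_
  have h1 : ∀ d, ‖((1 - DD De) * PP V) η d‖ ^ 2 ≤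
      if d ∉ De then (∑ d, ‖η d‖ ^ 2) / Fintype.card V else 0 := by
    intro d
    simp only [Module.End.mul_apply, LinearMap.sub_apply, Module.End.one_apply, Pi.sub_apply,
      DD_apply]
    by_cases h : d ∈ De
    · simp [h]
    · simp only [h, if_false, sub_zero, not_false_eq_true, if_true]
      refine (PP_sq hn η d).trans (div_le_div_of_nonneg_right ?_ hn'.le)
      rw [Fintype.sum_prod_type_right]
      exact Finset.single_le_sum (f := fun x => ∑ v, ‖η (v, x)‖ ^ 2)
        (fun x _ => Finset.sum_nonneg fun v _ => sq_nonneg _) (Finset.mem_univ d.2)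
  refine (Finset.sum_le_sum fun d _ => h1 d).trans ?_
  rw [← Finset.sum_filter, Finset.sum_const, nsmul_eq_mul, ← mul_div_assoc, div_le_iff₀ hn']
  have h2 : 0 ≤ ∑ d, ‖η d‖ ^ 2 := Finset.sum_nonneg fun v _ => sq_nonneg _
  nlinarith

theorem right_small (hn : 0 < Fintype.card V) (De : Set (V × ZMod 2)) {s : ℝ} (hs : 0 ≤ s)
    (hD : ((Finset.univ.filter (· ∉ De)).card : ℝ) ≤ s ^ 2 * Fintype.card V) :
    B2 (PP V * (1 - DD De)) s := by
  have hn' : (0 : ℝ) < Fintype.card V := by exact_mod_cast hn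
  refine B2.of_sq hs fun η => ?_
  rw [Fintype.sum_prod_type_right, Fintype.sum_prod_type_right, Finset.mul_sum]
  refine Finset.sum_le_sum fun x _ => ?_
  have e : ∀ v, (PP V * (1 - DD De)) η (v, x) =
      (∑ w ∈ Finset.univ.filter fun w => (w, x) ∉ De, η (w, x)) / Fintype.card V := by
    intro v
    simp only [Module.End.mul_apply, PP_apply, LinearMap.sub_apply, Module.End.one_apply,
      Pi.sub_apply, DD_apply, Finset.sum_filter]
    congr 1
    refine Finset.sum_congr rfl fun w _ => ?_
    by_cases h : (w, x) ∈ De <;> simp [h]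
  have h1 := norm_sum_sq (Finset.univ.filter fun w => (w, x) ∉ De) fun w => η (w, x)
  have h2 : ((Finset.univ.filter fun w => (w, x) ∉ De).card : ℝ) ≤
      (Finset.univ.filter (· ∉ De)).card := by
    refine Nat.cast_le.2 (Finset.card_le_card_of_injOn (fun w => (w, x)) ?_ ?_)
    · intro w hw; simpa using hw
    · intro w _ w' _ h; exact (Prod.mk.inj h).1
  have h3 : ∑ w ∈ Finset.univ.filter fun w => (w, x) ∉ De, ‖η (w, x)‖ ^ 2 ≤ ∑ w, ‖η (w, x)‖ ^ 2 :=
    Finset.sum_le_sum_of_subset_of_nonneg (Finset.filter_subset _ _) fun _ _ _ => sq_nonneg _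
  have h4 := h1.trans (mul_le_mul (h2.trans hD) h3 (Finset.sum_nonneg fun v _ => sq_nonneg _)
    (by positivity))
  simp only [e, Finset.sum_const, Finset.card_univ, nsmul_eq_mul, norm_div, div_pow,
    Complex.norm_natCast]
  rw [← mul_div_assoc, div_le_iff₀ (by positivity)]
  nlinarith

end Pool.Agent.P.MP_9167e9_an.Spec
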