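import Pool.Agent.P.MP_9167e9_an.StA

/-!
The averaging operator of an expander with some edges removed.
-/

noncomputable section
open scoped Classical

namespace Pool.Agent.P.MP_9167e9_an.Spec

variable {j : ℕ} {V : Type} [Fintype V] (τ : Fin j → Equiv.Perm V)

/-- Averaging along the edges with `m v i`, for real functions. -/
def hr (m : V → Fin j → Prop) (f : V → ℝ) (v : V) : ℝ :=
  (∑ i, if m v i then f ((τ i)⁻¹ v) else 0) / j

/-- Averaging along the edges with `m v i`, for complex functions. -/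
def hf (m : V → Fin j → Prop) (η : V → ℂ) (v : V) : ℂ :=
  (∑ i, if m v i then η ((τ i)⁻¹ v) else 0) / j

theorem sum_perm (σ : Equiv.Perm V) (f : V → ℝ) : ∑ v, f (σ⁻¹ v) = ∑ v, f v :=
  Equiv.sum_comp σ⁻¹ f

theorem hr_one (hj : 1 ≤ j) (m : V → Fin j → Prop) (f : V → ℝ) :
    ∑ v, hr τ m f v ^ 2 ≤ ∑ v, f v ^ 2 := by
  have hj' : (0 : ℝ) < j := by exact_mod_cast hj
  have h1 : ∀ v, hr τ m f v ^ 2 ≤ (∑ i, f ((τ i)⁻¹ v) ^ 2) / j := by
    intro v
    have h := sq_sum_le_card_mul_sum_sq (s := Finset.univ)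
      (f := fun i => if m v i then f ((τ i)⁻¹ v) else 0)
    have h2 : ∑ i, (if m v i then f ((τ i)⁻¹ v) else 0) ^ 2 ≤ ∑ i, f ((τ i)⁻¹ v) ^ 2 :=
      Finset.sum_le_sum fun i _ => by split_ifs <;> simp [sq_nonneg]
    rw [Finset.card_univ, Fintype.card_fin] at h
    rw [hr, div_pow, div_le_div_iff₀ (by positivity) hj']
    have h3 := h.trans (mul_le_mul_of_nonneg_left h2 hj'.le)
    nlinarith
  refine (Finset.sum_le_sum fun v _ => h1 v).trans (le_of_eq ?_)
  rw [← Finset.sum_div, Finset.sum_comm]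
  simp only [sum_perm _ fun v => f v ^ 2]
  simp [hj'.ne']

omit [Fintype V] in
theorem norm_hf (m : V → Fin j → Prop) (η : V → ℂ) (v : V) :
    ‖hf τ m η v‖ ≤ hr τ m (fun v => ‖η v‖) v := by
  rw [hf, hr, norm_div, Complex.norm_natCast]
  refine div_le_div_of_nonneg_right ((norm_sum_le _ _).trans (le_of_eq ?_)) (Nat.cast_nonneg _)
  refine Finset.sum_congr rfl fun i _ => ?_
  split_ifs <;> simp

theorem hf_le (m : V → Fin j → Prop) (η : V → ℂ) :
    ∑ v, ‖hf τ m η v‖ ^ 2 ≤ ∑ v, hr τ m (fun v => ‖η v‖) v ^ 2 :=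
  Finset.sum_le_sum fun v _ => pow_le_pow_left₀ (norm_nonneg _) (norm_hf τ m η v) 2

theorem hf_one (hj : 1 ≤ j) (m : V → Fin j → Prop) (η : V → ℂ) :
    ∑ v, ‖hf τ m η v‖ ^ 2 ≤ ∑ v, ‖η v‖ ^ 2 := (hf_le τ m η).trans (hr_one τ hj m _)

theorem hf_gap {c : ℝ} (hg : Gap τ c) (η : V → ℂ) (h0 : ∑ v, η v = 0) :
    ∑ v, ‖hf τ (fun _ _ => True) η v‖ ^ 2 ≤ (1 - c) ^ 2 * ∑ v, ‖η v‖ ^ 2 := by
  have h1 := hg (fun v => (η v).re) (by simpa using congrArg Complex.re h0)
  have h2 := hg (fun v => (η v).im) (by simpa using congrArg Complex.im h0)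
  simp only [Complex.sq_norm, Complex.normSq_apply, ← sq, Finset.sum_add_distrib, mul_add]
  refine add_le_add (le_of_eq_of_le ?_ h1) (le_of_eq_of_le ?_ h2)
  · simp [hf, Complex.div_natCast_re]
  · simp [hf, Complex.div_natCast_im]

theorem sum_sq_mean (f : V → ℝ) (hn : 0 < Fintype.card V) :
    ∑ v, (f v - (∑ w, f w) / Fintype.card V) = 0 ∧
    ∑ v, f v ^ 2 = Fintype.card V * ((∑ w, f w) / Fintype.card V) ^ 2 +
      ∑ v, (f v - (∑ w, f w) / Fintype.card V) ^ 2 := by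
  have hn' : (Fintype.card V : ℝ) ≠ 0 := by exact_mod_cast hn.ne'
  constructor
  · rw [Finset.sum_sub_distrib, Finset.sum_const, Finset.card_univ, nsmul_eq_mul]
    field_simp; ring
  · simp only [sub_sq, Finset.sum_add_distrib, Finset.sum_sub_distrib, Finset.sum_const,
      Finset.card_univ, nsmul_eq_mul, ← Finset.sum_mul, ← Finset.mul_sum]
    field_simp; ring

theorem hr_miss (hj : 1 ≤ j) {c : ℝ} (hc : 0 < c) (hc1 : c ≤ 1) (hg : Gap τ c)
    (m : V → Fin j → Prop)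
    (hm : Fintype.card (V × Fin j) ≤
      8 * (Finset.univ.filter fun x : V × Fin j => ¬ m x.1 x.2).card)
    (f : V → ℝ) (hf0 : ∀ v, 0 ≤ f v) :
    ∑ v, hr τ m f v ^ 2 ≤ (1 - c / 255) * ∑ v, f v ^ 2 := by
  have hj' : (0 : ℝ) < j := by exact_mod_cast hj
  rcases Nat.eq_zero_or_pos (Fintype.card V) with hn | hn
  · have := Fintype.card_eq_zero_iff.1 hn
    simp
  obtain ⟨s0, s2⟩ := sum_sq_mean f hn
  obtain ⟨μ, hμ⟩ : ∃ μ, μ = (∑ w, f w) / Fintype.card V := ⟨_, rfl⟩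
  rw [← hμ] at s0 s2
  obtain ⟨f0, hf⟩ : ∃ f0 : V → ℝ, f0 = fun v => f v - μ := ⟨_, rfl⟩
  have ef : ∀ v, f v = μ + f0 v := fun v => by simp [hf]
  have s0' : ∑ v, f0 v = 0 := by simpa [hf] using s0
  have s2' : ∑ v, f v ^ 2 = Fintype.card V * μ ^ 2 + ∑ v, f0 v ^ 2 := by simpa [hf] using s2
  -- first bound
  have a1 : ∑ v, hr τ m f v ^ 2 ≤ Fintype.card V * μ ^ 2 + (1 - c) ^ 2 * ∑ v, f0 v ^ 2 := by
    have h1 : ∀ v, hr τ m f v ^ 2 ≤ (μ + (∑ i, f0 ((τ i)⁻¹ v)) / j) ^ 2 := by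
      intro v
      refine pow_le_pow_left₀ (div_nonneg (Finset.sum_nonneg fun i _ => ?_) hj'.le) ?_ 2
      · split_ifs
        · exact hf0 _
        · exact le_rfl
      · have e : μ + (∑ i, f0 ((τ i)⁻¹ v)) / j = (∑ i, f ((τ i)⁻¹ v)) / j := by
          simp only [ef, Finset.sum_add_distrib, Finset.sum_const, Finset.card_univ,
            Fintype.card_fin, nsmul_eq_mul]
          field_simp
        rw [e]
        refine div_le_div_of_nonneg_right (Finset.sum_le_sum fun i _ => ?_) hj'.le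
        split_ifs
        · exact le_rfl
        · exact hf0 _
    have h2 : ∑ v, (∑ i, f0 ((τ i)⁻¹ v)) / j = 0 := by
      rw [← Finset.sum_div, Finset.sum_comm]
      simp only [sum_perm _ f0, s0']
      simp
    refine (Finset.sum_le_sum fun v _ => h1 v).trans ?_
    simp only [add_sq, Finset.sum_add_distrib, ← Finset.mul_sum, h2, Finset.sum_const,
      Finset.card_univ, nsmul_eq_mul, mul_zero, add_zero]
    exact add_le_add le_rfl (hg f0 s0')
  -- second bound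
  have a2 : ∑ v, hr τ m f v ^ 2 ≤
      14 / 15 * (Fintype.card V * μ ^ 2) + 16 * ∑ v, f0 v ^ 2 := by
    have e : ∀ v, hr τ m f v = μ * hr τ m (fun _ => 1) v + hr τ m f0 v := by
      intro v
      simp only [hr]
      rw [← mul_div_assoc, ← add_div, Finset.mul_sum, ← Finset.sum_add_distrib]
      congr 1
      refine Finset.sum_congr rfl fun i _ => ?_
      split_ifs <;> simp [ef]
    have k0 : ∀ v, hr τ m (fun _ => 1) v ^ 2 ≤ hr τ m (fun _ => 1) v := by
      intro v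
      have k1 : 0 ≤ hr τ m (fun _ => 1) v :=
        div_nonneg (Finset.sum_nonneg fun i _ => by split_ifs <;> simp) hj'.le
      have k2 : hr τ m (fun _ => 1) v ≤ 1 := by
        rw [hr, div_le_one hj']
        refine (Finset.sum_le_sum (g := fun _ => (1 : ℝ)) fun i _ => ?_).trans (by simp)
        split_ifs <;> simp
      nlinarith
    have k3 : ∑ v, hr τ m (fun _ => 1) v ≤ 7 / 8 * Fintype.card V := by
      have k4 := Finset.card_filter_add_card_filter_not (s := Finset.univ)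
        (fun x : V × Fin j => m x.1 x.2)
      have k5 : ∑ v, ∑ i, (if m v i then (1 : ℝ) else 0) =
          (Finset.univ.filter fun x : V × Fin j => m x.1 x.2).card := by
        rw [← Fintype.sum_prod_type' (f := fun v i => if m v i then (1 : ℝ) else 0)]
        simp
      simp only [hr]
      rw [← Finset.sum_div, k5, div_le_iff₀ hj']
      rw [Finset.card_univ] at k4
      rw [Fintype.card_prod, Fintype.card_fin] at k4 hm
      have k6 : ((Fintype.card V * j : ℕ) : ℝ) ≤ ((8 * (Finset.univ.filter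
        fun x : V × Fin j => ¬ m x.1 x.2).card : ℕ) : ℝ) := by exact_mod_cast hm
      have k7 := congrArg (Nat.cast : ℕ → ℝ) k4
      push_cast at k6 k7
      linarith
    have k8 : ∑ v, hr τ m (fun _ => 1) v ^ 2 ≤ 7 / 8 * Fintype.card V :=
      (Finset.sum_le_sum fun v _ => k0 v).trans k3
    have k9 : ∀ v, hr τ m f v ^ 2 ≤
        16 / 15 * μ ^ 2 * hr τ m (fun _ => 1) v ^ 2 + 16 * hr τ m f0 v ^ 2 := by
      intro v
      rw [e]
      nlinarith [sq_nonneg (μ * hr τ m (fun _ => 1) v - 15 * hr τ m f0 v)]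
    refine (Finset.sum_le_sum fun v _ => k9 v).trans ?_
    rw [Finset.sum_add_distrib, ← Finset.mul_sum, ← Finset.mul_sum]
    have k10 := mul_le_mul_of_nonneg_left k8 (show 0 ≤ 16 / 15 * μ ^ 2 by positivity)
    have k11 := hr_one τ hj m f0
    nlinarith
  have hα : 0 ≤ (Fintype.card V : ℝ) * μ ^ 2 := by positivity
  have hβ : 0 ≤ ∑ v, f0 v ^ 2 := Finset.sum_nonneg fun v _ => sq_nonneg _
  have a3 : (1 - c) ^ 2 * ∑ v, f0 v ^ 2 ≤ (1 - c) * ∑ v, f0 v ^ 2 :=
    mul_le_mul_of_nonneg_right (by nlinarith) hβ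
  rw [s2']
  have b1 := mul_le_mul_of_nonneg_left (a1.trans (add_le_add le_rfl a3))
    (show 0 ≤ 1 - c / 17 by linarith)
  have b2 := mul_le_mul_of_nonneg_left a2 (show 0 ≤ c / 17 by linarith)
  have b3 : 0 ≤ c * ∑ v, f0 v ^ 2 := mul_nonneg hc.le hβ
  have b4 : 0 ≤ (1 - c) * (c * ∑ v, f0 v ^ 2) := mul_nonneg (by linarith) b3
  nlinarith

theorem hf_miss (hj : 1 ≤ j) {c : ℝ} (hc : 0 < c) (hc1 : c ≤ 1) (hg : Gap τ c)
    (m : V → Fin j → Prop)
    (hm : Fintype.card (V × Fin j) ≤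
      8 * (Finset.univ.filter fun x : V × Fin j => ¬ m x.1 x.2).card) (η : V → ℂ) :
    ∑ v, ‖hf τ m η v‖ ^ 2 ≤ (1 - c / 255) * ∑ v, ‖η v‖ ^ 2 :=
  (hf_le τ m η).trans (hr_miss τ hj hc hc1 hg m hm _ fun _ => norm_nonneg _)

end Pool.Agent.P.MP_9167e9_an.Spec
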