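import Pool.Agent.P.MP_9167e9_an.Spec.BCov

/-!
The trivial character, and the uniform bound for all characters.
-/

noncomputable section
open scoped Classical

namespace Pool.Agent.P.MP_9167e9_an.Spec

variable {j : ℕ} {V : Type} [Fintype V] (τ : Fin j → Equiv.Perm V)

theorem ring_id3 {R : Type} [Ring R] (D J : R) :
    J - D * J * D = (1 - D) * J + D * (J * (1 - D)) := by noncomm_ring

theorem PP_PP (hn : 0 < Fintype.card V) : PP V * PP V = PP V := by
  have hn' : (Fintype.card V : ℂ) ≠ 0 := by exact_mod_cast hn.ne'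
  refine LinearMap.ext fun η => funext fun d => ?_
  simp only [Module.End.mul_apply, PP_apply, Finset.sum_const, Finset.card_univ, nsmul_eq_mul]
  field_simp

theorem Mm_PP (hj : 1 ≤ j) (η : V × ZMod 2 → ℂ) (d : V × ZMod 2) :
    Mm τ (fun _ _ => True) (PP V η) d = (∑ v, η (v, d.2 + 1)) / Fintype.card V := by
  have hj' : (j : ℂ) ≠ 0 := by exact_mod_cast (show j ≠ 0 by omega)
  simp only [Mm_apply, PP_apply, if_true, Finset.sum_const, Finset.card_univ, Fintype.card_fin,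
    nsmul_eq_mul]
  field_simp

theorem Mm_comm (hj : 1 ≤ j) :
    Mm τ (fun _ _ => True) * PP V = PP V * Mm τ (fun _ _ => True) := by
  have hj' : (j : ℂ) ≠ 0 := by exact_mod_cast (show j ≠ 0 by omega)
  refine LinearMap.ext fun η => funext fun d => ?_
  rw [Module.End.mul_apply, Module.End.mul_apply, Mm_PP τ hj, PP_apply]
  congr 1
  simp only [Mm_apply, if_true]
  rw [← Finset.sum_div, Finset.sum_comm]
  have e : ∀ i, ∑ v, η ((τ i)⁻¹ v, d.2 + 1) = ∑ v, η (v, d.2 + 1) := fun i =>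
    Equiv.sum_comp (τ i)⁻¹ fun v => η (v, d.2 + 1)
  simp only [e, Finset.sum_const, Finset.card_univ, Fintype.card_fin, nsmul_eq_mul]
  field_simp

theorem Mm_Mm_PP (hj : 1 ≤ j) :
    Mm τ (fun _ _ => True) * Mm τ (fun _ _ => True) * PP V = PP V := by
  have hj' : (j : ℂ) ≠ 0 := by exact_mod_cast (show j ≠ 0 by omega)
  refine LinearMap.ext fun η => funext fun d => ?_
  rw [Module.End.mul_apply, Module.End.mul_apply, Mm_apply]
  simp only [Mm_PP τ hj, if_true, add_one_one, PP_apply, Finset.sum_const, Finset.card_univ,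
    Fintype.card_fin, nsmul_eq_mul]
  field_simp

omit [Fintype V] in
theorem D_Mm_D (De : Set (V × ZMod 2)) : DD De * Mm τ (fun _ _ => True) * DD De =
    Mm τ fun d i => d ∈ De ∧ ((τ i)⁻¹ d.1, d.2 + 1) ∈ De := by
  refine LinearMap.ext fun η => funext fun d => ?_
  simp only [Module.End.mul_apply, DD_apply, Mm_apply, if_true]
  by_cases h : d ∈ De <;> simp [h]

theorem triv_bound (hj : 1 ≤ j) (hn : 0 < Fintype.card V) {c s : ℝ} (hc : 0 < c) (hc1 : c ≤ 1)
    (hg : Gap τ c) (De : Set (V × ZMod 2)) (hs : 0 ≤ s) (hs1 : s ≤ 1)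
    (hD : ((Finset.univ.filter (· ∉ De)).card : ℝ) ≤ s ^ 2 * Fintype.card V) (n : ℕ) :
    B2 ((1 / 2 : ℂ) • ((Mm τ fun d i => d ∈ De ∧ ((τ i)⁻¹ d.1, d.2 + 1) ∈ De) ^ (n + 1) +
        (Mm τ fun d i => d ∈ De ∧ ((τ i)⁻¹ d.1, d.2 + 1) ∈ De) ^ (n + 2)) - ED De)
      ((1 - c) ^ (n + 1) + ((n + 2) * 2 ^ (n + 4) + 3) * s) := by
  have hn' : (0 : ℝ) < Fintype.card V := by exact_mod_cast hn
  have bl := left_small hn De hs hD
  have br := right_small hn De hs hD
  have bM := Mm_one τ hj fun _ _ => True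
  have h1 := triv_abs (PP_PP hn) (Mm_comm τ hj) (Mm_Mm_PP τ hj) bM (DD_one De) (PP_one hn)
    (PP_compl hn) (Mm_gap τ hn hc1 hg) (by linarith) bl br n
  rw [D_Mm_D] at h1
  obtain ⟨J, hJ⟩ : ∃ J, J = PP V + Mm τ (fun _ _ => True) * PP V := ⟨_, rfl⟩
  rw [← hJ] at h1
  have bJ : B2 J 2 := by
    rw [hJ]; exact ((PP_one hn).add (bM.mul (PP_one hn))).mono (by norm_num)
  have j1 : J * PP V = J := by rw [hJ, add_mul, mul_assoc, PP_PP hn]
  have j2 : PP V * J = J := by
    rw [hJ, mul_add, ← mul_assoc, ← Mm_comm τ hj, mul_assoc, PP_PP hn]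
  have b1 : B2 (J - DD De * J * DD De) (4 * s) := by
    rw [ring_id3]
    have c1 : B2 ((1 - DD De) * J) (s * 2) := by rw [← j2, ← mul_assoc]; exact bl.mul bJ
    have c2 : B2 (J * (1 - DD De)) (2 * s) := by rw [← j1, mul_assoc]; exact bJ.mul br
    exact (c1.add ((DD_one De).mul c2)).mono (le_of_eq (by ring))
  obtain ⟨a, ha⟩ : ∃ a : ℝ, a = (Finset.univ.filter (· ∈ De)).card := ⟨_, rfl⟩
  have k1 := Finset.card_filter_add_card_filter_not (s := Finset.univ) (· ∈ De)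
  have k2 := congrArg (Nat.cast : ℕ → ℝ) k1
  rw [Finset.card_univ, Fintype.card_prod, ZMod.card] at k2
  push_cast at k2
  rw [← ha] at k2
  have hs2 : s ^ 2 * Fintype.card V ≤ s * Fintype.card V :=
    mul_le_mul_of_nonneg_right (by nlinarith) hn'.le
  have hs3 : s * Fintype.card V ≤ Fintype.card V := by nlinarith
  have ha1 : (Fintype.card V : ℝ) ≤ a := by linarith
  have ha0 : 0 < a := hn'.trans_le ha1
  have e1 : ED De = ((Fintype.card V / a : ℝ) : ℂ) • (DD De * J * DD De) := by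
    refine LinearMap.ext fun η => funext fun d => ?_
    have hJ' : ∀ ζ d, J ζ d = (∑ d', ζ d') / Fintype.card V := by
      intro ζ d
      rw [hJ, LinearMap.add_apply, Pi.add_apply, Module.End.mul_apply, Mm_PP τ hj, PP_apply,
        Fintype.sum_prod_type_right, sum_two _ d.2, add_div]
    have ha' : ((Finset.univ.filter (· ∈ De)).card : ℂ) = (a : ℂ) := by rw [ha]; simp
    simp only [ED_apply, LinearMap.smul_apply, Pi.smul_apply, Module.End.mul_apply, DD_apply, hJ',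
      ha', smul_eq_mul]
    have z1 : (Fintype.card V : ℂ) ≠ 0 := by exact_mod_cast hn.ne'
    have z2 : (a : ℂ) ≠ 0 := by exact_mod_cast ha0.ne'
    split_ifs
    · push_cast; field_simp
    · simp
  have b2 : B2 (((1 / 2 - Fintype.card V / a : ℝ) : ℂ) • (DD De * J * DD De)) s := by
    refine ((((DD_one De).mul bJ).mul (DD_one De)).smul _).mono ?_
    rw [Complex.norm_real, Real.norm_eq_abs]
    have k0 : (0 : ℝ) ≤ (Finset.univ.filter (· ∉ De)).card := Nat.cast_nonneg _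
    have k3 : |1 / 2 - Fintype.card V / a| ≤ s / 2 := by
      rw [abs_le]
      constructor
      · have : Fintype.card V / a ≤ 1 / 2 + s / 2 := by
          rw [div_le_iff₀ ha0]; nlinarith
        linarith
      · have : 1 / 2 ≤ Fintype.card V / a := by
          rw [le_div_iff₀ ha0]; linarith
        linarith
    linarith
  obtain ⟨Y, hY⟩ : ∃ Y, Y = (Mm τ fun d i => d ∈ De ∧ ((τ i)⁻¹ d.1, d.2 + 1) ∈ De) ^ (n + 1) +
        (Mm τ fun d i => d ∈ De ∧ ((τ i)⁻¹ d.1, d.2 + 1) ∈ De) ^ (n + 2) := ⟨_, rfl⟩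
  rw [← hY] at h1 ⊢
  have e2 : (1 / 2 : ℂ) • Y - ED De = (1 / 2 : ℂ) • (Y - J) + (1 / 2 : ℂ) • (J - DD De * J * DD De) +
      ((1 / 2 - Fintype.card V / a : ℝ) : ℂ) • (DD De * J * DD De) := by
    rw [e1]; push_cast; module
  rw [e2]
  refine (((h1.smul _).add (b1.smul _)).add b2).mono (le_of_eq ?_)
  simp only [norm_div, norm_one, Complex.norm_ofNat]
  ring

/-- The edges of the block that survive in the sector of the character `u`. -/
def mU {h : ℕ} (De : Set (V × ZMod 2)) (u : (V × Fin j) × ZMod 2 → ZMod h) (d : V × ZMod 2)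
    (i : Fin j) : Prop :=
  d ∈ De ∧ ((τ i)⁻¹ d.1, d.2 + 1) ∈ De ∧ u ((d.1, i), d.2) = 0

theorem sector_bound (hj : 1 ≤ j) {c s : ℝ} (hc : 0 < c) (hc1 : c ≤ 1) (hg : Gap τ c)
    (De : Set (V × ZMod 2)) (hs : 0 ≤ s) (hs1 : s ≤ 1)
    (hD : ((Finset.univ.filter (· ∉ De)).card : ℝ) ≤ s ^ 2 * Fintype.card V) (k : ℕ)
    {h : ℕ} (W : Submodule (ZMod h) (V × Fin j → ZMod h)) (hW : CodeOK W)
    (u : (V × Fin j) × ZMod 2 → ZMod h) (hu : ∀ x, ∀ w ∈ W, (fun y => u (y, x)) ⬝ᵥ w = 0) :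
    B2 ((1 / 2 : ℂ) • (Mm τ (mU τ De u) ^ (2 * k + 2) + Mm τ (mU τ De u) ^ (2 * k + 2 + 1)) -
        if u = 0 then ED De else 0)
      ((1 - c / 510) ^ (k + 1) + ((2 * k + 3) * 2 ^ (2 * k + 5) + 3) * s) := by
  have q0 : 0 ≤ 1 - c / 510 := by linarith
  have p0 : 0 ≤ ((2 * k + 3) * 2 ^ (2 * k + 5) + 3) * s := by positivity
  rcases Nat.eq_zero_or_pos (Fintype.card V) with hn | hn
  · have := Fintype.card_eq_zero_iff.1 hn
    exact B2.of_sq (add_nonneg (pow_nonneg q0 _) p0) fun η => by simp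
  split_ifs with h0
  · have e : mU τ De u = fun d i => d ∈ De ∧ ((τ i)⁻¹ d.1, d.2 + 1) ∈ De := by
      funext d i; simp [mU, h0]
    rw [e]
    refine (triv_bound τ hj hn hc hc1 hg De hs hs1 hD (2 * k + 1)).mono (add_le_add ?_ ?_)
    · calc (1 - c) ^ (2 * k + 1 + 1) ≤ (1 - c) ^ (k + 1) :=
            pow_le_pow_of_le_one (by linarith) (by linarith) (by omega)
        _ ≤ _ := pow_le_pow_left₀ (by linarith) (by linarith) _
    · push_cast; exact le_of_eq (by ring)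
  · obtain ⟨⟨y0, x0⟩, hy⟩ := Function.ne_iff.1 h0
    have h1 := hW.2 (fun y => u (y, x0)) (hu x0) (Function.ne_iff.2 ⟨y0, hy⟩)
    have h2 := Mm_miss τ hj hc hc1 hg (mU τ De u) x0 (h1.trans (Nat.mul_le_mul_left 8 (by
      refine Finset.card_le_card fun y hy => ?_
      simp only [Finset.mem_filter, Finset.mem_univ, true_and] at hy ⊢
      exact fun hm => hy hm.2.2)))
    have h3 : B2 (Mm τ (mU τ De u) ^ (2 * k + 2)) ((1 - c / 510) ^ (k + 1)) := by
      rw [show 2 * k + 2 = 2 * (k + 1) by ring, pow_mul, sq]; exact h2.pow _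
    rw [sub_zero, pow_succ _ (2 * k + 2)]
    refine ((h3.add (h3.mul (Mm_one τ hj _))).smul _).mono ?_
    simp only [norm_div, norm_one, Complex.norm_ofNat]
    linarith

end Pool.Agent.P.MP_9167e9_an.Spec
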