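import Mathlib

/-!
Marcinkiewicz interpolation between `ℓ²` and `ℓ^∞` on a finite set.
-/

noncomputable section
open MeasureTheory Set

namespace Pool.Agent.P.MP_9167e9_an.Spec

theorem layer {q y : ℝ} (hq : -1 < q) (hy : 0 ≤ y) :
    IntegrableOn (fun l : ℝ => if l < y then l ^ q else 0) (Ioi 0) ∧
      ∫ l in Ioi (0 : ℝ), (if l < y then l ^ q else 0) = y ^ (q + 1) / (q + 1) := by
  have e : (fun l : ℝ => if l < y then l ^ q else 0) = (Iio y).indicator fun l => l ^ q := by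
    funext l
    simp [Set.indicator_apply]
  have hi := intervalIntegral.intervalIntegrable_rpow' (a := 0) (b := y) hq
  rw [intervalIntegrable_iff_integrableOn_Ioo_of_le hy] at hi
  rw [e]
  constructor
  · rw [integrableOn_indicator_iff measurableSet_Iio, Set.Iio_inter_Ioi]
    exact hi
  · rw [setIntegral_indicator measurableSet_Iio, Set.Ioi_inter_Iio,
      ← integral_Ioc_eq_integral_Ioo, ← intervalIntegral.integral_of_le hy,
      integral_rpow (Or.inl hq), Real.zero_rpow (by linarith), sub_zero]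

variable {Ω : Type} [Fintype Ω] (K : (Ω → ℂ) →ₗ[ℂ] (Ω → ℂ)) {a b p : ℝ}

theorem weak (hb : 0 < b) (h2 : ∀ ξ, ∑ z, ‖K ξ z‖ ^ 2 ≤ a ^ 2 * ∑ z, ‖ξ z‖ ^ 2)
    (hi : ∀ ξ (M : ℝ), (∀ z, ‖ξ z‖ ≤ M) → ∀ z, ‖K ξ z‖ ≤ b * M) (ξ : Ω → ℂ) {l : ℝ} (hl : 0 < l) :
    ∑ z, (if l < ‖K ξ z‖ then l ^ 2 else 0) ≤
      4 * a ^ 2 * ∑ z, if l < 2 * b * ‖ξ z‖ then ‖ξ z‖ ^ 2 else 0 := by
  set ξ1 : Ω → ℂ := fun z => if l < 2 * b * ‖ξ z‖ then ξ z else 0 with h1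
  have h3 := hi (ξ - ξ1) (l / (2 * b)) fun z => by
    simp only [h1, Pi.sub_apply]
    split_ifs with h
    · simp only [sub_self, norm_zero]; positivity
    · rw [sub_zero, le_div_iff₀ (by positivity)]
      linarith [not_lt.1 h]
  have h4 : ∑ z, ‖ξ1 z‖ ^ 2 = ∑ z, if l < 2 * b * ‖ξ z‖ then ‖ξ z‖ ^ 2 else 0 := by
    refine Finset.sum_congr rfl fun z _ => ?_
    simp only [h1]
    split_ifs <;> simp
  rw [← h4, mul_assoc]
  refine le_trans ?_ (mul_le_mul_of_nonneg_left (h2 ξ1) (by norm_num))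
  rw [Finset.mul_sum]
  refine Finset.sum_le_sum fun z _ => ?_
  split_ifs with h
  · have h5 := h3 z
    rw [show b * (l / (2 * b)) = l / 2 by field_simp, map_sub, Pi.sub_apply] at h5
    have h6 := norm_sub_norm_le (K ξ z) (K ξ1 z)
    have h7 : l / 2 ≤ ‖K ξ1 z‖ := by linarith
    nlinarith
  · positivity

theorem interp (hp : 2 < p) (hb : 0 < b)
    (h2 : ∀ ξ, ∑ z, ‖K ξ z‖ ^ 2 ≤ a ^ 2 * ∑ z, ‖ξ z‖ ^ 2)
    (hi : ∀ ξ (M : ℝ), (∀ z, ‖ξ z‖ ≤ M) → ∀ z, ‖K ξ z‖ ≤ b * M) (ξ : Ω → ℂ) :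
    ∑ z, ‖K ξ z‖ ^ p ≤ 4 * a ^ 2 * (p / (p - 2) * (2 * b) ^ (p - 2)) * ∑ z, ‖ξ z‖ ^ p := by
  have hq1 : -1 < p - 1 := by linarith
  have hq3 : -1 < p - 3 := by linarith
  have hp0 : 0 < p := by linarith
  have hp2 : 0 < p - 2 := by linarith
  have i1 := fun z => layer hq1 (norm_nonneg (K ξ z))
  have i2 := fun z => layer hq3 (show 0 ≤ 2 * b * ‖ξ z‖ by positivity)
  have h3 : ∫ l in Ioi (0 : ℝ), ∑ z, (if l < ‖K ξ z‖ then l ^ (p - 1) else 0) ≤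
      ∫ l in Ioi (0 : ℝ), ∑ z, 4 * a ^ 2 * ‖ξ z‖ ^ 2 *
        (if l < 2 * b * ‖ξ z‖ then l ^ (p - 3) else 0) := by
    refine setIntegral_mono_on (integrable_finsetSum _ fun z _ => (i1 z).1)
      (integrable_finsetSum _ fun z _ => (i2 z).1.const_mul _) measurableSet_Ioi fun l hl => ?_
    have hl0 : 0 < l := hl
    have h4 := mul_le_mul_of_nonneg_right (weak K hb h2 hi ξ hl0)
      (Real.rpow_nonneg hl0.le (p - 3))
    rw [Finset.sum_mul, mul_assoc, Finset.sum_mul, Finset.mul_sum] at h4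
    refine le_trans (le_of_eq (Finset.sum_congr rfl fun z _ => ?_))
      (h4.trans (le_of_eq (Finset.sum_congr rfl fun z _ => ?_)))
    · split_ifs
      · rw [← Real.rpow_natCast, ← Real.rpow_add hl0]
        congr 1
        push_cast
        ring
      · simp
    · split_ifs
      · ring
      · simp
  rw [integral_finsetSum _ fun z _ => (i1 z).1,
    integral_finsetSum _ fun z _ => (i2 z).1.const_mul _] at h3
  simp only [integral_const_mul, (i1 _).2, (i2 _).2, sub_add_cancel,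
    show p - 3 + 1 = p - 2 by ring] at h3
  rw [← Finset.sum_div, div_le_iff₀ hp0, Finset.sum_mul] at h3
  refine h3.trans (le_of_eq ?_)
  rw [Finset.mul_sum]
  refine Finset.sum_congr rfl fun z _ => ?_
  have h5 : ‖ξ z‖ ^ p = ‖ξ z‖ ^ 2 * ‖ξ z‖ ^ (p - 2) := by
    rw [← Real.rpow_natCast, ← Real.rpow_add' (norm_nonneg _) (by push_cast; linarith)]
    congr 1
    push_cast
    ring
  rw [Real.mul_rpow (by positivity) (norm_nonneg _), h5]
  field_simp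

/-- A small `ℓ²` norm and a bounded `ℓ^∞` norm give a small `ℓ^p` norm. -/
theorem exists_interp {p b ε : ℝ} (hp : 2 ≤ p) (hb : 0 < b) (hε : 0 < ε) : ∃ a : ℝ, 0 < a ∧
    ∀ (Ω : Type) [Fintype Ω] (K : (Ω → ℂ) →ₗ[ℂ] (Ω → ℂ)),
      (∀ ξ, ∑ z, ‖K ξ z‖ ^ 2 ≤ a ^ 2 * ∑ z, ‖ξ z‖ ^ 2) →
      (∀ ξ (M : ℝ), (∀ z, ‖ξ z‖ ≤ M) → ∀ z, ‖K ξ z‖ ≤ b * M) →
      ∀ ξ, ∑ z, ‖K ξ z‖ ^ p ≤ ε ^ p * ∑ z, ‖ξ z‖ ^ p := by
  rcases hp.eq_or_lt with rfl | hp
  · exact ⟨ε, hε, fun Ω _ K h2 _ ξ => by simpa using h2 ξ⟩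
  · have hp2 : 0 < p - 2 := by linarith
    have hp0 : 0 < p := by linarith
    set C : ℝ := p / (p - 2) * (2 * b) ^ (p - 2) with hC
    have hC0 : 0 < C := by positivity
    refine ⟨√(ε ^ p / (4 * C)), by positivity, fun Ω _ K h2 hi ξ => ?_⟩
    have h3 := interp K hp hb h2 hi ξ
    rwa [Real.sq_sqrt (by positivity), ← hC,
      show 4 * (ε ^ p / (4 * C)) * C = ε ^ p by field_simp] at h3

end Pool.Agent.P.MP_9167e9_an.Spec
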