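import Pool.Agent.P.MP_9167e9_an.Spec.UD

/-!
Reduction of the block part of SPEC to a finite model.
-/

noncomputable section
open scoped Classical

namespace Pool.Agent.P.MP_9167e9_an.Spec

/-- The lamp group of the model. -/
abbrev LA (V : Type) (j h : ℕ) : Type := (V × Fin j) × ZMod 2 → ZMod h

/-- The model operator. -/
def Mo {j : ℕ} (h : ℕ) [NeZero h] {V : Type} (τ : Fin j → Equiv.Perm V) (De : Set (V × ZMod 2)) :
    Module.End ℂ ((V × ZMod 2) × LA V j h → ℂ) where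
  toFun ξ z := (∑ i, if z.1 ∈ De ∧ ((τ i)⁻¹ z.1.1, z.1.2 + 1) ∈ De then
    (∑ t : ZMod h, ξ (((τ i)⁻¹ z.1.1, z.1.2 + 1), Pi.single ((z.1.1, i), z.1.2) t + z.2)) / h
    else 0) / j
  map_add' ξ ζ := by
    funext z
    simp only [Pi.add_apply, ← add_div, ← Finset.sum_add_distrib]
    congr 1
    refine Finset.sum_congr rfl fun s _ => ?_
    split_ifs
    · rw [Finset.sum_add_distrib, add_div]
    · simp
  map_smul' a ξ := by
    funext z
    simp only [Pi.smul_apply, smul_eq_mul, RingHom.id_apply, ← mul_div_assoc, Finset.mul_sum]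
    congr 1
    refine Finset.sum_congr rfl fun s _ => ?_
    split_ifs
    · rw [← Finset.mul_sum, mul_div_assoc]
    · simp

/-- The points of the model that lie over `De`. -/
def Dm {V : Type} [Fintype V] (j h : ℕ) [NeZero h] (De : Set (V × ZMod 2)) :
    Finset ((V × ZMod 2) × LA V j h) := Finset.univ.filter fun z => z.1 ∈ De

/-- The estimate in the finite model, for functions invariant under the code. -/
def StMod : Prop :=
  ∀ p c ε : ℝ, 2 ≤ p → 0 < c → c ≤ 1 → 0 < ε →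
    ∃ T B : ℕ, 1 ≤ T ∧ ∀ (j h : ℕ) [NeZero h] (V : Type) [Fintype V] (τ : Fin j → Equiv.Perm V)
      (W : Submodule (ZMod h) (V × Fin j → ZMod h)) (De : Set (V × ZMod 2)),
      1 ≤ j → Gap τ c → CodeOK W → B * Nat.card {d // d ∉ De} ≤ Nat.card V →
      ∀ ξ : (V × ZMod 2) × LA V j h → ℂ,
        (∀ d a w, (∀ e, (fun x => w (x, e)) ∈ W) → ξ (d, w + a) = ξ (d, a)) →
        ∑ z ∈ Dm j h De, ‖((1 / 2 : ℂ) • (Mo h τ De ^ T + Mo h τ De ^ (T + 1))) ξ z -
          (∑ z' ∈ Dm j h De, ξ z') / (Dm j h De).card‖ ^ p ≤ ε ^ p * ∑ z ∈ Dm j h De, ‖ξ z‖ ^ p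

theorem pb_blocks {Z : Type} {p L : ℝ} (hp : 0 < p) (blk : Z → Finset Z)
    (h1 : ∀ z z', z' ∈ blk z → blk z' = blk z) (K : (Z → ℂ) → Z → ℂ)
    (h2 : ∀ ξ z, z ∉ blk z → K ξ z = 0)
    (h3 : ∀ ξ z, ∑ y ∈ blk z, ‖K ξ y‖ ^ p ≤ L ^ p * ∑ y ∈ blk z, ‖ξ y‖ ^ p) : PB p K L := by
  intro ξ F
  have hd : ((F.image blk : Finset (Finset Z)) : Set (Finset Z)).PairwiseDisjoint id := by
    intro a ha b hb hab
    obtain ⟨x, -, rfl⟩ := Finset.mem_image.1 ha
    obtain ⟨y, -, rfl⟩ := Finset.mem_image.1 hb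
    refine Finset.disjoint_left.2 fun w hw hw' => hab ?_
    rw [← h1 x w hw, ← h1 y w hw']
  refine ⟨(F.image blk).biUnion id, ?_⟩
  have h4 : ∑ z ∈ F, ‖K ξ z‖ ^ p ≤ ∑ z ∈ (F.image blk).biUnion id, ‖K ξ z‖ ^ p := by
    rw [← Finset.sum_filter_of_ne (s := F) (p := fun z => z ∈ blk z) fun z _ h0 => by
      by_contra hn
      exact h0 (by rw [h2 ξ z hn, norm_zero, Real.zero_rpow hp.ne'])]
    refine sum_mono p (fun z hz => ?_) _
    obtain ⟨h5, h6⟩ := Finset.mem_filter.1 hz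
    exact Finset.mem_biUnion.2 ⟨blk z, Finset.mem_image_of_mem _ h5, h6⟩
  refine h4.trans ?_
  rw [Finset.sum_biUnion hd, Finset.sum_biUnion hd, Finset.mul_sum]
  refine Finset.sum_le_sum fun a ha => ?_
  obtain ⟨x, -, rfl⟩ := Finset.mem_image.1 ha
  exact h3 ξ x

variable {j h : ℕ} [NeZero h] {S Γ N I : Type} [Fintype S] [Group N] {slot : S → Fin j}
  {mv : S → Equiv.Perm Γ} {lamp : Γ → S → Multiplicative (ZMod h) →* N} {c : ℝ} {B : ℕ}
  (b : I → Blk slot mv lamp c B)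

omit [NeZero h] [Fintype S] in
theorem isB_iff
    (hd : ∀ β β' d d', d ∈ (b β).De → d' ∈ (b β').De → (b β).pos d = (b β').pos d' → β = β')
    {β : I} {d : (b β).V × ZMod 2} (h1 : d ∈ (b β).De) (s : S) :
    IsB b ((b β).pos d) s ↔ (((b β).τ (slot s))⁻¹ d.1, d.2 + 1) ∈ (b β).De ∧
      s = (b β).lab d.1 (slot s) := by
  constructor
  · rintro ⟨β', v, i, x, h2, h3, h4, h5⟩
    obtain rfl := hd β β' _ _ h1 h2 h4
    obtain rfl := (b β).pos_inj h4
    have h6 : slot s = i := by rw [h5, (b β).lab_slot]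
    rw [h6]
    exact ⟨h3, h5⟩
  · rintro ⟨h2, h3⟩
    exact ⟨β, d.1, slot s, d.2, h1, h2, rfl, h3⟩

omit [NeZero h] [Fintype S] in
theorem mv_inv (β : I) (v : (b β).V) (i : Fin j) (x : ZMod 2) :
    (mv ((b β).lab v i))⁻¹ ((b β).pos (v, x)) = (b β).pos (((b β).τ i)⁻¹ v, x + 1) := by
  rw [← (b β).pos_mv v i x]
  simp

theorem pb_contr {p : ℝ} (hp : 1 ≤ p) (hj : 1 ≤ j)
    (hd : ∀ β β' d d', d ∈ (b β).De → d' ∈ (b β').De → (b β).pos d = (b β').pos d' → β = β') :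
    PB p (fun ξ => ((1 / j : ℂ) • aP mv lamp (IsB b)) ξ) 1 := by
  have hj0 : (0 : ℝ) < j := by exact_mod_cast hj
  have hh : (0 : ℝ) < h := by exact_mod_cast NeZero.pos h
  have h1 : PB p (bQ mv lamp fun z s => IsB b z.1 s) j := by
    refine pb_gen mv lamp hp _ hj0.le (fun z A hA => ?_) (Y := Fin j × ZMod h)
      (fun x => (slot x.2.1, x.2.2)) (fun x x' h1 h2 e e' => ?_) ?_
    · have : A.card ≤ (Finset.univ : Finset (Fin j)).card := by
        refine Finset.card_le_card_of_injOn slot (fun _ _ => Finset.mem_univ _)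
          fun s hs s' hs' e => ?_
        have h1 := hA s hs
        have h2 := hA s' hs'
        obtain ⟨β, v, i, x, h3, -, h4, -⟩ := id h1
        rw [h4, isB_iff b hd h3] at h1 h2
        rw [h1.2, h2.2, e]
      rw [Finset.card_univ, Fintype.card_fin] at this
      exact_mod_cast this
    · obtain ⟨⟨γ, n⟩, s, t⟩ := x
      obtain ⟨⟨γ', n'⟩, s', t'⟩ := x'
      obtain ⟨β, v, i, x, -, h3, rfl, rfl⟩ := h1
      obtain ⟨β', v', i', x', -, h4, rfl, rfl⟩ := h2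
      obtain ⟨h5, rfl⟩ := Prod.mk.inj e'
      rw [(b β).lab_slot, (b β').lab_slot] at h5
      subst h5
      have h6 := congrArg Prod.fst e
      simp only [src, mv_inv] at h6
      obtain rfl := hd _ _ _ _ h3 h4 h6
      obtain ⟨h7, h8⟩ := Prod.mk.inj ((b β).pos_inj h6)
      obtain rfl := ((b β).τ i)⁻¹.injective h7
      rw [src_eq mv lamp e]
    · rw [Fintype.card_prod, ZMod.card, Fintype.card_fin, Nat.cast_mul, mul_div_assoc,
        div_self hh.ne', mul_one, Real.rpow_sub_one hj0.ne', div_mul_cancel₀ _ hj0.ne']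
  have h2 := h1.smul hj0.le (1 / j : ℂ)
  rw [norm_div, norm_one, Complex.norm_natCast, one_div_mul_cancel hj0.ne'] at h2
  exact h2.congr fun ξ z => rfl

/-- The parametrisation of a block by the model. -/
def Ph (β : I) (n : N) (z : ((b β).V × ZMod 2) × LA (b β).V j h) : Γ × N :=
  ((b β).pos z.1, (b β).ψ (Multiplicative.ofAdd z.2) * n)

theorem step
    (hd : ∀ β β' d d', d ∈ (b β).De → d' ∈ (b β').De → (b β).pos d = (b β').pos d' → β = β')
    (β : I) (n : N) (ξ : Γ × N → ℂ) (z : ((b β).V × ZMod 2) × LA (b β).V j h)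
    (hz : z.1 ∈ (b β).De) : ((1 / j : ℂ) • aP mv lamp (IsB b)) ξ (Ph b β n z) =
      Mo h (b β).τ (b β).De (fun y => ξ (Ph b β n y)) z := by
  obtain ⟨⟨v, x⟩, a⟩ := z
  simp only [LinearMap.smul_apply, Pi.smul_apply, smul_eq_mul, aP, Mo, LinearMap.coe_mk,
    AddHom.coe_mk, Ph]
  rw [one_div, ← div_eq_inv_mul]
  congr 1
  symm
  refine Finset.sum_of_injOn ((b β).lab v) (fun i _ i' _ e => ?_) (fun _ _ => Finset.mem_univ _)
    (fun s _ hs => if_neg fun h1 => hs ?_) fun i _ => ?_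
  · rw [← (b β).lab_slot v i, e, (b β).lab_slot]
  · exact ⟨slot s, Finset.mem_univ _, ((isB_iff b hd hz s).1 h1).2.symm⟩
  · have h1 : IsB b ((b β).pos (v, x)) ((b β).lab v i) ↔
        (v, x) ∈ (b β).De ∧ (((b β).τ i)⁻¹ v, x + 1) ∈ (b β).De := by
      rw [isB_iff b hd hz, (b β).lab_slot]
      simp [show (v, x) ∈ (b β).De from hz]
    simp only [h1, mv_inv, ← (b β).ψ_single, ← mul_assoc, ← map_mul, ← ofAdd_add]

theorem steps
    (hd : ∀ β β' d d', d ∈ (b β).De → d' ∈ (b β').De → (b β).pos d = (b β').pos d' → β = β')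
    (β : I) (n : N) (ξ : Γ × N → ℂ) (k : ℕ) : ∀ z : ((b β).V × ZMod 2) × LA (b β).V j h,
    z.1 ∈ (b β).De → (((1 / j : ℂ) • aP mv lamp (IsB b)) ^ k) ξ (Ph b β n z) =
      (Mo h (b β).τ (b β).De ^ k) (fun y => ξ (Ph b β n y)) z := by
  induction k with
  | zero => intro z _; rfl
  | succ k ih =>
    intro z hz
    rw [pow_succ', pow_succ', Module.End.mul_apply, Module.End.mul_apply, step b hd β n _ z hz]
    simp only [Mo, LinearMap.coe_mk, AddHom.coe_mk]
    congr 1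
    refine Finset.sum_congr rfl fun i _ => ?_
    split_ifs with h1
    · congr 1
      exact Finset.sum_congr rfl fun t _ => ih _ h1.2
    · rfl

omit [Fintype S] in
/-- All fibres of the parametrisation have the same size. -/
theorem sum_Ph (β : I) [Fintype (b β).V] (n : N) (F : Finset (Γ × N))
    (hF : ∀ y, y ∈ F ↔ ∃ z, z.1 ∈ (b β).De ∧ Ph b β n z = y) : ∃ κ : ℕ, 0 < κ ∧
    ∀ (M : Type) [AddCommMonoid M] (g : Γ × N → M),
      ∑ z ∈ Dm j h (b β).De, g (Ph b β n z) = κ • ∑ y ∈ F, g y := by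
  set Kr : Finset (LA (b β).V j h) :=
    Finset.univ.filter fun a => (b β).ψ (Multiplicative.ofAdd a) = 1 with hK
  refine ⟨Kr.card, Finset.card_pos.2 ⟨0, by simp [hK]⟩, fun M _ g => ?_⟩
  rw [← Finset.sum_fiberwise_of_maps_to (s := Dm j h (b β).De) (t := F) (g := Ph b β n)
    fun z hz => (hF _).2 ⟨z, (Finset.mem_filter.1 hz).2, rfl⟩, Finset.smul_sum]
  refine Finset.sum_congr rfl fun y hy => ?_
  obtain ⟨z, hz, rfl⟩ := (hF y).1 hy
  rw [Finset.sum_congr rfl fun w hw => congrArg g (Finset.mem_filter.1 hw).2, Finset.sum_const]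
  congr 1
  symm
  refine Finset.card_bij (fun a _ => (z.1, z.2 + a)) (fun a ha => ?_) (fun a _ a' _ e => ?_)
    fun w hw => ?_
  · refine Finset.mem_filter.2 ⟨Finset.mem_filter.2 ⟨Finset.mem_univ _, hz⟩, ?_⟩
    simp only [Ph, ofAdd_add, map_mul, (Finset.mem_filter.1 ha).2, mul_one]
  · exact add_left_cancel (Prod.mk.inj e).2
  · obtain ⟨h1, h2⟩ := Prod.mk.inj (Finset.mem_filter.1 hw).2
    refine ⟨w.2 - z.2, Finset.mem_filter.2 ⟨Finset.mem_univ _, ?_⟩, ?_⟩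
    · rw [ofAdd_sub, div_eq_mul_inv, map_mul, map_inv, mul_right_cancel h2, mul_inv_cancel]
    · exact Prod.ext ((b β).pos_inj h1).symm (by simp)

theorem blk_of_mod (hM : StMod) : StBlk := by
  intro p c ε hp hc hc1 hε
  obtain ⟨T, B, hT, hM⟩ := hM p c ε hp hc hc1 hε
  refine ⟨T, B, fun j h _ S Γ N _ _ slot mv lamp I b blk hj hd hblk =>
    ⟨pb_contr b (by linarith) hj hd, ?_⟩⟩
  have key : ∀ β, ∀ d ∈ (b β).De, ∀ a n y, y ∈ blk ((b β).pos d, (b β).ψ a * n) ↔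
      ∃ z, z.1 ∈ (b β).De ∧ Ph b β n z = y := by
    intro β d h1 a n y
    rw [hblk]
    constructor
    · rintro ⟨β', d1, h2, d2, h3, h4, h5, a', h6⟩
      obtain rfl := hd β β' _ _ h1 h2 h4
      refine ⟨(d2, Multiplicative.toAdd (a' * a)), h3, Prod.ext h5.symm ?_⟩
      simp only [Ph, ofAdd_toAdd, map_mul, h6, mul_assoc]
    · rintro ⟨z, h2, rfl⟩
      refine ⟨β, d, h1, z.1, h2, rfl, rfl, Multiplicative.ofAdd z.2 * a⁻¹, ?_⟩
      simp [Ph, mul_assoc]
  refine pb_blocks (by linarith) blk (fun z z' h1 => ?_) _ (fun ξ z h1 => ?_) fun ξ z => ?_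
  · obtain ⟨β, d, h2, d', h3, h4, h5, a, h6⟩ := (hblk z z').1 h1
    ext y
    have e1 : z' = ((b β).pos d', (b β).ψ a * z.2) := Prod.ext h5 h6
    have e2 : z = ((b β).pos d, (b β).ψ 1 * z.2) := Prod.ext h4 (by simp)
    rw [e1, key β d' h3]
    conv_rhs => rw [e2, key β d h2]
  · have h2 : ∀ β, ∀ d ∈ (b β).De, z.1 ≠ (b β).pos d := fun β d h2 h3 =>
      h1 ((hblk z z).2 ⟨β, d, h2, d, h2, h3, h3, 1, by simp⟩)
    have h3 : blk z = ∅ := by
      refine Finset.eq_empty_of_forall_notMem fun y hy => ?_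
      obtain ⟨β, d, h3, -, -, h4, -⟩ := (hblk z y).1 hy
      exact h2 β d h3 h4
    have h4 : ∀ η, ((1 / j : ℂ) • aP mv lamp (IsB b)) η z = 0 := by
      intro η
      simp only [LinearMap.smul_apply, Pi.smul_apply, smul_eq_mul, aP, LinearMap.coe_mk,
        AddHom.coe_mk]
      rw [Finset.sum_eq_zero, mul_zero]
      intro s _
      exact if_neg fun ⟨β, v, i, x, h5, _, h6, _⟩ => h2 β _ h5 h6
    obtain ⟨T, rfl⟩ := Nat.exists_eq_add_of_le' hT
    rw [h3, LinearMap.smul_apply, LinearMap.add_apply, pow_succ' _ T, pow_succ' _ (T + 1),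
      Module.End.mul_apply, Module.End.mul_apply, Pi.smul_apply, Pi.add_apply, h4, h4]
    simp
  · rcases (blk z).eq_empty_or_nonempty with h1 | ⟨y, h1⟩
    · simp [h1]
    obtain ⟨β, d, h2, -, -, h4, -⟩ := (hblk z y).1 h1
    have e2 : z = ((b β).pos d, (b β).ψ 1 * z.2) := Prod.ext h4 (by simp)
    let _ := (b β).fin
    have h5 : ∀ y, y ∈ blk z ↔ ∃ w, w.1 ∈ (b β).De ∧ Ph b β z.2 w = y := fun y => by
      conv_lhs => rw [e2, key β d h2]
    obtain ⟨κ, hκ, h6⟩ := sum_Ph b β z.2 (blk z) h5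
    have h7 := hM j h (b β).V (b β).τ (b β).W (b β).De hj (b β).gap (b β).code (b β).De_big
      (fun w => ξ (Ph b β z.2 w)) fun d a w hw => by
        simp only [Ph, ofAdd_add, map_mul, ((b β).ψ_ker w).2 hw, one_mul]
    have hκ0 : (0 : ℝ) < κ := by exact_mod_cast hκ
    have hκ1 : (κ : ℂ) ≠ 0 := by exact_mod_cast hκ.ne'
    have h8 := h6 ℕ fun _ => 1
    simp only [Finset.sum_const, smul_eq_mul, mul_one] at h8
    refine le_of_mul_le_mul_left ?_ hκ0
    rw [mul_left_comm, ← nsmul_eq_mul, ← nsmul_eq_mul, ← h6 ℝ, ← h6 ℝ]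
    refine le_trans (le_of_eq (Finset.sum_congr rfl fun w hw => ?_)) h7
    have h9 : w.1 ∈ (b β).De := (Finset.mem_filter.1 hw).2
    have h10 : blk (Ph b β z.2 w) = blk z := by
      ext y
      rw [h5, ← key β w.1 h9 (Multiplicative.ofAdd w.2)]
      rfl
    simp only [LinearMap.smul_apply, LinearMap.add_apply, Pi.smul_apply, Pi.add_apply]
    rw [steps b hd β z.2 ξ T w h9, steps b hd β z.2 ξ (T + 1) w h9, h10, h6 ℂ, h8, nsmul_eq_mul,
      Nat.cast_mul, mul_div_mul_left _ _ hκ1]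

end Pool.Agent.P.MP_9167e9_an.Spec
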