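import Pool.Agent.P.MP_9167e9_an.Spec.Triv
import Pool.Agent.P.MP_9167e9_an.Spec.Red
import Pool.Agent.P.MP_9167e9_an.Spec.Interp

/-!
Fourier analysis on the lamp group and the estimate in the finite model.
-/

noncomputable section
open scoped Classical ComplexConjugate

namespace Pool.Agent.P.MP_9167e9_an.Spec

section
variable {K : Type} [Fintype K] {h : ℕ} [NeZero h]

/-- The characters of the lamp group. -/
def ch (u a : K → ZMod h) : ℂ := ZMod.stdAddChar (u ⬝ᵥ a)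

theorem ch_add (u a b : K → ZMod h) : ch u (a + b) = ch u a * ch u b := by
  simp only [ch, dotProduct_add, AddChar.map_add_eq_mul]

theorem ch_comm (u a : K → ZMod h) : ch u a = ch a u := by
  rw [ch, dotProduct_comm, ch]

theorem ch_zero (u : K → ZMod h) : ch u 0 = 1 := by simp [ch]

theorem zero_ch (u : K → ZMod h) : ch 0 u = 1 := by simp [ch]

theorem ch_eq_one {u a : K → ZMod h} (h1 : ch u a = 1) : u ⬝ᵥ a = 0 :=
  ZMod.injective_stdAddChar (h1.trans (AddChar.map_zero_eq_one _).symm)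

theorem ch_neg (u a : K → ZMod h) : ch u (-a) = conj (ch u a) := by
  simp only [ch, dotProduct_neg, AddChar.map_neg_eq_conj]

variable [DecidableEq K]

theorem sum_single (u : K → ZMod h) (k : K) :
    ∑ t : ZMod h, ch u (-Pi.single k t) = if u k = 0 then (h : ℂ) else 0 := by
  have h1 := AddChar.sum_mulShift (-u k) (ZMod.isPrimitive_stdAddChar h)
  simp only [ch, dotProduct_neg, dotProduct_single]
  simp only [neg_eq_zero, ZMod.card, mul_neg, mul_comm _ (u k)] at h1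
  rw [h1]
  split_ifs <;> simp

theorem ch_shift (u s : K → ZMod h) (g : (K → ZMod h) → ℂ) :
    ∑ a, ch u a * g (s + a) = ch u (-s) * ∑ a, ch u a * g a := by
  rw [Finset.mul_sum]
  refine Fintype.sum_equiv (Equiv.addLeft s) _ _ fun a => ?_
  rw [Equiv.coe_addLeft, ← mul_assoc, ← ch_add, neg_add_cancel_left]

theorem sum_ch {u : K → ZMod h} (hu : u ≠ 0) : ∑ a, ch u a = 0 := by
  obtain ⟨k, hk⟩ := Function.ne_iff.1 hu
  have h1 := ch_shift u (-Pi.single k 1) fun _ => 1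
  simp only [mul_one, neg_neg] at h1
  exact eq_zero_of_mul_eq_self_left (fun h2 => hk (by simpa using ch_eq_one h2)) h1.symm

theorem parseval (g : (K → ZMod h) → ℂ) :
    ∑ u, ‖∑ a, ch u a * g a‖ ^ 2 = Fintype.card (K → ZMod h) * ∑ a, ‖g a‖ ^ 2 := by
  apply Complex.ofReal_injective
  push_cast
  simp only [← Complex.mul_conj', map_sum, map_mul, ← ch_neg, Finset.sum_mul_sum]
  rw [Finset.sum_comm, Finset.mul_sum]
  refine Finset.sum_congr rfl fun a _ => ?_
  have h1 : ∀ u b, ch u a * g a * (ch u (-b) * conj (g b)) =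
      ch (a + -b) u * (g a * conj (g b)) := fun u b => by
    rw [← ch_comm u, ch_add]
    ring
  simp only [h1]
  rw [Finset.sum_comm, Finset.sum_eq_single a]
  · simp [zero_ch]
  · intro b _ hb
    rw [← Finset.sum_mul, sum_ch fun h2 => hb (add_neg_eq_zero.1 h2).symm, zero_mul]
  · simp

/-- The Fourier transform in the lamp variable. -/
def Fh {X : Type} (u : K → ZMod h) : (X × (K → ZMod h) → ℂ) →ₗ[ℂ] (X → ℂ) where
  toFun ξ x := ∑ a, ch u a * ξ (x, a)
  map_add' ξ ζ := by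
    funext x
    simp only [Pi.add_apply, mul_add, Finset.sum_add_distrib]
  map_smul' a ξ := by
    funext x
    simp only [Pi.smul_apply, smul_eq_mul, RingHom.id_apply, Finset.mul_sum, mul_left_comm a]

theorem Fh_apply {X : Type} (u : K → ZMod h) (ξ : X × (K → ZMod h) → ℂ) (x : X) :
    Fh u ξ x = ∑ a, ch u a * ξ (x, a) := rfl

theorem Fh_sq {X : Type} [Fintype X] (ξ : X × (K → ZMod h) → ℂ) :
    ∑ u, ∑ x, ‖Fh u ξ x‖ ^ 2 = Fintype.card (K → ZMod h) * ∑ z, ‖ξ z‖ ^ 2 := by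
  rw [Finset.sum_comm, Fintype.sum_prod_type, Finset.mul_sum]
  exact Finset.sum_congr rfl fun x _ => parseval fun a => ξ (x, a)

end

theorem avg_le {ι : Type} (s : Finset ι) (f : ι → ℂ) {M : ℝ} (hM : 0 ≤ M)
    (hf : ∀ i, ‖f i‖ ≤ M) {n : ℕ} (hn : s.card = n) : ‖(∑ i ∈ s, f i) / (n : ℂ)‖ ≤ M := by
  rw [norm_div, Complex.norm_natCast]
  refine div_le_of_le_mul₀ (Nat.cast_nonneg _) hM ((norm_sum_le _ _).trans ?_)
  refine (Finset.sum_le_card_nsmul _ _ M fun i _ => hf i).trans ?_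
  rw [nsmul_eq_mul, hn, mul_comm]

variable {j h : ℕ} [NeZero h] {V : Type} [Fintype V] (τ : Fin j → Equiv.Perm V)
  (W : Submodule (ZMod h) (V × Fin j → ZMod h)) (De : Set (V × ZMod 2))

/-- The edges that survive at the frequency `u`. -/
def Zu (u : LA V j h) (x : V × ZMod 2) (i : Fin j) : Prop :=
  (x ∈ De ∧ ((τ i)⁻¹ x.1, x.2 + 1) ∈ De) ∧ u ((x.1, i), x.2) = 0

theorem Fh_Mo (u : LA V j h) (ξ : (V × ZMod 2) × LA V j h → ℂ) :
    Fh u (Mo h τ De ξ) = Mz τ (Zu τ De u) (Fh u ξ) := by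
  funext x
  have hh : (h : ℂ) ≠ 0 := by exact_mod_cast NeZero.ne h
  simp only [Fh_apply, Mz_apply, Mo, LinearMap.coe_mk, AddHom.coe_mk, ← mul_div_assoc,
    Finset.mul_sum]
  rw [← Finset.sum_div, Finset.sum_comm]
  congr 1
  refine Finset.sum_congr rfl fun i _ => ?_
  by_cases h1 : x ∈ De ∧ ((τ i)⁻¹ x.1, x.2 + 1) ∈ De
  · simp only [if_pos h1, ← mul_div_assoc, Finset.mul_sum]
    rw [← Finset.sum_div, Finset.sum_comm]
    simp only [ch_shift u _ fun a => ξ (((τ i)⁻¹ x.1, x.2 + 1), a)]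
    rw [← Finset.sum_mul, sum_single]
    by_cases h2 : u ((x.1, i), x.2) = 0
    · rw [if_pos h2, if_pos ⟨h1, h2⟩, mul_div_cancel_left₀ _ hh]
    · rw [if_neg h2, if_neg fun h3 => h2 h3.2, zero_mul, zero_div]
  · rw [if_neg fun h3 => h1 h3.1]
    simp only [if_neg h1, mul_zero, Finset.sum_const_zero]

theorem Fh_pow (u : LA V j h) (ξ : (V × ZMod 2) × LA V j h → ℂ) (k : ℕ) :
    Fh u ((Mo h τ De ^ k) ξ) = (Mz τ (Zu τ De u) ^ k) (Fh u ξ) := by
  induction k with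
  | zero => rfl
  | succ k ih => rw [pow_succ', pow_succ', Module.End.mul_apply, Module.End.mul_apply, Fh_Mo, ih]

/-- The average over the points above `De`. -/
def Eo (j h : ℕ) [NeZero h] (De : Set (V × ZMod 2)) :
    Module.End ℂ ((V × ZMod 2) × LA V j h → ℂ) where
  toFun ξ z := if z.1 ∈ De then (∑ z' ∈ Dm j h De, ξ z') / (Dm j h De).card else 0
  map_add' ξ ζ := by
    funext z
    simp only [Pi.add_apply, Finset.sum_add_distrib, add_div]
    split_ifs <;> simp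
  map_smul' a ξ := by
    funext z
    simp only [Pi.smul_apply, smul_eq_mul, RingHom.id_apply, ← Finset.mul_sum, mul_div_assoc]
    split_ifs <;> simp

theorem Eo_apply (ξ : (V × ZMod 2) × LA V j h → ℂ) (z : (V × ZMod 2) × LA V j h) :
    Eo j h De ξ z = if z.1 ∈ De then (∑ z' ∈ Dm j h De, ξ z') / (Dm j h De).card else 0 := rfl

theorem Fh_Eo (u : LA V j h) (ξ : (V × ZMod 2) × LA V j h → ℂ) (x : V × ZMod 2) :
    Fh u (Eo j h De ξ) x = (∑ a, ch u a) *
      if x ∈ De then (∑ z' ∈ Dm j h De, ξ z') / (Dm j h De).card else 0 := by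
  rw [Finset.sum_mul]
  rfl

/-- The code words. -/
def Wf : Finset (LA V j h) := Finset.univ.filter fun w => ∀ e, (fun x => w (x, e)) ∈ W

theorem mem_Wf {w : LA V j h} : w ∈ Wf W ↔ ∀ e, (fun x => w (x, e)) ∈ W := by simp [Wf]

theorem Wf_pos : 0 < (Wf W).card :=
  Finset.card_pos.2 ⟨0, (mem_Wf W).2 fun _ => W.zero_mem⟩

/-- Restriction to `De` and averaging over the code. -/
def Qo : Module.End ℂ ((V × ZMod 2) × LA V j h → ℂ) where
  toFun ξ z := if z.1 ∈ De then (∑ w ∈ Wf W, ξ (z.1, w + z.2)) / (Wf W).card else 0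
  map_add' ξ ζ := by
    funext z
    simp only [Pi.add_apply, Finset.sum_add_distrib, add_div]
    split_ifs <;> simp
  map_smul' a ξ := by
    funext z
    simp only [Pi.smul_apply, smul_eq_mul, RingHom.id_apply, ← Finset.mul_sum, mul_div_assoc]
    split_ifs <;> simp

theorem Qo_apply (ξ : (V × ZMod 2) × LA V j h → ℂ) (z : (V × ZMod 2) × LA V j h) :
    Qo W De ξ z =
      if z.1 ∈ De then (∑ w ∈ Wf W, ξ (z.1, w + z.2)) / (Wf W).card else 0 := rfl

theorem Qo_inv (ξ : (V × ZMod 2) × LA V j h → ℂ) (d : V × ZMod 2) (a w : LA V j h)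
    (hw : w ∈ Wf W) : Qo W De ξ (d, w + a) = Qo W De ξ (d, a) := by
  simp only [Qo_apply]
  congr 2
  refine Finset.sum_equiv (Equiv.addRight w) (fun v => ?_) fun v _ => by
    rw [Equiv.coe_addRight, add_assoc]
  rw [mem_Wf, mem_Wf]
  exact forall_congr' fun e => (W.add_mem_iff_left ((mem_Wf W).1 hw e)).symm

theorem Qo_sq (ξ : (V × ZMod 2) × LA V j h → ℂ) :
    ∑ z, ‖Qo W De ξ z‖ ^ 2 ≤ ∑ z, ‖ξ z‖ ^ 2 := by
  have h0 : (0 : ℝ) < (Wf W).card := by exact_mod_cast Wf_pos W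
  have h1 : ∀ z, ‖Qo W De ξ z‖ ^ 2 ≤ (∑ w ∈ Wf W, ‖ξ (z.1, w + z.2)‖ ^ 2) / (Wf W).card := by
    intro z
    rw [Qo_apply]
    split_ifs
    · rw [norm_div, Complex.norm_natCast, div_pow, div_le_div_iff₀ (by positivity) h0]
      nlinarith [cs_sum (Wf W) fun w => ξ (z.1, w + z.2)]
    · rw [norm_zero, zero_pow two_ne_zero]
      positivity
  refine (Finset.sum_le_sum fun z _ => h1 z).trans ?_
  rw [← Finset.sum_div, Finset.sum_comm, div_le_iff₀ h0]
  have h2 : ∀ w : LA V j h, ∑ z : (V × ZMod 2) × LA V j h, ‖ξ (z.1, w + z.2)‖ ^ 2 =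
      ∑ z, ‖ξ z‖ ^ 2 := fun w =>
    Equiv.sum_comp ((Equiv.refl _).prodCongr (Equiv.addLeft w)) fun z => ‖ξ z‖ ^ 2
  simp only [h2]
  rw [Finset.sum_const, nsmul_eq_mul, mul_comm]

omit [Fintype V] in
theorem Mo_sup (ξ : (V × ZMod 2) × LA V j h → ℂ) {M : ℝ} (hM : 0 ≤ M) (hξ : ∀ z, ‖ξ z‖ ≤ M)
    (k : ℕ) : ∀ z, ‖(Mo h τ De ^ k) ξ z‖ ≤ M := by
  induction k with
  | zero => exact hξ
  | succ k ih =>
    intro z
    rw [pow_succ', Module.End.mul_apply]
    refine avg_le _ _ hM (fun i => ?_) (by simp)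
    split_ifs
    · exact avg_le _ _ hM (fun t => ih _) (by simp)
    · simpa using hM

theorem weight (hW : CodeOK W) {ξ : (V × ZMod 2) × LA V j h → ℂ}
    (hξ : ∀ d a, ∀ w ∈ Wf W, ξ (d, w + a) = ξ (d, a)) {u : LA V j h} (hu : u ≠ 0)
    (h0 : Fh u ξ ≠ 0) : ∃ e, Fintype.card (V × Fin j) ≤
      8 * (Finset.univ.filter fun x => u (x, e) ≠ 0).card := by
  obtain ⟨⟨y, e⟩, hy⟩ := Function.ne_iff.1 hu
  obtain ⟨d, hd⟩ := Function.ne_iff.1 h0
  refine ⟨e, ?_⟩
  have h1 := hW.2 (fun x => u (x, e)) (fun w hw => ?_) (Function.ne_iff.2 ⟨y, hy⟩)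
  · convert h1
    simp only [hammingNorm]
  set w' : LA V j h := fun k => if k.2 = e then -w k.1 else 0 with hw'
  have h2 : w' ∈ Wf W := (mem_Wf W).2 fun e' => by
    by_cases h3 : e' = e
    · simp only [hw', if_pos h3]
      exact W.neg_mem hw
    · simp only [hw', if_neg h3]
      exact W.zero_mem
  have h3 := ch_shift u w' fun a => ξ (d, a)
  simp only [hξ d _ w' h2] at h3
  have h4 : ch u (-w') = 1 := by
    by_contra h4
    exact hd (eq_zero_of_mul_eq_self_left h4 h3.symm)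
  rw [← ch_eq_one h4, dotProduct, dotProduct, Fintype.sum_prod_type (f := fun k => u k * (-w') k)]
  refine Finset.sum_congr rfl fun x _ => ?_
  rw [Finset.sum_eq_single e (fun e' _ h5 => by simp [hw', h5]) (by simp)]
  simp [hw']

theorem l2 {c δ a : ℝ} {k : ℕ} (hj : 1 ≤ j) (hc : 0 < c) (hc1 : c ≤ 1) (hg : Gap τ c)
    (hW : CodeOK W) (hδ : 0 ≤ δ) (hδ1 : δ ≤ 1) (ha : 0 ≤ a)
    (hq : ((Finset.univ.filter fun x => x ∉ De).card : ℝ) ≤ δ ^ 2 * Fintype.card V)
    (h1 : (1 - c / 1000) ^ k ≤ a ^ 2)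
    (h2 : 2 * (1 - c) ^ (2 * k) + (((2 * k : ℕ) + 1) ^ 2 + 1) * δ ≤ a)
    {ξ : (V × ZMod 2) × LA V j h → ℂ} (hξ : ∀ d a, ∀ w ∈ Wf W, ξ (d, w + a) = ξ (d, a))
    (hs : ∀ z, z.1 ∉ De → ξ z = 0) :
    ∑ z, ‖((1 / 2 : ℂ) • (Mo h τ De ^ (2 * k) + Mo h τ De ^ (2 * k + 1)) - Eo j h De) ξ z‖ ^ 2 ≤
      a ^ 2 * ∑ z, ‖ξ z‖ ^ 2 := by
  have hL : (0 : ℝ) < Fintype.card (LA V j h) := by exact_mod_cast Fintype.card_pos
  have hL' : (Fintype.card (LA V j h) : ℂ) ≠ 0 := by exact_mod_cast hL.ne'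
  refine le_of_mul_le_mul_left ?_ hL
  rw [mul_left_comm, ← Fh_sq, ← Fh_sq, Finset.mul_sum]
  refine Finset.sum_le_sum fun u _ => sq_of_N2 ?_
  rw [LinearMap.sub_apply, map_sub, LinearMap.smul_apply, LinearMap.add_apply, map_smul, map_add,
    Fh_pow, Fh_pow]
  by_cases hu : u = 0
  · subst hu
    have h3 := triv τ hδ hq hj hc hc1 hg hδ1 (Z := Zu τ De (0 : LA V j h))
      (fun x i => by simp [Zu]) (Fh 0 ξ) (fun x hx => by
        rw [Fh_apply]
        exact Finset.sum_eq_zero fun a _ => by rw [hs _ hx, mul_zero]) (2 * k)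
    refine le_trans (le_of_eq ?_) (h3.trans (mul_le_mul_of_nonneg_right h2 (N2_nn _)))
    congr 2
    funext x
    have h4 : (Dm j h De).card =
        (Finset.univ.filter fun x => x ∈ De).card * Fintype.card (LA V j h) := by
      rw [← Finset.card_univ, ← Finset.card_product]
      congr 1
      ext z
      simp [Dm]
    have h5 : ∑ z ∈ Dm j h De, ξ z = ∑ z, ξ z :=
      Finset.sum_filter_of_ne fun z _ h6 => by by_contra h7; exact h6 (hs z h7)
    rw [Fh_Eo]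
    simp only [Fh_apply, zero_ch, one_mul, Finset.sum_const, Finset.card_univ, nsmul_eq_mul,
      mul_one]
    split_ifs
    · rw [h4, h5, Fintype.sum_prod_type, Nat.cast_mul, ← mul_div_assoc, mul_comm,
        mul_div_mul_right _ _ hL']
    · rw [mul_zero]
  · have h3 : Fh u (Eo j h De ξ) = 0 := by
      funext x
      rw [Fh_Eo, sum_ch hu, zero_mul, Pi.zero_apply]
    rw [h3, sub_zero]
    by_cases h4 : Fh u ξ = 0
    · simp [h4, N2]
    obtain ⟨e, he⟩ := weight W hW hξ hu h4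
    have h5 : N2 ((Mz τ (Zu τ De u) ^ (2 * k)) (Fh u ξ)) ≤ a * N2 (Fh u ξ) :=
      N2_le ha ((Mz_pow τ hj hc hc1 hg _ e (Finset.univ.filter fun x => u (x, e) ≠ 0)
        (fun x hx h6 => (Finset.mem_filter.1 hx).2 h6.2) he k _).trans
        (mul_le_mul_of_nonneg_right h1 (Finset.sum_nonneg fun _ _ => sq_nonneg _)))
    have h6 : N2 ((Mz τ (Zu τ De u) ^ (2 * k + 1)) (Fh u ξ)) ≤ a * N2 (Fh u ξ) := by
      rw [pow_succ', Module.End.mul_apply]
      exact (Real.sqrt_le_sqrt (Mz_sq τ hj _ _)).trans h5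
    have h7 : ‖(1 / 2 : ℂ)‖ = 1 / 2 := by simp
    rw [N2_smul, h7]
    linarith [N2_add ((Mz τ (Zu τ De u) ^ (2 * k)) (Fh u ξ))
      ((Mz τ (Zu τ De u) ^ (2 * k + 1)) (Fh u ξ))]

theorem pMod : StMod := by
  intro p c ε hp hc hc1 hε
  obtain ⟨a, ha, hI⟩ := exists_interp hp two_pos hε
  obtain ⟨n, hn⟩ := exists_pow_lt_of_lt_one (lt_min (pow_pos ha 2) (show 0 < a / 4 by positivity))
    (show 1 - c / 1000 < 1 by linarith)
  have hc2 : 0 ≤ 1 - c / 1000 := by linarith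
  have hk : ∀ m, n ≤ m → (1 - c / 1000) ^ m ≤ min (a ^ 2) (a / 4) := fun m hm =>
    (pow_le_pow_of_le_one hc2 (by linarith) hm).trans hn.le
  set C : ℝ := ((2 * (n + 1) : ℕ) + 1) ^ 2 + 1 with hC
  have hC0 : 0 < C := by positivity
  set δ : ℝ := min 1 (a / (2 * C)) with hδ
  have hδ0 : 0 < δ := lt_min one_pos (by positivity)
  refine ⟨2 * (n + 1), ⌈1 / δ ^ 2⌉₊, by omega, fun j h _ V _ τ W De hj hg hW hB ξ hξ => ?_⟩
  have hq : ((Finset.univ.filter fun x => x ∉ De).card : ℝ) ≤ δ ^ 2 * Fintype.card V := by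
    rw [Nat.card_eq_fintype_card, Nat.card_eq_fintype_card, Fintype.card_subtype] at hB
    have h1 : (⌈1 / δ ^ 2⌉₊ : ℝ) * (Finset.univ.filter fun x => x ∉ De).card ≤ Fintype.card V := by
      exact_mod_cast hB
    have h2 := (mul_le_mul_of_nonneg_right (Nat.le_ceil (1 / δ ^ 2)) (Nat.cast_nonneg _)).trans h1
    rwa [one_div, inv_mul_le_iff₀ (by positivity)] at h2
  have h2 : 2 * (1 - c) ^ (2 * (n + 1)) + C * δ ≤ a := by
    have h3 : (1 - c) ^ (2 * (n + 1)) ≤ a / 4 :=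
      (pow_le_pow_left₀ (by linarith) (by linarith) _).trans
        ((hk _ (by omega)).trans (min_le_right _ _))
    have h4 : C * δ ≤ a / 2 := by
      refine (mul_le_mul_of_nonneg_left (min_le_right _ _) hC0.le).trans (le_of_eq ?_)
      field_simp
    linarith
  set ξ' : (V × ZMod 2) × LA V j h → ℂ := fun z => if z.1 ∈ De then ξ z else 0 with hξ'
  have h3 := hI _ (((1 / 2 : ℂ) • (Mo h τ De ^ (2 * (n + 1)) + Mo h τ De ^ (2 * (n + 1) + 1)) -
    Eo j h De) * Qo W De) (fun ζ => (l2 τ W De hj hc hc1 hg hW hδ0.le (min_le_left _ _) ha.le hq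
      ((hk _ (by omega)).trans (min_le_left _ _)) h2 (Qo_inv W De ζ)
      fun z hz => if_neg hz).trans (mul_le_mul_of_nonneg_left (Qo_sq W De ζ) (sq_nonneg _)))
    (fun ζ M hM z => ?_) ξ'
  · have h4 : Qo W De ξ' = ξ' := by
      funext z
      have h5 : ((Wf W).card : ℂ) ≠ 0 := by exact_mod_cast (Wf_pos W).ne'
      simp only [Qo_apply, hξ']
      split_ifs
      · rw [Finset.sum_congr rfl fun w hw => hξ z.1 z.2 w ((mem_Wf W).1 hw), Finset.sum_const,
          nsmul_eq_mul, mul_div_cancel_left₀ _ h5]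
      · rfl
    have h5 : Mo h τ De ξ' = Mo h τ De ξ := by
      funext z
      simp only [Mo, LinearMap.coe_mk, AddHom.coe_mk]
      congr 1
      refine Finset.sum_congr rfl fun i _ => ?_
      split_ifs with h6
      · simp only [hξ', if_pos h6.2]
      · rfl
    have h6 : ∀ m, (Mo h τ De ^ (m + 1)) ξ' = (Mo h τ De ^ (m + 1)) ξ := fun m => by
      rw [pow_succ, Module.End.mul_apply, Module.End.mul_apply, h5]
    have h7 : ∑ z, ‖ξ' z‖ ^ p = ∑ z ∈ Dm j h De, ‖ξ z‖ ^ p := by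
      rw [Dm, Finset.sum_filter]
      refine Finset.sum_congr rfl fun z _ => ?_
      simp only [hξ']
      split_ifs
      · rfl
      · rw [norm_zero, Real.zero_rpow (by linarith)]
    have h8 : ∑ z ∈ Dm j h De, ξ' z = ∑ z ∈ Dm j h De, ξ z :=
      Finset.sum_congr rfl fun z hz => if_pos (Finset.mem_filter.1 hz).2
    rw [h7, Module.End.mul_apply, h4] at h3
    refine le_trans (le_trans (le_of_eq (Finset.sum_congr rfl fun z hz => ?_))
      (sum_mono p (Finset.subset_univ (Dm j h De)) _)) h3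
    simp only [LinearMap.sub_apply, LinearMap.smul_apply, LinearMap.add_apply, Pi.sub_apply,
      Eo_apply, if_pos (Finset.mem_filter.1 hz).2, h8, h6, Nat.mul_succ 2 n]
  · have hM0 : 0 ≤ M := (norm_nonneg _).trans (hM z)
    have h4 : ∀ y, ‖Qo W De ζ y‖ ≤ M := fun y => by
      rw [Qo_apply]
      split_ifs
      · exact avg_le _ _ hM0 (fun _ => hM _) rfl
      · simpa using hM0
    have h5 : ‖Eo j h De (Qo W De ζ) z‖ ≤ M := by
      rw [Eo_apply]
      split_ifs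
      · exact avg_le _ _ hM0 h4 rfl
      · simpa using hM0
    have h6 := fun m => Mo_sup τ De _ hM0 h4 m z
    have h7 : ‖(1 / 2 : ℂ)‖ = 1 / 2 := by simp
    rw [Module.End.mul_apply, LinearMap.sub_apply, LinearMap.smul_apply, LinearMap.add_apply,
      Pi.sub_apply, Pi.smul_apply, Pi.add_apply]
    refine (norm_sub_le _ _).trans ?_
    rw [norm_smul, h7]
    linarith [(norm_add_le _ _).trans (add_le_add (h6 (2 * (n + 1))) (h6 (2 * (n + 1) + 1)))]

end Pool.Agent.P.MP_9167e9_an.Spec
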