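import Pool.Agent.P.MP_9167e9_an.StA

/-!
Averaging operators of the parity double cover with missing edges.
-/

noncomputable section
open scoped Classical

namespace Pool.Agent.P.MP_9167e9_an.Spec

variable {j : ℕ} {V : Type} [Fintype V] (τ : Fin j → Equiv.Perm V)

theorem sum_inv (g : V → ℝ) (i : Fin j) : ∑ v, g ((τ i)⁻¹ v) = ∑ v, g v :=
  Equiv.sum_comp (τ i)⁻¹ g

/-- The full average is a contraction. -/
theorem avg_sq (hj : 1 ≤ j) (g : V → ℝ) :
    ∑ v, ((∑ i, g ((τ i)⁻¹ v)) / j) ^ 2 ≤ ∑ v, g v ^ 2 := by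
  have hj0 : (0 : ℝ) < j := by exact_mod_cast hj
  have h1 : ∀ v, ((∑ i, g ((τ i)⁻¹ v)) / j) ^ 2 ≤ (∑ i, g ((τ i)⁻¹ v) ^ 2) / j := by
    intro v
    have := sq_sum_le_card_mul_sum_sq (s := Finset.univ) (f := fun i => g ((τ i)⁻¹ v))
    rw [Finset.card_univ, Fintype.card_fin] at this
    rw [div_pow, div_le_div_iff₀ (by positivity) hj0]
    nlinarith
  refine (Finset.sum_le_sum fun v _ => h1 v).trans ?_
  rw [← Finset.sum_div, Finset.sum_comm]
  simp only [sum_inv τ fun v => g v ^ 2]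
  rw [Finset.sum_const, Finset.card_univ, Fintype.card_fin, nsmul_eq_mul,
    mul_div_cancel_left₀ _ hj0.ne']

omit [Fintype V] in
theorem part_le (Z : V → Fin j → Prop) (f : V → ℂ) (v : V) :
    ‖(∑ i, if Z v i then f ((τ i)⁻¹ v) else 0) / (j : ℂ)‖ ≤
      (∑ i, if Z v i then ‖f ((τ i)⁻¹ v)‖ else 0) / j := by
  rw [norm_div, Complex.norm_natCast]
  refine div_le_div_of_nonneg_right ((norm_sum_le _ _).trans (Finset.sum_le_sum fun i _ => ?_))
    (by positivity)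
  split_ifs <;> simp

omit [Fintype V] in
theorem part_le' (Z : V → Fin j → Prop) (g : V → ℝ) (v : V) :
    ((∑ i, if Z v i then g ((τ i)⁻¹ v) else 0) / j) ^ 2 ≤ ((∑ i, |g ((τ i)⁻¹ v)|) / j) ^ 2 := by
  refine sq_le_sq' ?_ ?_
  · rw [← neg_div, ← Finset.sum_neg_distrib]
    refine div_le_div_of_nonneg_right (Finset.sum_le_sum fun i _ => ?_) (by positivity)
    split_ifs
    · exact neg_abs_le _
    · simp
  · refine div_le_div_of_nonneg_right (Finset.sum_le_sum fun i _ => ?_) (by positivity)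
    split_ifs
    · exact le_abs_self _
    · simp

theorem part_sq (hj : 1 ≤ j) (Z : V → Fin j → Prop) (g : V → ℝ) :
    ∑ v, ((∑ i, if Z v i then g ((τ i)⁻¹ v) else 0) / j) ^ 2 ≤ ∑ v, g v ^ 2 := by
  refine (Finset.sum_le_sum fun v _ => part_le' τ Z g v).trans ?_
  simpa only [sq_abs] using avg_sq τ hj fun v => |g v|

theorem half_sq (hj : 1 ≤ j) (Z : V → Fin j → Prop) (f : V → ℂ) :
    ∑ v, ‖(∑ i, if Z v i then f ((τ i)⁻¹ v) else 0) / (j : ℂ)‖ ^ 2 ≤ ∑ v, ‖f v‖ ^ 2 :=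
  (Finset.sum_le_sum fun v _ => pow_le_pow_left₀ (norm_nonneg _) (part_le τ Z f v) 2).trans
    (part_sq τ hj Z fun v => ‖f v‖)

theorem half_gap {c : ℝ} (hj : 1 ≤ j) (hc : 0 < c) (hc1 : c ≤ 1) (hg : Gap τ c)
    (Z : V → Fin j → Prop) (A : Finset (V × Fin j)) (hA : ∀ x ∈ A, ¬Z x.1 x.2)
    (hcard : Fintype.card (V × Fin j) ≤ 8 * A.card) (f : V → ℂ) :
    ∑ v, ‖(∑ i, if Z v i then f ((τ i)⁻¹ v) else 0) / (j : ℂ)‖ ^ 2 ≤
      (1 - c / 1000) * ∑ v, ‖f v‖ ^ 2 := by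
  refine (Finset.sum_le_sum fun v _ =>
    pow_le_pow_left₀ (norm_nonneg _) (part_le τ Z f v) 2).trans ?_
  rcases isEmpty_or_nonempty V with hV | hV
  · simp
  have hj0 : (0 : ℝ) < j := by exact_mod_cast hj
  have hn : (0 : ℝ) < Fintype.card V := by exact_mod_cast Fintype.card_pos
  set g : V → ℝ := fun v => ‖f v‖ with hgd
  have hg0 : ∀ v, 0 ≤ g v := fun v => norm_nonneg _
  set m : ℝ := (∑ v, g v) / Fintype.card V with hm
  set r : V → ℝ := fun v => g v - m with hr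
  have hr0 : ∑ v, r v = 0 := by
    simp only [hr, Finset.sum_sub_distrib, Finset.sum_const, Finset.card_univ, nsmul_eq_mul, hm]
    field_simp
    ring
  have hgr : ∀ v, g v = m + r v := fun v => by simp [hr]
  have e1 : ∑ v, g v ^ 2 = Fintype.card V * m ^ 2 + ∑ v, r v ^ 2 := by
    simp only [hgr, add_sq, Finset.sum_add_distrib, Finset.sum_const, Finset.card_univ,
      nsmul_eq_mul, ← Finset.mul_sum, hr0]
    ring
  have hR : 0 ≤ ∑ v, r v ^ 2 := Finset.sum_nonneg fun _ _ => sq_nonneg _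
  have hM : 0 ≤ Fintype.card V * m ^ 2 := by positivity
  change ∑ v, ((∑ i, if Z v i then g ((τ i)⁻¹ v) else 0) / j) ^ 2 ≤ (1 - c / 1000) * ∑ v, g v ^ 2
  have b1 : ∑ v, ((∑ i, if Z v i then g ((τ i)⁻¹ v) else 0) / j) ^ 2 ≤
      Fintype.card V * m ^ 2 + (1 - c) ^ 2 * ∑ v, r v ^ 2 := by
    refine (Finset.sum_le_sum fun v _ => part_le' τ Z g v).trans ?_
    have e2 : ∀ v, (∑ i, |g ((τ i)⁻¹ v)|) / j = m + (∑ i, r ((τ i)⁻¹ v)) / j := by
      intro v
      simp only [abs_of_nonneg (hg0 _)]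
      simp only [hgr, Finset.sum_add_distrib, Finset.sum_const, Finset.card_univ,
        Fintype.card_fin, nsmul_eq_mul]
      field_simp
    have e3 : ∑ v, (∑ i, r ((τ i)⁻¹ v)) / j = 0 := by
      rw [← Finset.sum_div, Finset.sum_comm]
      simp only [sum_inv τ r, hr0, Finset.sum_const_zero, zero_div]
    simp only [e2, add_sq, Finset.sum_add_distrib, Finset.sum_const, Finset.card_univ,
      nsmul_eq_mul, ← Finset.mul_sum, e3]
    have := hg r hr0
    linarith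
  have b2 : ∑ v, ((∑ i, if Z v i then g ((τ i)⁻¹ v) else 0) / j) ^ 2 ≤
      17 / 16 * (7 / 8 * (Fintype.card V * m ^ 2)) + 17 * ∑ v, r v ^ 2 := by
    set w : V → ℝ := fun v => (∑ i, if Z v i then (1 : ℝ) else 0) / j with hw
    have hw0 : ∀ v, 0 ≤ w v := fun v => div_nonneg (Finset.sum_nonneg fun i _ => by
      split_ifs <;> norm_num) hj0.le
    have hw1 : ∀ v, w v ≤ 1 := fun v => by
      rw [hw, div_le_one hj0]
      refine (Finset.sum_le_sum (g := fun _ => (1 : ℝ)) fun i _ => ?_).trans (by simp)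
      split_ifs <;> norm_num
    have hw2 : ∑ v, w v ≤ 7 / 8 * Fintype.card V := by
      rw [hw, ← Finset.sum_div, div_le_iff₀ hj0, ← Fintype.sum_prod_type']
      have h1 : ∑ x : V × Fin j, (if Z x.1 x.2 then (1 : ℝ) else 0) ≤
          ∑ x : V × Fin j, (1 - if x ∈ A then (1 : ℝ) else 0) := by
        refine Finset.sum_le_sum fun x _ => ?_
        by_cases h2 : x ∈ A
        · simp [h2, hA x h2]
        · simp only [h2, if_false, sub_zero]
          split_ifs <;> norm_num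
      rw [Finset.sum_sub_distrib, Finset.sum_ite_mem, Finset.univ_inter] at h1
      simp only [Finset.sum_const, Finset.card_univ, nsmul_eq_mul, mul_one] at h1
      have h2 : (Fintype.card (V × Fin j) : ℝ) ≤ 8 * A.card := by exact_mod_cast hcard
      have h3 : (Fintype.card (V × Fin j) : ℝ) = Fintype.card V * j := by simp
      nlinarith
    have e2 : ∀ v, (∑ i, if Z v i then g ((τ i)⁻¹ v) else 0) / j =
        m * w v + (∑ i, if Z v i then r ((τ i)⁻¹ v) else 0) / j := by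
      intro v
      rw [hw, ← mul_div_assoc, ← add_div, Finset.mul_sum, ← Finset.sum_add_distrib]
      congr 1
      refine Finset.sum_congr rfl fun i _ => ?_
      split_ifs
      · rw [hgr, mul_one]
      · simp
    have h3 := part_sq τ hj Z r
    have h4 : ∀ v, ((∑ i, if Z v i then g ((τ i)⁻¹ v) else 0) / j) ^ 2 ≤ 17 / 16 * m ^ 2 * w v +
        17 * ((∑ i, if Z v i then r ((τ i)⁻¹ v) else 0) / j) ^ 2 := by
      intro v
      rw [e2]
      generalize (∑ i, if Z v i then r ((τ i)⁻¹ v) else 0) / j = y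
      have h5 : (m * w v) ^ 2 ≤ m ^ 2 * w v := by
        rw [mul_pow]
        exact mul_le_mul_of_nonneg_left (by nlinarith [hw0 v, hw1 v]) (sq_nonneg _)
      nlinarith [sq_nonneg (m * w v / 4 - 4 * y)]
    refine (Finset.sum_le_sum fun v _ => h4 v).trans ?_
    rw [Finset.sum_add_distrib, ← Finset.mul_sum, ← Finset.mul_sum]
    have h5 := mul_le_mul_of_nonneg_left hw2 (show 0 ≤ 17 / 16 * m ^ 2 by positivity)
    linarith
  rw [e1]
  generalize ∑ v, r v ^ 2 = R at *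
  generalize (Fintype.card V : ℝ) * m ^ 2 = M at *
  rcases le_total (1000 * R) (M + R) with h1 | h1
  · nlinarith
  · have h2 : (1 - c) ^ 2 ≤ 1 - c := by nlinarith
    nlinarith

/-- The averaging operator of the double cover along the allowed edges. -/
def Mz (Z : V × ZMod 2 → Fin j → Prop) : Module.End ℂ (V × ZMod 2 → ℂ) where
  toFun η x := (∑ i, if Z x i then η ((τ i)⁻¹ x.1, x.2 + 1) else 0) / j
  map_add' ξ ζ := by
    funext z
    simp only [Pi.add_apply, ← add_div, ← Finset.sum_add_distrib]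
    congr 1
    refine Finset.sum_congr rfl fun s _ => ?_
    split_ifs <;> simp
  map_smul' a ξ := by
    funext z
    simp only [Pi.smul_apply, smul_eq_mul, RingHom.id_apply, ← mul_div_assoc, Finset.mul_sum]
    congr 1
    refine Finset.sum_congr rfl fun s _ => ?_
    split_ifs <;> simp

omit [Fintype V] in
theorem Mz_apply (Z : V × ZMod 2 → Fin j → Prop) (η : V × ZMod 2 → ℂ) (x : V × ZMod 2) :
    Mz τ Z η x = (∑ i, if Z x i then η ((τ i)⁻¹ x.1, x.2 + 1) else 0) / j := rfl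

theorem sum_par {M : Type} [AddCommMonoid M] (e : ZMod 2) (g : V × ZMod 2 → M) :
    ∑ x, g x = ∑ v, g (v, e) + ∑ v, g (v, e + 1) := by
  rw [Fintype.sum_prod_type, ← Finset.sum_add_distrib]
  refine Finset.sum_congr rfl fun v _ => ?_
  have h1 : (Finset.univ : Finset (ZMod 2)) = {e, e + 1} := by revert e; decide
  have h2 : e ≠ e + 1 := by revert e; decide
  rw [h1, Finset.sum_pair h2]

theorem par2 (e : ZMod 2) : e + 1 + 1 = e := by revert e; decide

theorem Mz_sq (hj : 1 ≤ j) (Z : V × ZMod 2 → Fin j → Prop) (η : V × ZMod 2 → ℂ) :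
    ∑ x, ‖Mz τ Z η x‖ ^ 2 ≤ ∑ x, ‖η x‖ ^ 2 := by
  rw [sum_par 0, sum_par (0 + 1) fun x => ‖η x‖ ^ 2]
  exact add_le_add (half_sq τ hj (fun v i => Z (v, 0) i) fun v => η (v, 0 + 1))
    (half_sq τ hj (fun v i => Z (v, 0 + 1) i) fun v => η (v, 0 + 1 + 1))

theorem Mz_gap {c : ℝ} (hj : 1 ≤ j) (hc : 0 < c) (hc1 : c ≤ 1) (hg : Gap τ c)
    (Z : V × ZMod 2 → Fin j → Prop) (e : ZMod 2) (A : Finset (V × Fin j))
    (hA : ∀ x ∈ A, ¬Z (x.1, e) x.2) (hcard : Fintype.card (V × Fin j) ≤ 8 * A.card)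
    (η : V × ZMod 2 → ℂ) :
    ∑ x, ‖Mz τ Z (Mz τ Z η) x‖ ^ 2 ≤ (1 - c / 1000) * ∑ x, ‖η x‖ ^ 2 := by
  have h1 : ∀ η : V × ZMod 2 → ℂ, ∑ v, ‖Mz τ Z η (v, e)‖ ^ 2 ≤
      (1 - c / 1000) * ∑ v, ‖η (v, e + 1)‖ ^ 2 := fun η =>
    half_gap τ hj hc hc1 hg (fun v i => Z (v, e) i) A hA hcard fun v => η (v, e + 1)
  have h2 : ∀ η : V × ZMod 2 → ℂ, ∑ v, ‖Mz τ Z η (v, e + 1)‖ ^ 2 ≤ ∑ v, ‖η (v, e)‖ ^ 2 := fun η => by
    have := half_sq τ hj (fun v i => Z (v, e + 1) i) fun v => η (v, e + 1 + 1)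
    conv_rhs => rw [← par2 e]
    exact this
  rw [sum_par e, sum_par e fun x => ‖η x‖ ^ 2, mul_add]
  exact add_le_add ((h1 _).trans (mul_le_mul_of_nonneg_left (h2 _) (by linarith)))
    ((h2 _).trans (h1 _))

theorem Mz_pow {c : ℝ} (hj : 1 ≤ j) (hc : 0 < c) (hc1 : c ≤ 1) (hg : Gap τ c)
    (Z : V × ZMod 2 → Fin j → Prop) (e : ZMod 2) (A : Finset (V × Fin j))
    (hA : ∀ x ∈ A, ¬Z (x.1, e) x.2) (hcard : Fintype.card (V × Fin j) ≤ 8 * A.card) (k : ℕ)
    (η : V × ZMod 2 → ℂ) :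
    ∑ x, ‖(Mz τ Z ^ (2 * k)) η x‖ ^ 2 ≤ (1 - c / 1000) ^ k * ∑ x, ‖η x‖ ^ 2 := by
  induction k with
  | zero => simp
  | succ k ih =>
    rw [Nat.mul_succ, pow_succ', pow_succ', Module.End.mul_apply, Module.End.mul_apply,
      pow_succ', mul_assoc]
    exact (Mz_gap τ hj hc hc1 hg Z e A hA hcard _).trans
      (mul_le_mul_of_nonneg_left ih (by linarith))

end Pool.Agent.P.MP_9167e9_an.Spec
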