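import Pool.Agent.P.MP_9167e9_an.Spec.Four
import Pool.Agent.P.MP_9167e9_an.Spec.Asm

/-!
The module SPEC.
-/

namespace Pool.Agent.P.MP_9167e9_an

theorem pSpec : StSpec := Spec.spec_of_blk (Spec.blk_of_mod Spec.pMod)

end Pool.Agent.P.MP_9167e9_an
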