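import Pool.Agent.P.MP_9167e9_an.Spec.StB

/-!
Calculus of the bounds `PB`.
-/

noncomputable section
open scoped Classical ENNReal

namespace Pool.Agent.P.MP_9167e9_an.Spec

variable {Z : Type} {p : ℝ} {K K' : (Z → ℂ) → Z → ℂ} {L L' : ℝ}

/-- The `p`-norm on a finite set. -/
def nF (p : ℝ) (F : Finset Z) (ξ : Z → ℂ) : ℝ := (∑ z ∈ F, ‖ξ z‖ ^ p) ^ (1 / p)

theorem sum_nn (p : ℝ) (F : Finset Z) (ξ : Z → ℂ) : 0 ≤ ∑ z ∈ F, ‖ξ z‖ ^ p :=
  Finset.sum_nonneg fun _ _ => by positivity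

theorem sum_mono (p : ℝ) {F F' : Finset Z} (h : F ⊆ F') (ξ : Z → ℂ) :
    ∑ z ∈ F, ‖ξ z‖ ^ p ≤ ∑ z ∈ F', ‖ξ z‖ ^ p :=
  Finset.sum_le_sum_of_subset_of_nonneg h fun _ _ _ => by positivity

theorem nF_nonneg (p : ℝ) (F : Finset Z) (ξ : Z → ℂ) : 0 ≤ nF p F ξ :=
  Real.rpow_nonneg (sum_nn p F ξ) _

theorem nF_rpow (hp : 0 < p) (F : Finset Z) (ξ : Z → ℂ) :
    nF p F ξ ^ p = ∑ z ∈ F, ‖ξ z‖ ^ p := by
  rw [nF, ← Real.rpow_mul (sum_nn p F ξ), one_div, inv_mul_cancel₀ hp.ne', Real.rpow_one]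

theorem nF_mono (hp : 0 < p) {F F' : Finset Z} (h : F ⊆ F') (ξ : Z → ℂ) :
    nF p F ξ ≤ nF p F' ξ :=
  Real.rpow_le_rpow (sum_nn p F ξ) (sum_mono p h ξ) (by positivity)

theorem nF_add (hp : 1 ≤ p) (F : Finset Z) (ξ ζ : Z → ℂ) :
    nF p F (fun z => ξ z + ζ z) ≤ nF p F ξ + nF p F ζ := by
  refine le_trans ?_ (Real.Lp_add_le_of_nonneg F (f := fun z => ‖ξ z‖) (g := fun z => ‖ζ z‖) hp
    (fun _ _ => norm_nonneg _) fun _ _ => norm_nonneg _)
  refine Real.rpow_le_rpow (sum_nn p F _) (Finset.sum_le_sum fun z _ => ?_) (by positivity)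
  exact Real.rpow_le_rpow (norm_nonneg _) (norm_add_le _ _) (by positivity)

theorem pb_iff (hp : 0 < p) (hL : 0 ≤ L) :
    PB p K L ↔ ∀ ξ F, ∃ F', nF p F (K ξ) ≤ L * nF p F' ξ := by
  refine forall_congr' fun ξ => forall_congr' fun F => exists_congr fun F' => ?_
  rw [← nF_rpow hp, ← nF_rpow hp, ← Real.mul_rpow hL (nF_nonneg _ _ _),
    Real.rpow_le_rpow_iff (nF_nonneg _ _ _) (mul_nonneg hL (nF_nonneg _ _ _)) hp]

theorem PB.congr (h : PB p K L) (e : ∀ ξ z, K' ξ z = K ξ z) : PB p K' L := by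
  have : K' = K := by funext ξ z; exact e ξ z
  rwa [this]

theorem PB.mono (hp : 0 < p) (hL : 0 ≤ L) (h : PB p K L) (hL' : L ≤ L') : PB p K L' := by
  intro ξ F
  obtain ⟨F', h1⟩ := h ξ F
  exact ⟨F', h1.trans (mul_le_mul_of_nonneg_right (Real.rpow_le_rpow hL hL' hp.le) (sum_nn _ _ _))⟩

theorem PB.add (hp : 1 ≤ p) (hL : 0 ≤ L) (hL' : 0 ≤ L') (h : PB p K L) (h' : PB p K' L') :
    PB p (fun ξ z => K ξ z + K' ξ z) (L + L') := by
  have hp0 : 0 < p := by linarith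
  rw [pb_iff hp0 (by positivity)]
  rw [pb_iff hp0 hL] at h
  rw [pb_iff hp0 hL'] at h'
  intro ξ F
  obtain ⟨F1, h1⟩ := h ξ F
  obtain ⟨F2, h2⟩ := h' ξ F
  refine ⟨F1 ∪ F2, (nF_add hp F _ _).trans ?_⟩
  have h3 := mul_le_mul_of_nonneg_left (nF_mono hp0 (Finset.subset_union_left (s₂ := F2)) ξ
    (F := F1)) hL
  have h4 := mul_le_mul_of_nonneg_left (nF_mono hp0 (Finset.subset_union_right (s₁ := F1)) ξ
    (F := F2)) hL'
  linarith

theorem PB.comp (hL : 0 ≤ L) (hL' : 0 ≤ L') (h : PB p K L) (h' : PB p K' L') :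
    PB p (fun ξ => K (K' ξ)) (L * L') := by
  intro ξ F
  obtain ⟨F1, h1⟩ := h (K' ξ) F
  obtain ⟨F2, h2⟩ := h' ξ F1
  refine ⟨F2, h1.trans ?_⟩
  rw [Real.mul_rpow hL hL', mul_assoc]
  exact mul_le_mul_of_nonneg_left h2 (by positivity)

theorem PB.smul (hL : 0 ≤ L) (a : ℂ) (h : PB p K L) :
    PB p (fun ξ z => a * K ξ z) (‖a‖ * L) := by
  intro ξ F
  obtain ⟨F1, h1⟩ := h ξ F
  refine ⟨F1, ?_⟩
  simp only [norm_mul]
  rw [Real.mul_rpow (norm_nonneg a) hL, mul_assoc]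
  simp only [Real.mul_rpow (norm_nonneg a) (norm_nonneg _), ← Finset.mul_sum]
  exact mul_le_mul_of_nonneg_left h1 (by positivity)

theorem pb_id : PB p (fun ξ : Z → ℂ => ξ) 1 := fun _ F => ⟨F, by simp⟩

theorem pb_zero (hp : 0 < p) : PB p (fun (_ : Z → ℂ) (_ : Z) => (0 : ℂ)) 0 := fun _ F =>
  ⟨F, by simp [Real.zero_rpow hp.ne']⟩

theorem PB.pow {A : Module.End ℂ (Z → ℂ)} (hL : 0 ≤ L) (h : PB p (fun ξ => A ξ) L) (n : ℕ) :
    PB p (fun ξ => (A ^ n) ξ) (L ^ n) := by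
  induction n with
  | zero => simpa using pb_id
  | succ n ih =>
    rw [pow_succ' L]
    exact (h.comp hL (by positivity) ih).congr fun ξ z => by rw [pow_succ']; rfl

/-- Perturbation of powers of a contraction. -/
theorem PB.pow_sub (hp : 1 ≤ p) {A D : Module.End ℂ (Z → ℂ)} {e : ℝ} (he : 0 ≤ e)
    (hA : PB p (fun ξ => A ξ) 1) (hD : PB p (fun ξ => D ξ) e) (n : ℕ) :
    PB p (fun ξ => ((A + D) ^ n - A ^ n) ξ) ((1 + e) ^ n - 1) := by
  have hp0 : 0 < p := by linarith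
  induction n with
  | zero => exact (by simpa using pb_zero hp0 : PB p (fun (_ : Z → ℂ) (_ : Z) => (0 : ℂ))
      ((1 + e) ^ 0 - 1)).congr fun ξ z => by simp
  | succ n ih =>
    have h0 : 0 ≤ (1 + e) ^ n - 1 := by
      have := one_le_pow₀ (n := n) (show (1 : ℝ) ≤ 1 + e by linarith)
      linarith
    have h1 := (PB.add hp zero_le_one he hA hD).comp (by positivity) h0 ih
    have h2 := hD.comp he (by positivity) (hA.pow zero_le_one n)
    have h3 := PB.add hp (by positivity) (by positivity) h1 h2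
    have e1 : (1 + e) * ((1 + e) ^ n - 1) + e * 1 ^ n = (1 + e) ^ (n + 1) - 1 := by
      rw [one_pow]; ring
    rw [e1] at h3
    refine h3.congr fun ξ z => ?_
    have e2 : (A + D) ^ (n + 1) - A ^ (n + 1) = (A + D) * ((A + D) ^ n - A ^ n) + D * A ^ n := by
      rw [pow_succ', pow_succ', mul_sub, add_mul A D (A ^ n)]; abel
    rw [e2]
    simp only [LinearMap.add_apply, Module.End.mul_apply, Pi.add_apply]

/-- From `PB` to the operator norm. -/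
theorem PB.opNorm {G : Type} {q : ℝ≥0∞} [Fact (1 ≤ q)] (hq : q ≠ ∞) (e : G ≃ Z) (hL : 0 ≤ L)
    (h : PB q.toReal K L) (T : Op G q)
    (hT : ∀ (ξ : Lq G q) (g : G), T ξ g = K (fun z => ξ (e.symm z)) (e g)) : ‖T‖ ≤ L := by
  have hq0 : 0 < q.toReal := ENNReal.toReal_pos (by
    have := (Fact.out : 1 ≤ q)
    intro h0
    simp [h0] at this) hq
  refine ContinuousLinearMap.opNorm_le_bound T hL fun ξ => ?_
  refine lp.norm_le_of_forall_sum_le hq0 (by positivity) fun s => ?_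
  obtain ⟨F', h1⟩ := h (fun z => ξ (e.symm z)) (s.map e.toEmbedding)
  rw [Finset.sum_map] at h1
  have h2 := lp.sum_rpow_le_norm_rpow hq0 ξ (F'.map e.symm.toEmbedding)
  rw [Finset.sum_map] at h2
  rw [Real.mul_rpow hL (norm_nonneg _)]
  simp only [hT]
  exact h1.trans (mul_le_mul_of_nonneg_left h2 (by positivity))

end Pool.Agent.P.MP_9167e9_an.Spec
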