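import Pool.Agent.P.MP_9167e9_an.StA

/-!
Interface of the block part of SPEC: the operator along the edges inside the blocks, acting on all
functions on `Γ × N`.
-/

noncomputable section
open scoped Classical

namespace Pool.Agent.P.MP_9167e9_an.Spec

/-- The part of `a` along the directed edges `(γ, s)` (target `γ`, label `s`) with `P γ s`. -/
def aP {h : ℕ} [NeZero h] {S Γ N : Type} [Fintype S] [Group N] (mv : S → Equiv.Perm Γ)
    (lamp : Γ → S → Multiplicative (ZMod h) →* N) (P : Γ → S → Prop) :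
    Module.End ℂ (Γ × N → ℂ) where
  toFun ξ z := ∑ s, if P z.1 s then
    (∑ t : ZMod h, ξ ((mv s)⁻¹ z.1, lamp z.1 s (Multiplicative.ofAdd t) * z.2)) / h else 0
  map_add' ξ ζ := by
    funext z
    simp only [Pi.add_apply, ← Finset.sum_add_distrib]
    refine Finset.sum_congr rfl fun s _ => ?_
    split_ifs
    · rw [Finset.sum_add_distrib, add_div]
    · simp
  map_smul' a ξ := by
    funext z
    simp only [Pi.smul_apply, smul_eq_mul, RingHom.id_apply, Finset.mul_sum]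
    refine Finset.sum_congr rfl fun s _ => ?_
    split_ifs
    · rw [← Finset.mul_sum, mul_div_assoc]
    · simp

/-- The edge `(γ, s)` runs inside a block. -/
def IsB {j h : ℕ} {S Γ N I : Type} [Group N] {slot : S → Fin j} {mv : S → Equiv.Perm Γ}
    {lamp : Γ → S → Multiplicative (ZMod h) →* N} {c : ℝ} {B : ℕ}
    (b : I → Blk slot mv lamp c B) (γ : Γ) (s : S) : Prop :=
  ∃ β v i x, (v, x) ∈ (b β).De ∧ (((b β).τ i)⁻¹ v, x + 1) ∈ (b β).De ∧
    γ = (b β).pos (v, x) ∧ s = (b β).lab v i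

/-- `K` has norm at most `Λ` on `ℓ^p`, tested on finite sums. -/
def PB {Z : Type} (p : ℝ) (K : (Z → ℂ) → Z → ℂ) (Λ : ℝ) : Prop :=
  ∀ (ξ : Z → ℂ) (F : Finset Z), ∃ F' : Finset Z,
    ∑ z ∈ F, ‖K ξ z‖ ^ p ≤ Λ ^ p * ∑ z ∈ F', ‖ξ z‖ ^ p

/-- `a_B / j` is a contraction of `ℓ^p`, and `((a_B/j)^T + (a_B/j)^(T+1)) / 2` is close to the
averaging operator over the blocks. -/
def StBlk : Prop :=
  ∀ p c ε : ℝ, 2 ≤ p → 0 < c → c ≤ 1 → 0 < ε →
    ∃ T B : ℕ, ∀ (j h : ℕ) [NeZero h] (S Γ N : Type) [Fintype S] [Group N]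
      (slot : S → Fin j) (mv : S → Equiv.Perm Γ) (lamp : Γ → S → Multiplicative (ZMod h) →* N)
      (I : Type) (b : I → Blk slot mv lamp c B) (blk : Γ × N → Finset (Γ × N)),
      1 ≤ j →
      (∀ β β' d d', d ∈ (b β).De → d' ∈ (b β').De → (b β).pos d = (b β').pos d' → β = β') →
      (∀ z z', z' ∈ blk z ↔ ∃ β, ∃ d ∈ (b β).De, ∃ d' ∈ (b β).De, z.1 = (b β).pos d ∧
        z'.1 = (b β).pos d' ∧ ∃ a, z'.2 = (b β).ψ a * z.2) →
      PB p (fun ξ => ((1 / j : ℂ) • aP mv lamp (IsB b)) ξ) 1 ∧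
      PB p (fun ξ z => ((1 / 2 : ℂ) • (((1 / j : ℂ) • aP mv lamp (IsB b)) ^ T +
          ((1 / j : ℂ) • aP mv lamp (IsB b)) ^ (T + 1))) ξ z -
        (∑ z' ∈ blk z, ξ z') / (blk z).card) ε

end Pool.Agent.P.MP_9167e9_an.Spec
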