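import Pool.Agent.P.MP_9167e9_an.Spec.Gap

/-!
The averaging operator of the parity double cover restricted to a large subset.
-/

noncomputable section
open scoped Classical

namespace Pool.Agent.P.MP_9167e9_an.Spec

/-- The Euclidean norm. -/
def N2 {Ω : Type} [Fintype Ω] (η : Ω → ℂ) : ℝ := √(∑ x, ‖η x‖ ^ 2)

section
variable {Ω : Type} [Fintype Ω]

theorem N2_nn (η : Ω → ℂ) : 0 ≤ N2 η := Real.sqrt_nonneg _

theorem N2_sq (η : Ω → ℂ) : N2 η ^ 2 = ∑ x, ‖η x‖ ^ 2 :=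
  Real.sq_sqrt (Finset.sum_nonneg fun _ _ => sq_nonneg _)

theorem N2_eq (η : Ω → ℂ) : N2 η = ‖(WithLp.toLp 2 η : EuclideanSpace ℂ Ω)‖ := by
  rw [EuclideanSpace.norm_eq]
  rfl

theorem N2_add (η ζ : Ω → ℂ) : N2 (η + ζ) ≤ N2 η + N2 ζ := by
  simp only [N2_eq, WithLp.toLp_add]
  exact norm_add_le _ _

theorem N2_sub (η ζ : Ω → ℂ) : N2 (η - ζ) ≤ N2 η + N2 ζ := by
  simp only [N2_eq, WithLp.toLp_sub]
  exact norm_sub_le _ _

theorem N2_smul (a : ℂ) (η : Ω → ℂ) : N2 (a • η) = ‖a‖ * N2 η := by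
  simp only [N2_eq, WithLp.toLp_smul, norm_smul]

theorem N2_le {η ζ : Ω → ℂ} {L : ℝ} (hL : 0 ≤ L)
    (h : ∑ x, ‖η x‖ ^ 2 ≤ L ^ 2 * ∑ x, ‖ζ x‖ ^ 2) : N2 η ≤ L * N2 ζ := by
  refine (pow_le_pow_iff_left₀ (N2_nn _) (mul_nonneg hL (N2_nn _)) two_ne_zero).1 ?_
  rwa [mul_pow, N2_sq, N2_sq]

theorem sq_of_N2 {η ζ : Ω → ℂ} {L : ℝ} (h : N2 η ≤ L * N2 ζ) :
    ∑ x, ‖η x‖ ^ 2 ≤ L ^ 2 * ∑ x, ‖ζ x‖ ^ 2 := by
  rw [← N2_sq, ← N2_sq, ← mul_pow]
  exact pow_le_pow_left₀ (N2_nn _) h 2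

omit [Fintype Ω] in
theorem cs_sum (s : Finset Ω) (f : Ω → ℂ) :
    ‖∑ x ∈ s, f x‖ ^ 2 ≤ s.card * ∑ x ∈ s, ‖f x‖ ^ 2 :=
  (pow_le_pow_left₀ (norm_nonneg _) (norm_sum_le _ _) 2).trans sq_sum_le_card_mul_sum_sq

end

variable {j : ℕ} {V : Type} [Fintype V] (τ : Fin j → Equiv.Perm V)

theorem gap_c {c : ℝ} (hg : Gap τ c) (f : V → ℂ) (hf : ∑ v, f v = 0) :
    ∑ v, ‖(∑ i, f ((τ i)⁻¹ v)) / (j : ℂ)‖ ^ 2 ≤ (1 - c) ^ 2 * ∑ v, ‖f v‖ ^ 2 := by
  have h1 := hg (fun v => (f v).re) (by rw [← Complex.re_sum, hf]; simp)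
  have h2 := hg (fun v => (f v).im) (by rw [← Complex.im_sum, hf]; simp)
  simp only [Complex.sq_norm, Complex.normSq_apply, Complex.div_natCast_re,
    Complex.div_natCast_im, Complex.re_sum, Complex.im_sum, ← sq, Finset.sum_add_distrib, mul_add]
  exact add_le_add h1 h2

/-- The means over the two sheets. -/
def Pm (V : Type) [Fintype V] : Module.End ℂ (V × ZMod 2 → ℂ) where
  toFun η x := (∑ v, η (v, x.2)) / Fintype.card V
  map_add' ξ ζ := by
    funext z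
    simp only [Pi.add_apply, ← add_div, ← Finset.sum_add_distrib]
  map_smul' a ξ := by
    funext z
    simp only [Pi.smul_apply, smul_eq_mul, RingHom.id_apply, ← mul_div_assoc, Finset.mul_sum]

theorem Pm_apply (η : V × ZMod 2 → ℂ) (x : V × ZMod 2) :
    Pm V η x = (∑ v, η (v, x.2)) / Fintype.card V := rfl

theorem Pm_Pm (η : V × ZMod 2 → ℂ) : Pm V (Pm V η) = Pm V η := by
  funext x
  have : Nonempty V := ⟨x.1⟩
  have hn : (Fintype.card V : ℂ) ≠ 0 := by exact_mod_cast Fintype.card_ne_zero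
  simp only [Pm_apply, Finset.sum_const, Finset.card_univ, nsmul_eq_mul]
  field_simp

/-- The full averaging operator. -/
abbrev Pf : Module.End ℂ (V × ZMod 2 → ℂ) := Mz τ fun _ _ => True

theorem Pm_Pf (hj : 1 ≤ j) (η : V × ZMod 2 → ℂ) : Pm V (Pf τ η) = Pf τ (Pm V η) := by
  funext x
  have hj0 : (j : ℂ) ≠ 0 := by exact_mod_cast (by omega : j ≠ 0)
  simp only [Pm_apply, Mz_apply, if_true]
  rw [← Finset.sum_div, Finset.sum_comm, ← Finset.sum_div, div_right_comm]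
  congr 2
  exact Finset.sum_congr rfl fun i _ => Equiv.sum_comp (τ i)⁻¹ fun v => η (v, x.2 + 1)

theorem Pf_Pm (hj : 1 ≤ j) (η : V × ZMod 2 → ℂ) (x : V × ZMod 2) :
    Pf τ (Pm V η) x = Pm V η (x.1, x.2 + 1) := by
  have hj0 : (j : ℂ) ≠ 0 := by exact_mod_cast (by omega : j ≠ 0)
  simp only [Pm_apply, Mz_apply, if_true, Finset.sum_const, Finset.card_univ, Fintype.card_fin,
    nsmul_eq_mul]
  field_simp

theorem Pf_pow (hj : 1 ≤ j) (η : V × ZMod 2 → ℂ) (k : ℕ) (x : V × ZMod 2) :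
    (Pf τ ^ k) (Pm V η) x = Pm V η (x.1, x.2 + k) := by
  induction k generalizing η with
  | zero => simp
  | succ k ih =>
    rw [pow_succ, Module.End.mul_apply, ← Pm_Pf τ hj, ih, Pm_Pf τ hj, Pf_Pm τ hj,
      Nat.cast_succ, add_assoc]

theorem N2_gap {c : ℝ} (hc1 : c ≤ 1) (hg : Gap τ c) (η : V × ZMod 2 → ℂ) (h0 : Pm V η = 0) :
    N2 (Pf τ η) ≤ (1 - c) * N2 η := by
  refine N2_le (by linarith) ?_
  rcases isEmpty_or_nonempty V with hV | ⟨⟨v0⟩⟩
  · simp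
  have : Nonempty V := ⟨v0⟩
  have hn : (Fintype.card V : ℂ) ≠ 0 := by exact_mod_cast Fintype.card_ne_zero
  have h1 : ∀ e, ∑ v, η (v, e) = 0 := fun e =>
    (div_eq_zero_iff.1 (congrFun h0 (v0, e))).resolve_right hn
  rw [sum_par 0, sum_par (0 + 1) fun x => ‖η x‖ ^ 2, mul_add]
  simp only [Mz_apply, if_true]
  exact add_le_add (gap_c τ hg (fun v => η (v, 0 + 1)) (h1 _))
    (gap_c τ hg (fun v => η (v, 0 + 1 + 1)) (h1 _))

/-- Means of a function supported on a set `s`. -/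
theorem Pm_supp (s : Finset (V × ZMod 2)) (η : V × ZMod 2 → ℂ) (q : ℝ)
    (hs : ∀ x ∉ s, η x = 0) (hq : ∀ e, ((Finset.univ.filter fun v => (v, e) ∈ s).card : ℝ) ≤
      q * Fintype.card V) : ∑ x, ‖Pm V η x‖ ^ 2 ≤ q * ∑ x, ‖η x‖ ^ 2 := by
  rcases isEmpty_or_nonempty V with hV | hV
  · simp
  have hn : (0 : ℝ) < Fintype.card V := by exact_mod_cast Fintype.card_pos
  have h1 : ∀ e, ∑ v, ‖Pm V η (v, e)‖ ^ 2 ≤ q * ∑ v, ‖η (v, e)‖ ^ 2 := by
    intro e
    simp only [Pm_apply, Finset.sum_const, Finset.card_univ, nsmul_eq_mul, norm_div,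
      Complex.norm_natCast, div_pow]
    have h2 : ∑ v, η (v, e) = ∑ v ∈ Finset.univ.filter fun v => (v, e) ∈ s, η (v, e) :=
      (Finset.sum_filter_of_ne fun v _ h => by by_contra h'; exact h (hs _ h')).symm
    have h3 := cs_sum (Finset.univ.filter fun v => (v, e) ∈ s) fun v => η (v, e)
    have h4 : ∑ v ∈ Finset.univ.filter fun v => (v, e) ∈ s, ‖η (v, e)‖ ^ 2 ≤ ∑ v, ‖η (v, e)‖ ^ 2 :=
      Finset.sum_le_sum_of_subset_of_nonneg (Finset.subset_univ _) fun _ _ _ => sq_nonneg _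
    have h5 := mul_le_mul (hq e) h4 (Finset.sum_nonneg fun _ _ => sq_nonneg _)
      ((Nat.cast_nonneg _).trans (hq e))
    rw [← h2] at h3
    rw [← mul_div_assoc, div_le_iff₀ (by positivity)]
    nlinarith
  rw [sum_par 0, sum_par 0 fun x => ‖η x‖ ^ 2, mul_add]
  exact add_le_add (h1 _) (h1 _)

theorem N2_Pm (η : V × ZMod 2 → ℂ) : N2 (Pm V η) ≤ N2 η := by
  have := N2_le (η := Pm V η) (ζ := η) zero_le_one
    (by simpa using Pm_supp Finset.univ η 1 (by simp) (by simp))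
  rwa [one_mul] at this

theorem card_sheet (s : Finset (V × ZMod 2)) (e : ZMod 2) :
    (Finset.univ.filter fun v => (v, e) ∈ s).card ≤ s.card :=
  Finset.card_le_card_of_injOn (fun v => (v, e)) (fun _ h => (Finset.mem_filter.1 h).2)
    fun _ _ _ _ h => (Prod.mk.inj h).1

/-- The part of a function outside `De`. -/
def Ro (De : Set (V × ZMod 2)) (η : V × ZMod 2 → ℂ) (x : V × ZMod 2) : ℂ :=
  if x ∈ De then 0 else η x

theorem N2_cut (De : Set (V × ZMod 2)) (η : V × ZMod 2 → ℂ) : N2 (η - Ro De η) ≤ N2 η := by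
  refine Real.sqrt_le_sqrt (Finset.sum_le_sum fun x _ => ?_)
  simp only [Ro, Pi.sub_apply]
  split_ifs <;> simp

variable {De : Set (V × ZMod 2)} {δ : ℝ} (hδ : 0 ≤ δ)
  (hq : ((Finset.univ.filter fun x => x ∉ De).card : ℝ) ≤ δ ^ 2 * Fintype.card V)
include hδ hq

theorem N2_Pm_Ro (η : V × ZMod 2 → ℂ) : N2 (Pm V (Ro De η)) ≤ δ * N2 η := by
  refine N2_le hδ ((Pm_supp (Finset.univ.filter fun x => x ∉ De) _ _ (fun x hx => ?_)
    fun e => le_trans (Nat.cast_le.2 (card_sheet _ e)) hq).trans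
    (mul_le_mul_of_nonneg_left (Finset.sum_le_sum fun x _ => ?_) (sq_nonneg _)))
  · exact if_pos (by simpa using hx)
  · simp only [Ro]
    split_ifs <;> simp

theorem N2_Ro_cst (m : ZMod 2 → ℂ) :
    N2 (Ro De fun x => m x.2) ≤ δ * N2 fun x : V × ZMod 2 => m x.2 := by
  refine N2_le hδ ?_
  have h1 : ∀ e, ∑ v, ‖Ro De (fun x => m x.2) (v, e)‖ ^ 2 ≤ δ ^ 2 * ∑ _v : V, ‖m e‖ ^ 2 := by
    intro e
    have h2 : ∀ v, ‖Ro De (fun x => m x.2) (v, e)‖ ^ 2 =
        if (v, e) ∈ Finset.univ.filter fun x => x ∉ De then ‖m e‖ ^ 2 else 0 := by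
      intro v
      by_cases h : (v, e) ∈ De <;> simp [Ro, h]
    simp only [h2]
    rw [← Finset.sum_filter, Finset.sum_const, Finset.sum_const, nsmul_eq_mul, nsmul_eq_mul,
      Finset.card_univ, ← mul_assoc]
    exact mul_le_mul_of_nonneg_right (le_trans (Nat.cast_le.2 (card_sheet _ e)) hq)
      (sq_nonneg _)
  rw [sum_par 0, sum_par 0 fun x : V × ZMod 2 => ‖m x.2‖ ^ 2, mul_add]
  exact add_le_add (h1 _) (h1 _)

theorem orbit {c : ℝ} (hj : 1 ≤ j) (hc : 0 < c) (hc1 : c ≤ 1) (hg : Gap τ c)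
    {Z : V × ZMod 2 → Fin j → Prop}
    (hZ : ∀ x i, Z x i ↔ x ∈ De ∧ ((τ i)⁻¹ x.1, x.2 + 1) ∈ De) (η : V × ZMod 2 → ℂ)
    (hη : ∀ x ∉ De, η x = 0) (k : ℕ) :
    N2 ((Mz τ Z ^ k) η - (Pf τ ^ k) (Pm V η)) ≤ (2 * (1 - c) ^ k + k ^ 2 * δ) * N2 η := by
  have hP : ∀ ζ, N2 (Pf τ ζ) ≤ N2 ζ := fun ζ => Real.sqrt_le_sqrt (Mz_sq τ hj _ ζ)
  have h0 := N2_nn η
  have hs : ∀ k, ∀ x ∉ De, (Mz τ Z ^ k) η x = 0 := by
    intro k x hx
    cases k with
    | zero => exact hη x hx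
    | succ k =>
      rw [pow_succ', Module.End.mul_apply, Mz_apply, Finset.sum_eq_zero, zero_div]
      exact fun i _ => if_neg fun h => hx ((hZ x i).1 h).1
  have hst : ∀ k, (Mz τ Z ^ (k + 1)) η =
      Pf τ ((Mz τ Z ^ k) η) - Ro De (Pf τ ((Mz τ Z ^ k) η)) := by
    intro k
    funext x
    by_cases hx : x ∈ De
    · rw [pow_succ', Module.End.mul_apply, Pi.sub_apply, Ro, if_pos hx, sub_zero, Mz_apply,
        Mz_apply]
      congr 1
      refine Finset.sum_congr rfl fun i _ => ?_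
      rw [if_pos trivial]
      split_ifs with h
      · rfl
      · exact (hs k _ fun h' => h ((hZ x i).2 ⟨hx, h'⟩)).symm
    · rw [hs _ x hx, Pi.sub_apply, Ro, if_neg hx, sub_self]
  have hb : ∀ k, N2 ((Mz τ Z ^ k) η) ≤ N2 η := by
    intro k
    induction k with
    | zero => exact le_rfl
    | succ k ih => rw [hst]; exact (N2_cut De _).trans ((hP _).trans ih)
  have hc2 : ∀ k, N2 ((Pf τ ^ k) (Pm V η)) ≤ N2 η := by
    intro k
    induction k with
    | zero => exact N2_Pm η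
    | succ k ih => rw [pow_succ', Module.End.mul_apply]; exact (hP _).trans ih
  have hfix : ∀ k, Pm V ((Pf τ ^ k) (Pm V η)) = (Pf τ ^ k) (Pm V η) := by
    intro k
    induction k with
    | zero => exact Pm_Pm η
    | succ k ih => rw [pow_succ', Module.End.mul_apply, Pm_Pf τ hj, ih]
  have hm : ∀ k : ℕ, N2 (Pm V ((Mz τ Z ^ k) η - (Pf τ ^ k) (Pm V η))) ≤ k * δ * N2 η := by
    intro k
    induction k with
    | zero => simp [Pm_Pm, N2]
    | succ k ih =>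
      have e : Pm V ((Mz τ Z ^ (k + 1)) η - (Pf τ ^ (k + 1)) (Pm V η)) =
          Pf τ (Pm V ((Mz τ Z ^ k) η - (Pf τ ^ k) (Pm V η))) -
            Pm V (Ro De (Pf τ ((Mz τ Z ^ k) η))) := by
        rw [hst, pow_succ' (Pf τ), Module.End.mul_apply, ← Pm_Pf τ hj]
        simp only [map_sub]
        abel
      rw [e]
      have h1 := N2_Pm_Ro hδ hq (Pf τ ((Mz τ Z ^ k) η))
      have h2 := mul_le_mul_of_nonneg_left ((hP _).trans (hb k)) hδ
      refine (N2_sub _ _).trans ?_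
      push_cast
      linarith [(hP _).trans ih]
  induction k with
  | zero =>
    refine (N2_sub _ _).trans ?_
    have := N2_Pm η
    simp only [pow_zero, Module.End.one_apply, Nat.cast_zero]
    linarith
  | succ k ih =>
    set s := (Mz τ Z ^ k) η - (Pf τ ^ k) (Pm V η) with hsd
    have e : (Mz τ Z ^ (k + 1)) η - (Pf τ ^ (k + 1)) (Pm V η) =
        (Pf τ s - Ro De (Pf τ s)) - Ro De ((Pf τ ^ (k + 1)) (Pm V η)) := by
      rw [hst, pow_succ' (Pf τ), Module.End.mul_apply, hsd, map_sub]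
      funext x
      simp only [Pi.sub_apply, Ro]
      split_ifs <;> ring
    have h1 : N2 (Ro De ((Pf τ ^ (k + 1)) (Pm V η))) ≤ δ * N2 η := by
      refine le_trans ?_ (mul_le_mul_of_nonneg_left (hc2 (k + 1)) hδ)
      have e2 : (Pf τ ^ (k + 1)) (Pm V η) = fun x =>
          (fun e : ZMod 2 => (∑ v, η (v, e + (k + 1 : ℕ))) / Fintype.card V) x.2 :=
        funext fun x => Pf_pow τ hj η _ x
      rw [e2]
      exact N2_Ro_cst hδ hq
        fun e : ZMod 2 => (∑ v, η (v, e + (k + 1 : ℕ))) / Fintype.card V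
    have h2 : N2 (Pf τ s) ≤ (1 - c) * (N2 s + N2 (Pm V s)) + N2 (Pm V s) := by
      have e3 : Pf τ s = Pf τ (s - Pm V s) + Pf τ (Pm V s) := by rw [← map_add, sub_add_cancel]
      rw [e3]
      refine (N2_add _ _).trans (add_le_add ((N2_gap τ hc1 hg _ ?_).trans
        (mul_le_mul_of_nonneg_left (N2_sub _ _) (by linarith))) (hP _))
      rw [map_sub, Pm_Pm, sub_self]
    have h3 := hm k
    rw [← hsd] at h3
    rw [e]
    refine (N2_sub _ _).trans ((add_le_add ((N2_cut De _).trans h2) h1).trans ?_)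
    have h4 := mul_le_mul_of_nonneg_left ih (show 0 ≤ 1 - c by linarith)
    have h5 := mul_nonneg hc.le (N2_nn (Pm V s))
    have h6 : 0 ≤ c * (k ^ 2 * δ * N2 η) := by positivity
    push_cast
    rw [pow_succ (1 - c)]
    nlinarith

theorem triv {c : ℝ} (hj : 1 ≤ j) (hc : 0 < c) (hc1 : c ≤ 1) (hg : Gap τ c) (hδ1 : δ ≤ 1)
    {Z : V × ZMod 2 → Fin j → Prop}
    (hZ : ∀ x i, Z x i ↔ x ∈ De ∧ ((τ i)⁻¹ x.1, x.2 + 1) ∈ De) (η : V × ZMod 2 → ℂ)
    (hη : ∀ x ∉ De, η x = 0) (T : ℕ) :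
    N2 (((1 / 2 : ℂ) • (Mz τ Z ^ T + Mz τ Z ^ (T + 1))) η - fun x => if x ∈ De then
      (∑ y, η y) / (Finset.univ.filter fun x => x ∈ De).card else 0) ≤
      (2 * (1 - c) ^ T + ((T + 1) ^ 2 + 1) * δ) * N2 η := by
  rcases isEmpty_or_nonempty V with hV | hV
  · simp [N2]
  have hn : (0 : ℝ) < Fintype.card V := by exact_mod_cast Fintype.card_pos
  have hn' : (Fintype.card V : ℂ) ≠ 0 := by exact_mod_cast hn.ne'
  have h0 := N2_nn η
  set E : V × ZMod 2 → ℂ := fun x => if x ∈ De then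
    (∑ y, η y) / (Finset.univ.filter fun x => x ∈ De).card else 0 with hE
  set μ : ℂ := (∑ y, η y) / (2 * Fintype.card V) with hμ
  have e : ((1 / 2 : ℂ) • (Mz τ Z ^ T + Mz τ Z ^ (T + 1))) η - E =
      (1 / 2 : ℂ) • (((Mz τ Z ^ T) η - (Pf τ ^ T) (Pm V η)) +
        ((Mz τ Z ^ (T + 1)) η - (Pf τ ^ (T + 1)) (Pm V η))) + ((fun _ => μ) - E) := by
    funext x
    simp only [LinearMap.smul_apply, LinearMap.add_apply, Pi.smul_apply, Pi.add_apply,
      Pi.sub_apply, Pf_pow τ hj, Pm_apply, smul_eq_mul, hμ, Nat.cast_succ, ← add_assoc]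
    rw [sum_par (x.2 + T) η]
    field_simp
    ring
  have h1 : N2 ((fun _ => μ) - E) ≤ δ * N2 η := by
    refine N2_le hδ ?_
    set d := (Finset.univ.filter fun x => x ∈ De).card with hd
    set q := (Finset.univ.filter fun x => x ∉ De).card with hq'
    have h2 : (d : ℝ) + q = 2 * Fintype.card V := by
      have := Finset.card_filter_add_card_filter_not (s := Finset.univ) fun x => x ∈ De
      rw [Finset.card_univ, Fintype.card_prod, ZMod.card] at this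
      rw [mul_comm]
      exact_mod_cast this
    have h3 : δ ^ 2 ≤ 1 := by nlinarith
    have h4 : (q : ℝ) ≤ d := by nlinarith
    have hq0 : (0 : ℝ) ≤ q := Nat.cast_nonneg _
    have hd0 : (0 : ℝ) < d := by linarith
    have hd1 : (d : ℂ) ≠ 0 := by exact_mod_cast hd0.ne'
    have h5 : μ - (∑ y, η y) / d = -(μ * (q / d : ℝ)) := by
      have h6 : (2 * Fintype.card V : ℂ) = d + q := by exact_mod_cast h2.symm
      have h7 : (∑ y, η y) = μ * (d + q) := by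
        rw [hμ, ← h6]
        field_simp
      rw [h7]
      push_cast
      field_simp
      ring
    have h6 : ∀ x, ‖((fun _ => μ) - E : V × ZMod 2 → ℂ) x‖ ^ 2 =
        if x ∈ De then ‖μ‖ ^ 2 * (q / d) ^ 2 else ‖μ‖ ^ 2 := by
      intro x
      simp only [hE, Pi.sub_apply]
      split_ifs
      · rw [h5, norm_neg, norm_mul, mul_pow, Complex.norm_real, Real.norm_eq_abs, sq_abs]
      · rw [sub_zero]
    simp only [h6]
    rw [Finset.sum_ite, Finset.sum_const, Finset.sum_const, nsmul_eq_mul, nsmul_eq_mul, ← hd,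
      ← hq']
    have h7 := cs_sum Finset.univ η
    rw [Finset.card_univ, Fintype.card_prod, ZMod.card] at h7
    have h8 : ‖μ‖ ^ 2 * (2 * Fintype.card V) ≤ ∑ x, ‖η x‖ ^ 2 := by
      rw [hμ, norm_div, norm_mul, Complex.norm_natCast, Complex.norm_two, div_pow,
        div_mul_eq_mul_div, div_le_iff₀ (by positivity)]
      push_cast at h7
      nlinarith
    have h9 : (d : ℝ) * (q / d) ^ 2 ≤ q := by
      rw [div_pow, ← mul_div_assoc, div_le_iff₀ (by positivity)]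
      nlinarith [mul_le_mul_of_nonneg_left h4 (mul_nonneg hq0 hd0.le)]
    have h10 := mul_le_mul_of_nonneg_left h8 (sq_nonneg δ)
    have h11 := mul_le_mul_of_nonneg_left h9 (sq_nonneg ‖μ‖)
    have h12 := mul_le_mul_of_nonneg_left hq (sq_nonneg ‖μ‖)
    nlinarith
  rw [e]
  refine (N2_add _ _).trans ?_
  rw [N2_smul]
  have h2 := (N2_add _ _).trans (add_le_add (orbit τ hδ hq hj hc hc1 hg hZ η hη T)
    (orbit τ hδ hq hj hc hc1 hg hZ η hη (T + 1)))
  have h3 : ‖(1 / 2 : ℂ)‖ = 1 / 2 := by simp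
  have h4 : 0 ≤ c * (1 - c) ^ T * N2 η := by
    have : 0 ≤ 1 - c := by linarith
    positivity
  have h5 : 0 ≤ (2 * T + 1) * δ * N2 η := by positivity
  rw [h3]
  push_cast at h2
  rw [pow_succ (1 - c)] at h2
  nlinarith

end Pool.Agent.P.MP_9167e9_an.Spec
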