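import Pool.Agent.P.MP_9167e9_an.Spec.PB

/-!
The part of the operator along the edges outside the blocks is small on `ℓ^p`.
-/

noncomputable section
open scoped Classical

namespace Pool.Agent.P.MP_9167e9_an.Spec

theorem sum_comp_le {X Y Z : Type} [Fintype Y] (A : Finset X) (φ : X → Z) (κ : X → Y)
    (F' : Finset Z) (hm : ∀ x ∈ A, φ x ∈ F')
    (hi : ∀ x ∈ A, ∀ x' ∈ A, φ x = φ x' → κ x = κ x' → x = x') (g : Z → ℝ) (hg : ∀ z, 0 ≤ g z) :
    ∑ x ∈ A, g (φ x) ≤ Fintype.card Y * ∑ z ∈ F', g z := by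
  have h1 : ∑ x ∈ A, g (φ x) = ∑ y ∈ A.image (fun x => (φ x, κ x)), g y.1 := by
    rw [Finset.sum_image]
    intro x hx x' hx' e
    exact hi x hx x' hx' (congrArg Prod.fst e) (congrArg Prod.snd e)
  have h2 : ∑ y ∈ F' ×ˢ (Finset.univ : Finset Y), g y.1 = Fintype.card Y * ∑ z ∈ F', g z := by
    rw [Finset.sum_product, Finset.mul_sum]
    simp
  rw [h1, ← h2]
  refine Finset.sum_le_sum_of_subset_of_nonneg (fun y hy => ?_) fun _ _ _ => hg _
  obtain ⟨x, hx, rfl⟩ := Finset.mem_image.1 hy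
  exact Finset.mem_product.2 ⟨hm x hx, Finset.mem_univ _⟩

theorem norm_sum_rpow {ι : Type} {p : ℝ} (hp : 1 ≤ p) (s : Finset ι) (f : ι → ℂ) {c : ℝ}
    (hc : (s.card : ℝ) ≤ c) : ‖∑ i ∈ s, f i‖ ^ p ≤ c ^ (p - 1) * ∑ i ∈ s, ‖f i‖ ^ p := by
  refine (Real.rpow_le_rpow (norm_nonneg _) (norm_sum_le _ _) (by linarith)).trans ?_
  refine (Real.rpow_sum_le_const_mul_sum_rpow_of_nonneg s hp fun _ _ => norm_nonneg _).trans ?_
  exact mul_le_mul_of_nonneg_right (Real.rpow_le_rpow (by positivity) hc (by linarith))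
    (Finset.sum_nonneg fun _ _ => by positivity)

theorem norm_avg_rpow {h : ℕ} [NeZero h] {p : ℝ} (hp : 1 ≤ p) (f : ZMod h → ℂ) :
    ‖(∑ t, f t) / h‖ ^ p ≤ (∑ t, ‖f t‖ ^ p) / h := by
  have hh : (0 : ℝ) < h := by exact_mod_cast NeZero.pos h
  have h1 := norm_sum_rpow hp Finset.univ f (c := h) (by simp)
  rw [norm_div, Complex.norm_natCast, Real.div_rpow (norm_nonneg _) hh.le,
    div_le_div_iff₀ (by positivity) hh]
  rw [Real.rpow_sub_one hh.ne'] at h1
  calc _ ≤ (h : ℝ) ^ p / h * (∑ t, ‖f t‖ ^ p) * h := mul_le_mul_of_nonneg_right h1 hh.le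
    _ = _ := by field_simp

variable {h : ℕ} [NeZero h] {S Γ N : Type} [Fintype S] [Group N] (mv : S → Equiv.Perm Γ)
  (lamp : Γ → S → Multiplicative (ZMod h) →* N)

/-- The source of an elementary step. -/
def src (x : (Γ × N) × S × ZMod h) : Γ × N :=
  ((mv x.2.1)⁻¹ x.1.1, lamp x.1.1 x.2.1 (Multiplicative.ofAdd x.2.2) * x.1.2)

/-- The part of the operator selected by a condition on the target point and the label. -/
def bQ (Q : Γ × N → S → Prop) (ξ : Γ × N → ℂ) (z : Γ × N) : ℂ :=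
  ∑ s, if Q z s then (∑ t : ZMod h, ξ (src mv lamp (z, s, t))) / h else 0

theorem pb_gen {p : ℝ} (hp : 1 ≤ p) (Q : Γ × N → S → Prop) {c : ℝ} (hc0 : 0 ≤ c)
    (hc : ∀ z (A : Finset S), (∀ s ∈ A, Q z s) → (A.card : ℝ) ≤ c) {Y : Type} [Fintype Y]
    (κ : (Γ × N) × S × ZMod h → Y)
    (hi : ∀ x x', Q x.1 x.2.1 → Q x'.1 x'.2.1 → src mv lamp x = src mv lamp x' → κ x = κ x' →
      x = x') {Λ : ℝ} (hΛ : c ^ (p - 1) * (Fintype.card Y / h) ≤ Λ ^ p) :
    PB p (bQ mv lamp Q) Λ := by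
  intro ξ F
  have hh : (0 : ℝ) < h := by exact_mod_cast NeZero.pos h
  set A : Finset ((Γ × N) × S × ZMod h) :=
    (F ×ˢ Finset.univ).filter fun x => Q x.1 x.2.1 with hA
  refine ⟨A.image (src mv lamp), ?_⟩
  have h1 := sum_comp_le A (src mv lamp) κ (A.image (src mv lamp))
    (fun x hx => Finset.mem_image_of_mem _ hx)
    (fun x hx x' hx' => hi x x' (Finset.mem_filter.1 hx).2 (Finset.mem_filter.1 hx').2)
    (fun z => ‖ξ z‖ ^ p) fun z => by positivity
  have h2 : ∑ x ∈ A, ‖ξ (src mv lamp x)‖ ^ p = ∑ z ∈ F, ∑ s ∈ Finset.univ.filter (Q z),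
      ∑ t : ZMod h, ‖ξ (src mv lamp (z, s, t))‖ ^ p := by
    rw [hA, Finset.sum_filter, Finset.sum_product]
    refine Finset.sum_congr rfl fun z _ => ?_
    rw [Fintype.sum_prod_type, Finset.sum_filter]
    refine Finset.sum_congr rfl fun s _ => ?_
    split_ifs <;> simp
  have h3 : ∀ z, ‖bQ mv lamp Q ξ z‖ ^ p ≤ c ^ (p - 1) * ((∑ s ∈ Finset.univ.filter (Q z),
      ∑ t : ZMod h, ‖ξ (src mv lamp (z, s, t))‖ ^ p) / h) := by
    intro z
    rw [bQ, ← Finset.sum_filter]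
    refine (norm_sum_rpow hp _ _ (hc z _ fun s hs => (Finset.mem_filter.1 hs).2)).trans
      (mul_le_mul_of_nonneg_left ?_ (by positivity))
    rw [Finset.sum_div]
    exact Finset.sum_le_sum fun s _ => norm_avg_rpow hp _
  refine (Finset.sum_le_sum fun z _ => h3 z).trans ?_
  rw [← Finset.mul_sum, ← Finset.sum_div, ← h2]
  refine le_trans ?_ (mul_le_mul_of_nonneg_right hΛ (sum_nn _ _ _))
  rw [mul_assoc]
  refine mul_le_mul_of_nonneg_left ?_ (by positivity)
  rw [div_mul_eq_mul_div]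
  exact div_le_div_of_nonneg_right h1 hh.le

omit [NeZero h] [Fintype S] in
theorem src_eq {z z' : Γ × N} {s : S} {t : ZMod h}
    (e : src mv lamp (z, s, t) = src mv lamp (z', s, t)) : z = z' := by
  have h1 : z.1 = z'.1 := (mv s)⁻¹.injective (congrArg Prod.fst e)
  have h2 := congrArg Prod.snd e
  simp only [src, h1] at h2
  exact Prod.ext h1 (mul_left_cancel h2)

theorem pb_rest {p : ℝ} (hp : 2 ≤ p) {j : ℕ} (hj : 1 ≤ j) (slot : S → Fin j) (P : Γ → S → Prop)
    (par : Γ → Option (Γ × S)) (hk2 : (Fintype.card S : ℝ) ^ 2 ≤ (j : ℝ) ^ p)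
    (hkh : (Fintype.card S : ℝ) ^ p ≤ h)
    (hPar : ∀ γ i, ∃ Par : S → Set N,
      (∀ s n t, slot s = i → n ∈ Par s → lamp γ s t * n ∈ Par s → t = 1) ∧
      ∀ n s s', slot s = i → slot s' = i → n ∉ Par s → n ∉ Par s' → s = s')
    (hP : ∀ γ s, P γ s → par γ = some (γ, s) ∨ par ((mv s)⁻¹ γ) = some (γ, s)) :
    PB p (fun ξ => ((1 / j : ℂ) • aP mv lamp P) ξ) (3 * (j : ℝ) ^ (-1 / p)) := by
  choose Par hPar1 hPar2 using hPar
  have hp1 : 1 ≤ p := by linarith
  have hp0 : 0 < p := by linarith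
  have hj1 : (1 : ℝ) ≤ j := by exact_mod_cast hj
  have hj0 : (0 : ℝ) < j := by linarith
  have hh : (0 : ℝ) < h := by exact_mod_cast NeZero.pos h
  set μ : ℝ := (j : ℝ) ^ (1 - 1 / p) with hμ
  have hμ0 : 0 ≤ μ := by positivity
  have hμp : μ ^ p = (j : ℝ) ^ (p - 1) := by
    rw [hμ, ← Real.rpow_mul hj0.le]
    congr 1
    field_simp
  have hj2 : 1 ≤ (j : ℝ) ^ (p - 1) := Real.one_le_rpow hj1 (by linarith)
  have up : ∀ {x x' : (Γ × N) × S × ZMod h}, par ((mv x.2.1)⁻¹ x.1.1) = some (x.1.1, x.2.1) →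
      par ((mv x'.2.1)⁻¹ x'.1.1) = some (x'.1.1, x'.2.1) → src mv lamp x = src mv lamp x' →
      x.1.1 = x'.1.1 ∧ x.2.1 = x'.2.1 := by
    intro x x' h1 h2 e
    have h3 : (mv x.2.1)⁻¹ x.1.1 = (mv x'.2.1)⁻¹ x'.1.1 := congrArg Prod.fst e
    rw [h3, h2] at h1
    have h4 := Option.some.inj h1
    exact ⟨(congrArg Prod.fst h4).symm, (congrArg Prod.snd h4).symm⟩
  have hD : PB p (bQ mv lamp fun z s => P z.1 s ∧ par z.1 = some (z.1, s)) μ := by
    refine pb_gen mv lamp hp1 _ zero_le_one (fun z A hA => ?_) (Y := S × ZMod h) (fun x => x.2)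
      (fun x x' _ _ e e' => ?_) ?_
    · have : A.card ≤ 1 := by
        refine Finset.card_le_one.2 fun s hs s' hs' => ?_
        have h1 := (hA s hs).2
        rw [(hA s' hs').2] at h1
        exact (congrArg Prod.snd (Option.some.inj h1)).symm
      exact_mod_cast this
    · obtain ⟨z, s, t⟩ := x
      obtain ⟨z', s', t'⟩ := x'
      obtain ⟨rfl, rfl⟩ := Prod.mk.inj e'
      rw [src_eq mv lamp e]
    · rw [Real.one_rpow, one_mul, Fintype.card_prod, ZMod.card, Nat.cast_mul,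
        mul_div_assoc, div_self hh.ne', mul_one, hμp]
      refine le_of_sq_le_sq (hk2.trans ?_) (by positivity)
      rw [← Real.rpow_natCast, ← Real.rpow_mul hj0.le]
      exact Real.rpow_le_rpow_of_exponent_le hj1 (by push_cast; linarith)
  have hU : PB p (bQ mv lamp fun z s => (P z.1 s ∧ par z.1 ≠ some (z.1, s)) ∧
      z.2 ∉ Par z.1 (slot s) s) μ := by
    refine pb_gen mv lamp hp1 _ hj0.le (fun z A hA => ?_) (Y := ZMod h) (fun x => x.2.2)
      (fun x x' h1 h2 e e' => ?_) ?_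
    · have : A.card ≤ (Finset.univ : Finset (Fin j)).card := by
        refine Finset.card_le_card_of_injOn slot (fun _ _ => Finset.mem_univ _)
          fun s hs s' hs' e => ?_
        have h1 := (hA s hs).2
        have h2 := (hA s' hs').2
        rw [← e] at h2
        exact hPar2 z.1 (slot s) z.2 s s' rfl e.symm h1 h2
      rw [Finset.card_univ, Fintype.card_fin] at this
      exact_mod_cast this
    · obtain ⟨h3, h4⟩ := up ((hP _ _ h1.1.1).resolve_left h1.1.2)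
        ((hP _ _ h2.1.1).resolve_left h2.1.2) e
      obtain ⟨z, s, t⟩ := x
      obtain ⟨z', s', t'⟩ := x'
      dsimp only at h4 e'
      subst h4 e'
      rw [src_eq mv lamp e]
    · rw [ZMod.card, div_self hh.ne', mul_one, hμp]
  have hV : PB p (bQ mv lamp fun z s => (P z.1 s ∧ par z.1 ≠ some (z.1, s)) ∧
      z.2 ∈ Par z.1 (slot s) s) μ := by
    refine pb_gen mv lamp hp1 _ (c := Fintype.card S) (by positivity) (fun z A _ => ?_) (Y := Unit)
      (fun _ => ()) (fun x x' h1 h2 e _ => ?_) ?_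
    · exact_mod_cast Finset.card_le_univ _
    · obtain ⟨h3, h4⟩ := up ((hP _ _ h1.1.1).resolve_left h1.1.2)
        ((hP _ _ h2.1.1).resolve_left h2.1.2) e
      obtain ⟨⟨γ, n⟩, s, t⟩ := x
      obtain ⟨⟨γ', n'⟩, s', t'⟩ := x'
      dsimp only at h3 h4
      subst h3 h4
      have h5 : lamp γ s (Multiplicative.ofAdd t) * n = lamp γ s (Multiplicative.ofAdd t') * n' :=
        congrArg Prod.snd e
      have h6 : lamp γ s ((Multiplicative.ofAdd t')⁻¹ * Multiplicative.ofAdd t) * n = n' := by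
        rw [map_mul, map_inv, mul_assoc, h5, inv_mul_cancel_left]
      have h7 := hPar1 γ (slot s) s n _ rfl h1.2 (h6 ▸ h2.2)
      have h8 : t' = t := Multiplicative.ofAdd.injective (inv_mul_eq_one.1 h7)
      subst h8
      rw [src_eq mv lamp e]
    · rw [hμp, Fintype.card_unit, Nat.cast_one]
      refine le_trans ?_ hj2
      rw [mul_one_div, div_le_one hh]
      rcases Nat.eq_zero_or_pos (Fintype.card S) with h0 | h0
      · rw [h0, Nat.cast_zero, Real.zero_rpow (by linarith)]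
        exact hh.le
      · exact (Real.rpow_le_rpow_of_exponent_le (by exact_mod_cast h0) (by linarith)).trans hkh
  have h1 := (PB.add hp1 (by positivity) hμ0 (PB.add hp1 hμ0 hμ0 hD hU) hV).smul (by positivity)
    (1 / j : ℂ)
  have e1 : ‖(1 / j : ℂ)‖ * (μ + μ + μ) = 3 * (j : ℝ) ^ (-1 / p) := by
    rw [norm_div, norm_one, Complex.norm_natCast, hμ, show 1 - 1 / p = -1 / p + 1 by ring,
      Real.rpow_add_one hj0.ne']
    field_simp
    ring
  rw [e1] at h1
  refine h1.congr fun ξ z => ?_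
  simp only [LinearMap.smul_apply, Pi.smul_apply, smul_eq_mul, aP, LinearMap.coe_mk,
    AddHom.coe_mk, bQ, src, ← Finset.sum_add_distrib]
  congr 1
  refine Finset.sum_congr rfl fun s _ => ?_
  by_cases h2 : P z.1 s <;> by_cases h3 : par z.1 = some (z.1, s) <;>
    by_cases h4 : z.2 ∈ Par z.1 (slot s) s <;> simp [h2, h3, h4]

end Pool.Agent.P.MP_9167e9_an.Spec
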